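import Mathlib

/-!
First fundamental theorem of invariant theory for products of symplectic and general linear Lie
algebras, in coordinates, with an elementary proof.
-/

namespace Pool.Agent.H25.TN

set_option linter.unusedSectionVars false

open Finset Function

/-- Combinatorial data of a product of symplectic and general linear Lie algebras: an index set
with an involution, signs, and a compatible equivalence relation (blocks). -/
structure Blk (X C : Type*) [Field C] where
  bar : X → X
  bar_bar : ∀ a, bar (bar a) = a
  eps : X → C
  eps_sq : ∀ a, eps a * eps a = 1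
  eps_bar : ∀ a, eps (bar a) = - eps a
  r : X → X → Prop
  refl : ∀ a, r a a
  symm : ∀ a b, r a b → r b a
  trans : ∀ a b c, r a b → r b c → r a c
  r_bar : ∀ a b, r a b → r (bar a) (bar b)

section Words

variable {X P C : Type*} [Fintype X] [DecidableEq X] [Fintype P] [DecidableEq P] [Field C]
  (B : Blk X C)

omit [Fintype X] [DecidableEq X] [Fintype P] in
theorem upc {a b : P} (h : a ≠ b) (v w : X) (f : P → X) :
    update (update f a v) b w = update (update f b w) a v :=
  update_comm (β := fun _ => X) h v w f

open Classical in
/-- The infinitesimal invariance relations on the positions in `S`. -/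
def KRel (S : Finset P) (x : (P → X) → C) : Prop :=
  ∀ a b, B.r a b → ∀ w : P → X, (∑ i ∈ S, if w i = a then x (update w i b) else 0)
    = B.eps a * B.eps b * ∑ i ∈ S, if w i = B.bar b then x (update w i (B.bar a)) else 0

/-- `x` depends only on the positions in `S`. -/
def Dep (S : Finset P) (x : (P → X) → C) : Prop :=
  ∀ w w' : P → X, (∀ i ∈ S, w i = w' i) → x w = x w'

open Classical in
/-- Contraction of the positions `i`, `j` over the block of `b`. -/
noncomputable def con (i j : P) (b : X) (x : (P → X) → C) (w : P → X) : C :=
  ∑ a, if B.r a b then B.eps a * x (update (update w i a) j (B.bar a)) else 0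

omit [Fintype P] in
theorem con_dep {S : Finset P} {x : (P → X) → C} (hx : Dep S x) (i j : P) (b : X) :
    Dep ((S.erase i).erase j) (con B i j b x) := by
  classical
  intro w w' h
  unfold con
  refine Finset.sum_congr rfl fun a _ => ?_
  congr 2
  apply hx
  intro k hk
  by_cases hkj : k = j
  · subst hkj; simp
  · by_cases hki : k = i
    · subst hki; simp [update_of_ne hkj]
    · rw [update_of_ne hkj, update_of_ne hki, update_of_ne hkj, update_of_ne hki]
      exact h k (by simp [hk, hkj, hki])

omit [Fintype P] in
theorem con_K {S : Finset P} {x : (P → X) → C} (hx : KRel B S x) {i j : P} (hi : i ∈ S)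
    (hj : j ∈ S) (hij : i ≠ j) (b : X) : KRel B ((S.erase i).erase j) (con B i j b x) := by
  classical
  intro a c hac w
  set S' := (S.erase i).erase j with hS'
  have hSsum : ∀ f : P → C, ∑ k ∈ S, f k = f i + (f j + ∑ k ∈ S', f k) := by
    intro f
    rw [← Finset.add_sum_erase S f hi, ← Finset.add_sum_erase (S.erase i) f (a := j)
      (by simp [hj, hij.symm])]
  have hne : ∀ k ∈ S', k ≠ i ∧ k ≠ j := by
    intro k hk
    simp only [hS', mem_erase] at hk
    exact ⟨hk.2.1, hk.1⟩
  let W : X → P → X := fun d => update (update w i d) j (B.bar d)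
  have hW : ∀ d, ∀ k ∈ S', W d k = w k := by
    intro d k hk
    obtain ⟨h1, h2⟩ := hne k hk
    simp only [W]
    rw [update_of_ne h2, update_of_ne h1]
  have hWi : ∀ d, W d i = d := by
    intro d; simp only [W]; rw [update_of_ne hij, update_self]
  have hWj : ∀ d, W d j = B.bar d := by
    intro d; simp only [W]; rw [update_self]
  have hcomm : ∀ d (k : P), k ∈ S' → ∀ e,
      update (update (update w k e) i d) j (B.bar d) = update (W d) k e := by
    intro d k hk e
    obtain ⟨h1, h2⟩ := hne k hk
    simp only [W]
    rw [upc h1 e d, upc h2 e (B.bar d)]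
  have key : ∀ d, (∑ k ∈ S', if w k = a then x (update (W d) k c) else 0)
      + (if d = a then x (update (W d) i c) else 0)
      + (if B.bar d = a then x (update (W d) j c) else 0)
      = B.eps a * B.eps c * ((∑ k ∈ S', if w k = B.bar c then x (update (W d) k (B.bar a)) else 0)
      + (if d = B.bar c then x (update (W d) i (B.bar a)) else 0)
      + (if B.bar d = B.bar c then x (update (W d) j (B.bar a)) else 0)) := by
    intro d
    have h := hx a c hac (W d)
    rw [hSsum, hSsum, hWi, hWj] at h
    rw [Finset.sum_congr rfl (fun k hk => by rw [hW d k hk])] at h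
    rw [Finset.sum_congr (s₁ := S') (f := fun k => if W d k = B.bar c then
      x (update (W d) k (B.bar a)) else 0) rfl (fun k hk => by rw [hW d k hk])] at h
    linear_combination h
  have L : (∑ k ∈ S', if w k = a then con B i j b x (update w k c) else 0)
      = ∑ d, if B.r d b then B.eps d * ∑ k ∈ S', (if w k = a then x (update (W d) k c) else 0)
        else 0 := by
    unfold con
    have : ∀ k ∈ S', (if w k = a then ∑ d, (if B.r d b then B.eps d *
        x (update (update (update w k c) i d) j (B.bar d)) else 0) else 0)
        = ∑ d, (if B.r d b then B.eps d * (if w k = a then x (update (W d) k c) else 0) else 0) := by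
      intro k hk
      split_ifs with h
      · refine Finset.sum_congr rfl fun d _ => ?_
        rw [hcomm d k hk]
      · symm; apply Finset.sum_eq_zero; intro d _; split_ifs <;> simp
    rw [Finset.sum_congr rfl this, Finset.sum_comm]
    refine Finset.sum_congr rfl fun d _ => ?_
    split_ifs
    · rw [Finset.mul_sum]
    · simp
  have R : (∑ k ∈ S', if w k = B.bar c then con B i j b x (update w k (B.bar a)) else 0)
      = ∑ d, if B.r d b then B.eps d * ∑ k ∈ S', (if w k = B.bar c then
        x (update (W d) k (B.bar a)) else 0) else 0 := by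
    unfold con
    have : ∀ k ∈ S', (if w k = B.bar c then ∑ d, (if B.r d b then B.eps d *
        x (update (update (update w k (B.bar a)) i d) j (B.bar d)) else 0) else 0)
        = ∑ d, (if B.r d b then B.eps d * (if w k = B.bar c then
          x (update (W d) k (B.bar a)) else 0) else 0) := by
      intro k hk
      split_ifs with h
      · refine Finset.sum_congr rfl fun d _ => ?_
        rw [hcomm d k hk]
      · symm; apply Finset.sum_eq_zero; intro d _; split_ifs <;> simp
    rw [Finset.sum_congr rfl this, Finset.sum_comm]
    refine Finset.sum_congr rfl fun d _ => ?_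
    split_ifs
    · rw [Finset.mul_sum]
    · simp
  rw [L, R]
  have bar_inj : ∀ {y z : X}, B.bar y = B.bar z → y = z := by
    intro y z h
    rw [← B.bar_bar y, h, B.bar_bar]
  have e1 : (∑ d, if B.r d b then B.eps d * (if d = a then x (update (W d) i c) else 0) else 0)
      = if B.r a b then B.eps a * x (update (update w i c) j (B.bar a)) else 0 := by
    rw [Finset.sum_eq_single a]
    · simp only [if_true, W]
      rw [upc hij a (B.bar a), update_idem, upc hij c (B.bar a)]
    · intro d _ hd; simp [hd]
    · simp
  have e2 : (∑ d, if B.r d b then B.eps d * (if B.bar d = a then x (update (W d) j c) else 0)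
      else 0) = if B.r (B.bar a) b then - B.eps a * x (update (update w i (B.bar a)) j c) else 0 := by
    rw [Finset.sum_eq_single (B.bar a)]
    · simp only [B.bar_bar, if_true, W, B.eps_bar]
      rw [update_idem]
    · intro d _ hd
      have : B.bar d ≠ a := fun h => hd (by rw [← h, B.bar_bar])
      simp [this]
    · simp
  have e3 : (∑ d, if B.r d b then B.eps d * (if d = B.bar c then x (update (W d) i (B.bar a))
      else 0) else 0)
      = if B.r (B.bar c) b then - B.eps c * x (update (update w i (B.bar a)) j c) else 0 := by
    rw [Finset.sum_eq_single (B.bar c)]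
    · simp only [if_true, W, B.eps_bar, B.bar_bar]
      rw [upc hij (B.bar c) c, update_idem, upc hij (B.bar a) c]
    · intro d _ hd; simp [hd]
    · simp
  have e4 : (∑ d, if B.r d b then B.eps d * (if B.bar d = B.bar c then
      x (update (W d) j (B.bar a)) else 0) else 0)
      = if B.r c b then B.eps c * x (update (update w i c) j (B.bar a)) else 0 := by
    rw [Finset.sum_eq_single c]
    · simp only [if_true, W]
      rw [update_idem]
    · intro d _ hd
      have : B.bar d ≠ B.bar c := fun h => hd (bar_inj h)
      simp [this]
    · simp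
  have hr1 : B.r a b ↔ B.r c b := ⟨fun h => B.trans _ _ _ (B.symm _ _ hac) h,
    fun h => B.trans _ _ _ hac h⟩
  have hr2 : B.r (B.bar a) b ↔ B.r (B.bar c) b :=
    ⟨fun h => B.trans _ _ _ (B.symm _ _ (B.r_bar _ _ hac)) h,
      fun h => B.trans _ _ _ (B.r_bar _ _ hac) h⟩
  have tot := Finset.sum_congr (s₁ := (Finset.univ : Finset X)) rfl
    (fun d _ => congrArg (fun z => if B.r d b then B.eps d * z else 0) (key d))
  have split1 : ∀ (f g h : X → C), (∑ d, if B.r d b then B.eps d * (f d + g d + h d) else 0)
      = (∑ d, if B.r d b then B.eps d * f d else 0) + (∑ d, if B.r d b then B.eps d * g d else 0)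
        + (∑ d, if B.r d b then B.eps d * h d else 0) := by
    intro f g h
    rw [← Finset.sum_add_distrib, ← Finset.sum_add_distrib]
    refine Finset.sum_congr rfl fun d _ => ?_
    split_ifs <;> ring
  have split2 : ∀ (z : C) (f : X → C), (∑ d, if B.r d b then B.eps d * (z * f d) else 0)
      = z * (∑ d, if B.r d b then B.eps d * f d else 0) := by
    intro z f
    rw [Finset.mul_sum]
    refine Finset.sum_congr rfl fun d _ => ?_
    split_ifs <;> ring
  beta_reduce at tot
  rw [split1, split2, split1, e1, e2, e3, e4] at tot
  have hE : (if B.r a b then B.eps a * x (update (update w i c) j (B.bar a)) else 0)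
      = B.eps a * B.eps c *
        (if B.r c b then B.eps c * x (update (update w i c) j (B.bar a)) else 0) := by
    by_cases h : B.r a b
    · rw [if_pos h, if_pos (hr1.1 h)]
      linear_combination (-1 : C) * B.eps a * x (update (update w i c) j (B.bar a)) * B.eps_sq c
    · rw [if_neg h, if_neg (fun h' => h (hr1.2 h'))]; ring
  have hE' : (if B.r (B.bar a) b then - B.eps a * x (update (update w i (B.bar a)) j c) else 0)
      = B.eps a * B.eps c *
        (if B.r (B.bar c) b then - B.eps c * x (update (update w i (B.bar a)) j c) else 0) := by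
    by_cases h : B.r (B.bar a) b
    · rw [if_pos h, if_pos (hr2.1 h)]
      linear_combination B.eps a * x (update (update w i (B.bar a)) j c) * B.eps_sq c
    · rw [if_neg h, if_neg (fun h' => h (hr2.2 h'))]; ring
  linear_combination tot - hE - hE'

open Classical in
/-- The Casimir relation for an infinitesimally invariant tensor all of whose contractions
vanish. -/
theorem jm {S : Finset P} {x : (P → X) → C} (hx : KRel B S x) {i : P} (hi : i ∈ S)
    (hc : ∀ j ∈ S, j ≠ i → ∀ b w, con B i j b x w = 0) (w : P → X) :
    (((univ.filter fun a => B.r a (w i)).card : C) + (if B.r (B.bar (w i)) (w i) then 1 else 0))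
      * x w + ∑ j ∈ S.erase i, (if B.r (w j) (w i) then x (w ∘ Equiv.swap i j) else 0) = 0 := by
  set b := w i with hb
  have key : ∀ a, B.r a b → x w + (∑ j ∈ S.erase i,
      if w j = a then x (w ∘ Equiv.swap i j) else 0)
      = (if a = B.bar b then - x w else 0) + B.eps b * ∑ j ∈ S.erase i,
        if w j = B.bar b then B.eps a * x (update (update w i a) j (B.bar a)) else 0 := by
    intro a hab
    have h := hx a b hab (update w i a)
    rw [← Finset.add_sum_erase S _ hi, ← Finset.add_sum_erase S _ hi] at h
    simp only [update_self, if_true, update_idem] at h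
    have h0 : update w i b = w := by rw [hb]; exact update_eq_self i w
    rw [h0] at h
    have h1 : (∑ k ∈ S.erase i, if update w i a k = a then x (update (update w i a) k b) else 0)
        = ∑ j ∈ S.erase i, if w j = a then x (w ∘ Equiv.swap i j) else 0 := by
      refine Finset.sum_congr rfl fun k hk => ?_
      have hki : k ≠ i := Finset.ne_of_mem_erase hk
      rw [update_of_ne hki]
      split_ifs with hwk
      · congr 1
        funext l
        rw [comp_apply]
        by_cases hl : l = k
        · subst hl; rw [update_self, Equiv.swap_apply_right]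
        · rw [update_of_ne hl]
          by_cases hli : l = i
          · subst hli; rw [update_self, Equiv.swap_apply_left, hwk]
          · rw [update_of_ne hli, Equiv.swap_apply_of_ne_of_ne hli hl]
      · rfl
    have h2 : (∑ k ∈ S.erase i, if update w i a k = B.bar b then
        x (update (update w i a) k (B.bar a)) else 0)
        = ∑ k ∈ S.erase i, if w k = B.bar b then x (update (update w i a) k (B.bar a)) else 0 := by
      refine Finset.sum_congr rfl fun k hk => ?_
      have hki : k ≠ i := Finset.ne_of_mem_erase hk
      rw [update_of_ne hki]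
    rw [h1, h2] at h
    rw [h, mul_add]
    congr 1
    · split_ifs with hab'
      · subst hab'
        rw [B.bar_bar, h0, B.eps_bar]
        linear_combination (-1 : C) * x w * B.eps_sq b
      · simp
    · rw [mul_comm (B.eps a), mul_assoc, Finset.mul_sum, ]
      congr 1
      refine Finset.sum_congr rfl fun k hk => ?_
      split_ifs <;> simp
  have tot : (∑ a, if B.r a b then (x w + (∑ j ∈ S.erase i,
      if w j = a then x (w ∘ Equiv.swap i j) else 0)) else 0)
      = ∑ a, if B.r a b then ((if a = B.bar b then - x w else 0) + B.eps b * ∑ j ∈ S.erase i,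
        if w j = B.bar b then B.eps a * x (update (update w i a) j (B.bar a)) else 0) else 0 := by
    refine Finset.sum_congr rfl fun a _ => ?_
    by_cases h : B.r a b
    · rw [if_pos h, if_pos h]; exact key a h
    · rw [if_neg h, if_neg h]
  have s1 : (∑ a, if B.r a b then (x w + (∑ j ∈ S.erase i,
      if w j = a then x (w ∘ Equiv.swap i j) else 0)) else 0)
      = ((univ.filter fun a => B.r a b).card : C) * x w
        + ∑ j ∈ S.erase i, (if B.r (w j) b then x (w ∘ Equiv.swap i j) else 0) := by
    have e1 : ∀ a, (if B.r a b then (x w + (∑ j ∈ S.erase i,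
        if w j = a then x (w ∘ Equiv.swap i j) else 0)) else 0)
        = (if B.r a b then x w else 0) + ∑ j ∈ S.erase i,
          (if w j = a then (if B.r a b then x (w ∘ Equiv.swap i j) else 0) else 0) := by
      intro a
      split_ifs with h
      · rfl
      · simp
    rw [Finset.sum_congr rfl fun a _ => e1 a, Finset.sum_add_distrib, Finset.sum_comm]
    congr 1
    · rw [← Finset.sum_filter, Finset.sum_const, nsmul_eq_mul]
    · refine Finset.sum_congr rfl fun j _ => ?_
      rw [Finset.sum_ite_eq, if_pos (Finset.mem_univ _)]
  have s2 : (∑ a, if B.r a b then ((if a = B.bar b then - x w else 0) + B.eps b * ∑ j ∈ S.erase i,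
        if w j = B.bar b then B.eps a * x (update (update w i a) j (B.bar a)) else 0) else 0)
      = - ((if B.r (B.bar b) b then 1 else 0) * x w) := by
    have e1 : ∀ a, (if B.r a b then ((if a = B.bar b then - x w else 0) + B.eps b *
        ∑ j ∈ S.erase i,
        if w j = B.bar b then B.eps a * x (update (update w i a) j (B.bar a)) else 0) else 0)
        = (if a = B.bar b then (if B.r a b then - x w else 0) else 0) + B.eps b *
        ∑ j ∈ S.erase i, (if w j = B.bar b then (if B.r a b then B.eps a *
          x (update (update w i a) j (B.bar a)) else 0) else 0) := by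
      intro a
      by_cases h : B.r a b
      · simp only [if_pos h]
      · simp [if_neg h]
    rw [Finset.sum_congr rfl fun a _ => e1 a, Finset.sum_add_distrib, Finset.sum_ite_eq',
      if_pos (Finset.mem_univ _), ← Finset.mul_sum, Finset.sum_comm]
    have z : (∑ j ∈ S.erase i, ∑ a, (if w j = B.bar b then (if B.r a b then B.eps a *
          x (update (update w i a) j (B.bar a)) else 0) else 0)) = 0 := by
      apply Finset.sum_eq_zero
      intro j hj
      rw [Finset.mem_erase] at hj
      split_ifs with h
      · exact hc j hj.2 hj.1 b w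
      · simp
    rw [z]
    split_ifs <;> ring
  rw [s1, s2] at tot
  linear_combination tot

/-- A family closed under the relations `(c + s) y + ∑_j P_ij y = 0` vanishes, where `c` is the
size of the alphabet. -/
theorem anti [CharZero C] (I : Finset P) (D : Set (P → X))
    (hD : ∀ w ∈ D, ∀ i ∈ I, ∀ j ∈ I, w ∘ Equiv.swap i j ∈ D) (A : Finset X)
    (hA : ∀ w ∈ D, ∀ i ∈ I, w i ∈ A) (s : ℕ) :
    ∀ (n : ℕ) (K : Finset P), K ⊆ I → K.Nonempty → (I \ K).card = n →
      ∀ y : (P → X) → C,
      (∀ w ∈ D, ∀ i ∈ I, ((A.card : C) + s) * y w
        + ∑ j ∈ I.erase i, y (w ∘ Equiv.swap i j) = 0) →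
      (∀ w ∈ D, ∀ i ∈ K, ∀ j ∈ K, i ≠ j → y (w ∘ Equiv.swap i j) = - y w) →
      ∀ w ∈ D, y w = 0 := by
  intro n
  induction n using Nat.strong_induction_on with
  | _ n ih =>
  intro K hK hKne hcard y hy hanti w hw
  have hswap : ∀ (f : P → X) (σ τ : Equiv.Perm P), (f ∘ σ) ∘ τ = f ∘ (σ * τ : Equiv.Perm P) :=
    fun f σ τ => rfl
  have hmemI : ∀ {l j i : P}, l ∈ I → j ∈ I → i ∈ I → Equiv.swap l j i ∈ I := by
    intro l j i hl hj hi
    by_cases h1 : i = l
    · subst h1; rw [Equiv.swap_apply_left]; exact hj
    · by_cases h2 : i = j
      · subst h2; rw [Equiv.swap_apply_right]; exact hl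
      · rw [Equiv.swap_apply_of_ne_of_ne h1 h2]; exact hi
  -- the extensions vanish
  have hext : ∀ j ∈ I \ K, ∀ w ∈ D, y w - ∑ i ∈ K, y (w ∘ Equiv.swap i j) = 0 := by
    intro j hj
    rw [Finset.mem_sdiff] at hj
    have hsub : insert j K ⊆ I := Finset.insert_subset hj.1 hK
    have hlt : (I \ insert j K).card < n := by
      rw [← hcard]
      apply Finset.card_lt_card
      rw [Finset.ssubset_iff_of_subset (Finset.sdiff_subset_sdiff le_rfl (Finset.subset_insert _ _))]
      exact ⟨j, Finset.mem_sdiff.2 hj, by simp⟩
    have hτ : ∀ l ∈ K, ∀ w ∈ D, ∀ i ∈ I, ((A.card : C) + s) * y (w ∘ Equiv.swap l j)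
        + ∑ m ∈ I.erase i, y ((w ∘ Equiv.swap i m) ∘ Equiv.swap l j) = 0 := by
      intro l hl w hw i hi
      have h1 := hy (w ∘ Equiv.swap l j) (hD w hw l (hK hl) j hj.1) (Equiv.swap l j i)
        (hmemI (hK hl) hj.1 hi)
      rw [← h1]
      congr 1
      refine Finset.sum_bij (fun m _ => Equiv.swap l j m) ?_ ?_ ?_ ?_
      · intro m hm
        rw [Finset.mem_erase] at hm ⊢
        exact ⟨fun h => hm.1 ((Equiv.swap l j).injective h), hmemI (hK hl) hj.1 hm.2⟩
      · intro m _ m' _ h
        exact (Equiv.swap l j).injective h
      · intro m hm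
        rw [Finset.mem_erase] at hm
        refine ⟨Equiv.swap l j m, ?_, by simp⟩
        rw [Finset.mem_erase]
        refine ⟨fun h => hm.1 ?_, hmemI (hK hl) hj.1 hm.2⟩
        rw [← h]; simp
      · intro m hm
        congr 1
        rw [hswap, hswap]
        congr 2
        have := Equiv.swap_apply_apply (Equiv.swap l j) (Equiv.swap l j i) (Equiv.swap l j m)
        rw [Equiv.swap_apply_self, Equiv.swap_apply_self] at this
        rw [this]
        simp [mul_assoc]
    refine ih _ hlt (insert j K) hsub (Finset.insert_nonempty _ _) rfl
      (fun w => y w - ∑ i ∈ K, y (w ∘ Equiv.swap i j)) ?_ ?_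
    · intro w hw i hi
      have h1 := hy w hw i hi
      have h2 := Finset.sum_congr (s₁ := K) rfl (fun l hl => hτ l hl w hw i hi)
      rw [Finset.sum_const_zero, Finset.sum_add_distrib, ← Finset.mul_sum, Finset.sum_comm] at h2
      rw [Finset.sum_sub_distrib]
      linear_combination h1 - h2
    · have c1 : ∀ w ∈ D, ∀ i ∈ K, ∀ i' ∈ K, i ≠ i' →
          y (w ∘ Equiv.swap i i') - ∑ l ∈ K, y ((w ∘ Equiv.swap i i') ∘ Equiv.swap l j)
          = - (y w - ∑ l ∈ K, y (w ∘ Equiv.swap l j)) := by
        intro w hw i hi i' hi' hne
        have hji : j ≠ i := fun h => hj.2 (h ▸ hi)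
        have hji' : j ≠ i' := fun h => hj.2 (h ▸ hi')
        have hmK : ∀ l ∈ K, Equiv.swap i i' l ∈ K := by
          intro l hl
          by_cases h1 : l = i
          · subst h1; rw [Equiv.swap_apply_left]; exact hi'
          · by_cases h2 : l = i'
            · subst h2; rw [Equiv.swap_apply_right]; exact hi
            · rw [Equiv.swap_apply_of_ne_of_ne h1 h2]; exact hl
        have e : ∑ l ∈ K, y ((w ∘ Equiv.swap i i') ∘ Equiv.swap l j)
            = ∑ l ∈ K, - y (w ∘ Equiv.swap l j) := by
          refine Finset.sum_bij (fun l _ => Equiv.swap i i' l) (fun l hl => hmK l hl) ?_ ?_ ?_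
          · intro m _ m' _ h
            exact (Equiv.swap i i').injective h
          · intro m hm
            exact ⟨Equiv.swap i i' m, hmK m hm, by simp⟩
          · intro l hl
            rw [← hanti (w ∘ Equiv.swap (Equiv.swap i i' l) j)
              (hD w hw _ (hK (hmK l hl)) _ hj.1) i hi i' hi' hne]
            congr 1
            rw [hswap, hswap]
            congr 2
            have := Equiv.swap_apply_apply (Equiv.swap i i') l j
            rw [Equiv.swap_apply_of_ne_of_ne hji hji'] at this
            rw [this]
            simp [mul_assoc]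
        rw [e, hanti w hw i hi i' hi' hne, Finset.sum_neg_distrib]
        ring
      have c2 : ∀ w ∈ D, ∀ i ∈ K,
          y (w ∘ Equiv.swap i j) - ∑ l ∈ K, y ((w ∘ Equiv.swap i j) ∘ Equiv.swap l j)
          = - (y w - ∑ l ∈ K, y (w ∘ Equiv.swap l j)) := by
        intro w hw i hi
        have hji : j ≠ i := fun h => hj.2 (h ▸ hi)
        rw [← Finset.add_sum_erase K _ hi, ← Finset.add_sum_erase K (fun l => y (w ∘ Equiv.swap l j))
          hi]
        have e0 : (w ∘ Equiv.swap i j) ∘ Equiv.swap i j = w := by
          rw [hswap, Equiv.swap_mul_self]; rfl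
        have e : ∑ l ∈ K.erase i, y ((w ∘ Equiv.swap i j) ∘ Equiv.swap l j)
            = ∑ l ∈ K.erase i, - y (w ∘ Equiv.swap l j) := by
          refine Finset.sum_congr rfl fun l hl => ?_
          rw [Finset.mem_erase] at hl
          rw [← hanti (w ∘ Equiv.swap l j) (hD w hw _ (hK hl.2) _ hj.1) i hi l hl.2 hl.1.symm]
          congr 1
          rw [hswap, hswap]
          congr 2
          have h1 := Equiv.swap_apply_apply (Equiv.swap l j) i j
          have hlj : j ≠ l := fun h => hj.2 (h ▸ hl.2)
          rw [Equiv.swap_apply_of_ne_of_ne hl.1.symm hji.symm, Equiv.swap_apply_right] at h1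
          rw [h1]
          simp [mul_assoc]
        rw [e0, e, Finset.sum_neg_distrib]
        ring
      intro w hw i hi i' hi' hne
      rw [Finset.mem_insert] at hi hi'
      rcases hi with rfl | hi
      · rcases hi' with rfl | hi'
        · exact absurd rfl hne
        · rw [Equiv.swap_comm]; exact c2 w hw i' hi'
      · rcases hi' with rfl | hi'
        · exact c2 w hw i hi
        · exact c1 w hw i hi i' hi' hne
  -- counting
  by_contra hyw
  have hinj : Set.InjOn w K := by
    intro i hi i' hi' h
    by_contra hne
    apply hyw
    have h1 := hanti w hw i hi i' hi' hne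
    have h2 : w ∘ Equiv.swap i i' = w := by
      funext l
      rw [comp_apply]
      by_cases h1 : l = i
      · subst h1; rw [Equiv.swap_apply_left, h]
      · by_cases h2 : l = i'
        · subst h2; rw [Equiv.swap_apply_right, h]
        · rw [Equiv.swap_apply_of_ne_of_ne h1 h2]
    rw [h2] at h1
    have h3 : (2 : C) * y w = 0 := by linear_combination h1
    simpa using h3
  have hle : K.card ≤ A.card :=
    Finset.card_le_card_of_injOn w (fun i hi => hA w hw i (hK hi)) hinj
  have hk1 : 1 ≤ K.card := Finset.card_pos.2 hKne
  have q1 : ∀ i ∈ K, ∑ m ∈ I.erase i, y (w ∘ Equiv.swap i m)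
      = - (((K.card : C) - 1) * y w) + ∑ m ∈ I \ K, y (w ∘ Equiv.swap i m) := by
    intro i hi
    have hu : I.erase i = K.erase i ∪ (I \ K) := by
      ext m
      simp only [Finset.mem_erase, Finset.mem_union, Finset.mem_sdiff]
      constructor
      · rintro ⟨h1, h2⟩
        by_cases h : m ∈ K
        · exact Or.inl ⟨h1, h⟩
        · exact Or.inr ⟨h2, h⟩
      · rintro (⟨h1, h2⟩ | ⟨h1, h2⟩)
        · exact ⟨h1, hK h2⟩
        · exact ⟨fun h => h2 (h ▸ hi), h1⟩
    have hd : Disjoint (K.erase i) (I \ K) := by
      rw [Finset.disjoint_left]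
      intro m h1 h2
      exact (Finset.mem_sdiff.1 h2).2 (Finset.mem_of_mem_erase h1)
    rw [hu, Finset.sum_union hd]
    congr 1
    rw [Finset.sum_congr rfl (g := fun _ => - y w) (fun m hm => by
      rw [Finset.mem_erase] at hm
      exact hanti w hw i hi m hm.2 hm.1.symm)]
    rw [Finset.sum_const, Finset.card_erase_of_mem hi, nsmul_eq_mul, Nat.cast_sub hk1]
    push_cast; ring
  have q2 := Finset.sum_congr (s₁ := K) rfl (fun i hi => hy w hw i (hK hi))
  rw [Finset.sum_const_zero, Finset.sum_add_distrib, Finset.sum_const, nsmul_eq_mul,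
    Finset.sum_congr rfl q1, Finset.sum_add_distrib, Finset.sum_const, nsmul_eq_mul] at q2
  have q3 := Finset.sum_congr (s₁ := I \ K) rfl (fun j hj => hext j hj w hw)
  rw [Finset.sum_const_zero, Finset.sum_sub_distrib, Finset.sum_const, nsmul_eq_mul,
    Finset.sum_comm] at q3
  have q4 : (((K.card * (A.card - K.card + 1 + s) + (I \ K).card : ℕ)) : C) * y w = 0 := by
    push_cast [Nat.cast_sub hle]
    linear_combination q2 + q3
  rcases mul_eq_zero.1 q4 with h | h
  · rw [Nat.cast_eq_zero] at h
    have : 0 < K.card * (A.card - K.card + 1 + s) := by positivity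
    omega
  · exact hyw h

open Classical in
/-- The pairing tensor of a list of pairs of positions with blocks. -/
noncomputable def pr : List (P × P × X) → (P → X) → C
  | [], _ => 1
  | (i, j, b) :: L, w => (if B.r (w i) b ∧ w j = B.bar (w i) then B.eps (w i) else 0) * pr L w

/-- `L` is a complete pairing of the positions in `S`. -/
def IsPair : List (P × P × X) → Finset P → Prop
  | [], S => S = ∅
  | (i, j, _) :: L, S => i ∈ S ∧ j ∈ S ∧ i ≠ j ∧ IsPair L ((S.erase i).erase j)

omit [Fintype P] in
theorem pr_dep : ∀ (L : List (P × P × X)) (S : Finset P), IsPair L S → Dep S (pr B L) := by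
  classical
  intro L
  induction L with
  | nil => intro S _ w w' _; rfl
  | cons a L ih =>
    obtain ⟨i, j, b⟩ := a
    rintro S ⟨hi, hj, hij, hL⟩ w w' h
    simp only [pr]
    rw [h i hi, h j hj, ih _ hL w w' (fun k hk => h k (Finset.mem_of_mem_erase
      (Finset.mem_of_mem_erase hk)))]

omit [Fintype P] in
theorem pr_K : ∀ (L : List (P × P × X)) (S : Finset P), IsPair L S → KRel B S (pr B L) := by
  classical
  intro L
  induction L with
  | nil => rintro S rfl a b _ w; simp
  | cons q L ih =>
    obtain ⟨i, j, b⟩ := q
    rintro S ⟨hi, hj, hij, hL⟩ a c hac w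
    have hSsum : ∀ f : P → C, ∑ k ∈ S, f k = f i + (f j + ∑ k ∈ (S.erase i).erase j, f k) := by
      intro f
      rw [← Finset.add_sum_erase S f hi, ← Finset.add_sum_erase (S.erase i) f (a := j)
        (by simp [hj, hij.symm])]
    have hdep := pr_dep B L _ hL
    have hui : ∀ e, pr B L (update w i e) = pr B L w := by
      intro e
      apply hdep
      intro k hk
      rw [Finset.mem_erase, Finset.mem_erase] at hk
      rw [update_of_ne hk.2.1]
    have huj : ∀ e, pr B L (update w j e) = pr B L w := by
      intro e
      apply hdep
      intro k hk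
      rw [Finset.mem_erase, Finset.mem_erase] at hk
      rw [update_of_ne hk.1]
    have hk0 : ∀ k ∈ (S.erase i).erase j, ∀ e, pr B ((i, j, b) :: L) (update w k e)
        = (if B.r (w i) b ∧ w j = B.bar (w i) then B.eps (w i) else 0) * pr B L (update w k e) := by
      intro k hk e
      rw [Finset.mem_erase, Finset.mem_erase] at hk
      simp only [pr]
      rw [update_of_ne (Ne.symm hk.2.1), update_of_ne (Ne.symm hk.1)]
    have hL' : ∀ (p : X) (e : X), (∑ k ∈ (S.erase i).erase j, if w k = p then
        pr B ((i, j, b) :: L) (update w k e) else 0)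
        = (if B.r (w i) b ∧ w j = B.bar (w i) then B.eps (w i) else 0) *
          ∑ k ∈ (S.erase i).erase j, if w k = p then pr B L (update w k e) else 0 := by
      intro p e
      rw [Finset.mul_sum]
      refine Finset.sum_congr rfl fun k hk => ?_
      split_ifs
      · rw [hk0 k hk]; simp_all
      all_goals simp_all
    have hI := ih _ hL a c hac w
    rw [hSsum, hSsum, hL', hL', hI]
    have hA : ∀ e, pr B ((i, j, b) :: L) (update w i e)
        = (if B.r e b ∧ w j = B.bar e then B.eps e else 0) * pr B L w := by
      intro e
      simp only [pr]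
      rw [update_self, update_of_ne hij.symm, hui]
    have hB : ∀ e, pr B ((i, j, b) :: L) (update w j e)
        = (if B.r (w i) b ∧ e = B.bar (w i) then B.eps (w i) else 0) * pr B L w := by
      intro e
      simp only [pr]
      rw [update_self, update_of_ne hij, huj]
    rw [hA, hB, hA, hB]
    have bar_inj : ∀ {y z : X}, B.bar y = B.bar z → y = z := by
      intro y z h
      rw [← B.bar_bar y, h, B.bar_bar]
    have hr1 : B.r a b ↔ B.r c b := ⟨fun h => B.trans _ _ _ (B.symm _ _ hac) h,
      fun h => B.trans _ _ _ hac h⟩
    have hr2 : B.r (B.bar a) b ↔ B.r (B.bar c) b :=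
      ⟨fun h => B.trans _ _ _ (B.symm _ _ (B.r_bar _ _ hac)) h,
        fun h => B.trans _ _ _ (B.r_bar _ _ hac) h⟩
    have E1 : (if w i = a then (if B.r c b ∧ w j = B.bar c then B.eps c else 0) * pr B L w else 0)
        = B.eps a * B.eps c * (if w j = B.bar c then
          (if B.r (w i) b ∧ B.bar a = B.bar (w i) then B.eps (w i) else 0) * pr B L w else 0) := by
      by_cases h1 : w i = a
      · by_cases h2 : w j = B.bar c
        · by_cases h3 : B.r a b
          · rw [if_pos h1, if_pos ⟨hr1.1 h3, h2⟩, if_pos h2, if_pos ⟨h1 ▸ h3, by rw [h1]⟩, h1]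
            linear_combination (-1 : C) * B.eps c * pr B L w * B.eps_sq a
          · rw [if_pos h1, if_neg (fun h => h3 (hr1.2 h.1)), if_pos h2,
              if_neg (fun h => h3 (h1 ▸ h.1))]
            ring
        · rw [if_pos h1, if_neg (fun h => h2 h.2), if_neg h2]; ring
      · rw [if_neg h1]
        by_cases h2 : w j = B.bar c
        · rw [if_pos h2, if_neg (fun h => h1 (bar_inj h.2).symm)]; ring
        · rw [if_neg h2]; ring
    have E2 : (if w j = a then (if B.r (w i) b ∧ c = B.bar (w i) then B.eps (w i) else 0)
        * pr B L w else 0)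
        = B.eps a * B.eps c * (if w i = B.bar c then
          (if B.r (B.bar a) b ∧ w j = B.bar (B.bar a) then B.eps (B.bar a) else 0) * pr B L w
          else 0) := by
      by_cases h1 : w j = a
      · by_cases h2 : w i = B.bar c
        · by_cases h3 : B.r (B.bar c) b
          · rw [if_pos h1, if_pos ⟨h2 ▸ h3, by rw [h2, B.bar_bar]⟩, if_pos h2,
              if_pos ⟨hr2.2 h3, by rw [h1, B.bar_bar]⟩, h2, B.eps_bar, B.eps_bar]
            linear_combination B.eps c * pr B L w * B.eps_sq a
          · rw [if_pos h1, if_neg (fun h => h3 (h2 ▸ h.1)), if_pos h2,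
              if_neg (fun h => h3 (hr2.1 h.1))]
            ring
        · rw [if_pos h1, if_neg (fun h => h2 (by rw [h.2, B.bar_bar])), if_neg h2]; ring
      · rw [if_neg h1]
        by_cases h2 : w i = B.bar c
        · rw [if_pos h2, if_neg (fun h => h1 (by rw [h.2, B.bar_bar]))]; ring
        · rw [if_neg h2]; ring
    rw [E1, E2]
    ring

/-- Averaging over one letter. -/
theorem sum_update (i : P) (h : (P → X) → C) :
    ∑ w, ∑ a, h (update w i a) = (Fintype.card X : C) * ∑ w, h w := by
  classical
  let e : ((P → X) × X) ≃ ((P → X) × X) :=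
    { toFun := fun p => (update p.1 i p.2, p.1 i)
      invFun := fun p => (update p.1 i p.2, p.1 i)
      left_inv := by
        rintro ⟨w, a⟩
        simp
      right_inv := by
        rintro ⟨w, a⟩
        simp }
  rw [← Fintype.sum_prod_type', Finset.mul_sum]
  have h1 : ∑ p : (P → X) × X, h (update p.1 i p.2) = ∑ p : (P → X) × X, h p.1 :=
    Equiv.sum_comp e (fun p => h p.1)
  rw [h1, Fintype.sum_prod_type]
  refine Finset.sum_congr rfl fun w _ => ?_
  change ∑ _y : X, h w = _
  rw [Finset.sum_const, nsmul_eq_mul, Finset.card_univ]

/-- An invariant tensor orthogonal to all pairing tensors vanishes. -/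
theorem fft_orth [CharZero C] : ∀ (n : ℕ) (S : Finset P), S.card = n → ∀ x : (P → X) → C,
    Dep S x → KRel B S x → (∀ L, IsPair L S → ∑ w, x w * pr B L w = 0) → x = 0 := by
  classical
  intro n
  induction n using Nat.strong_induction_on with
  | _ n ih =>
  intro S hS x hd hK ho
  rcases Finset.eq_empty_or_nonempty S with rfl | hne
  · funext w0
    have h1 := ho [] rfl
    have h2 : ∀ w, x w * pr B ([] : List (P × P × X)) w = x w0 := by
      intro w
      simp only [pr, mul_one]
      exact hd _ _ (by simp)
    rw [Finset.sum_congr rfl (fun w _ => h2 w), Finset.sum_const, nsmul_eq_mul] at h1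
    rcases mul_eq_zero.1 h1 with h | h
    · rw [Nat.cast_eq_zero, Finset.card_eq_zero] at h
      exact absurd (Finset.mem_univ w0) (by rw [h]; simp)
    · exact h
  · -- all contractions vanish
    have hcon : ∀ i ∈ S, ∀ j ∈ S, j ≠ i → ∀ b w, con B i j b x w = 0 := by
      intro i hi j hj hji b w
      have hij : i ≠ j := hji.symm
      have hlt : ((S.erase i).erase j).card < n := by
        rw [← hS]
        apply Finset.card_lt_card
        refine (Finset.erase_subset _ _).trans_ssubset (Finset.erase_ssubset hi)
      have := ih _ hlt _ rfl (con B i j b x) (con_dep B hd i j b) (con_K B hK hi hj hij b) ?_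
      · rw [this]; rfl
      · intro L hL
        have h1 := ho ((i, j, b) :: L) ⟨hi, hj, hij, hL⟩
        have hdep := pr_dep B L _ hL
        set g : (P → X) → C := fun w => x w * pr B ((i, j, b) :: L) w with hg
        have h2 : ∀ w, con B i j b x w * pr B L w
            = ∑ a, ∑ a', g (update (update w i a) j a') := by
          intro w
          unfold con
          rw [Finset.sum_mul]
          refine Finset.sum_congr rfl fun a _ => ?_
          rw [Finset.sum_eq_single (B.bar a)]
          · simp only [hg, pr]
            have e1 : pr B L (update (update w i a) j (B.bar a)) = pr B L w := by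
              apply hdep
              intro k hk
              rw [Finset.mem_erase, Finset.mem_erase] at hk
              rw [update_of_ne hk.1, update_of_ne hk.2.1]
            rw [e1, update_self, update_of_ne hij, update_self]
            by_cases h : B.r a b
            · rw [if_pos h, if_pos ⟨h, rfl⟩]; ring
            · rw [if_neg h, if_neg (fun h' => h h'.1)]; ring
          · intro a' _ ha'
            simp only [hg, pr]
            rw [update_self, update_of_ne hij, update_self, if_neg (fun h => ha' h.2)]
            ring
          · simp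
        rw [Finset.sum_congr rfl (fun w _ => h2 w)]
        have h3 : ∑ w, ∑ a, ∑ a', g (update (update w i a) j a')
            = (Fintype.card X : C) * ((Fintype.card X : C) * ∑ w, g w) := by
          rw [sum_update i (fun w => ∑ a', g (update w j a'))]
          rw [sum_update j g]
        rw [h3, h1]; ring
    funext w0
    change x w0 = 0
    obtain ⟨i0, hi0⟩ := hne
    set b := w0 i0 with hb
    let I : Finset P := S.filter fun j => B.r (w0 j) b
    let D : Set (P → X) := {w | ∀ j ∈ S, (B.r (w j) b ↔ j ∈ I)}
    let A : Finset X := univ.filter fun a => B.r a b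
    let s : ℕ := if B.r (B.bar b) b then 1 else 0
    have hIS : ∀ {i}, i ∈ I → i ∈ S := fun h => (Finset.mem_filter.1 h).1
    have hw0 : w0 ∈ D := by
      intro j hj
      simp [I, hj]
    have hi0I : i0 ∈ I := Finset.mem_filter.2 ⟨hi0, by rw [← hb]; exact B.refl _⟩
    refine anti I D ?_ A ?_ s _ {i0} (by simpa using hi0I) (Finset.singleton_nonempty _) rfl x
      ?_ ?_ w0 hw0
    · intro w hw i hi j hj k hk
      rw [comp_apply]
      by_cases h1 : k = i
      · subst h1
        rw [Equiv.swap_apply_left]
        exact ⟨fun _ => hi, fun _ => (hw j (hIS hj)).2 hj⟩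
      · by_cases h2 : k = j
        · subst h2
          rw [Equiv.swap_apply_right]
          exact ⟨fun _ => hj, fun _ => (hw i (hIS hi)).2 hi⟩
        · rw [Equiv.swap_apply_of_ne_of_ne h1 h2]; exact hw k hk
    · intro w hw i hi
      exact Finset.mem_filter.2 ⟨Finset.mem_univ _, (hw i (hIS hi)).2 hi⟩
    · intro w hw i hi
      have hr : B.r (w i) b := (hw i (hIS hi)).2 hi
      have h1 := jm B hK (hIS hi) (fun j hj hji b w => hcon i (hIS hi) j hj hji b w) w
      have e1 : (univ.filter fun a => B.r a (w i)) = A := by
        ext a
        simp only [A, Finset.mem_filter, Finset.mem_univ, true_and]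
        exact ⟨fun h => B.trans _ _ _ h hr, fun h => B.trans _ _ _ h (B.symm _ _ hr)⟩
      have e2 : (if B.r (B.bar (w i)) (w i) then (1 : C) else 0) = (s : C) := by
        have : B.r (B.bar (w i)) (w i) ↔ B.r (B.bar b) b :=
          ⟨fun h => B.trans _ _ _ (B.r_bar _ _ (B.symm _ _ hr)) (B.trans _ _ _ h hr),
            fun h => B.trans _ _ _ (B.r_bar _ _ hr) (B.trans _ _ _ h (B.symm _ _ hr))⟩
        simp only [s]
        by_cases h : B.r (B.bar b) b
        · rw [if_pos h, if_pos (this.2 h)]; simp
        · rw [if_neg h, if_neg (fun h' => h (this.1 h'))]; simp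
      rw [e1, e2] at h1
      rw [← h1]
      congr 1
      have hsub : I.erase i ⊆ S.erase i := Finset.erase_subset_erase _ (Finset.filter_subset _ _)
      rw [← Finset.sum_subset hsub]
      · refine Finset.sum_congr rfl fun j hj => ?_
        rw [Finset.mem_erase] at hj
        rw [if_pos (B.trans _ _ _ ((hw j (hIS hj.2)).2 hj.2) (B.symm _ _ hr))]
      · intro j hj hj'
        rw [Finset.mem_erase] at hj
        rw [if_neg]
        intro h
        exact hj' (Finset.mem_erase.2 ⟨hj.1, (hw j hj.2).1 (B.trans _ _ _ h hr)⟩)
    · intro w _ i hi j hj hne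
      rw [Finset.mem_singleton] at hi hj
      exact absurd (hi.trans hj.symm) hne

/-- **First fundamental theorem.** Infinitesimally invariant tensors are spanned by pairing
tensors. -/
theorem fft [CharZero C] (x : (P → X) → C) (hK : KRel B univ x) :
    x ∈ Submodule.span C {y : (P → X) → C | ∃ L, IsPair L (univ : Finset P) ∧ y = pr B L} := by
  classical
  let Inv : Submodule C ((P → X) → C) :=
    { carrier := {y | KRel B univ y}
      add_mem' := by
        intro y z hy hz a b hab w
        have h1 := hy a b hab w
        have h2 := hz a b hab w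
        have e : ∀ (p q : X), (∑ i, if w i = p then (y + z) (update w i q) else 0)
            = (∑ i, if w i = p then y (update w i q) else 0)
              + ∑ i, if w i = p then z (update w i q) else 0 := by
          intro p q
          rw [← Finset.sum_add_distrib]
          refine Finset.sum_congr rfl fun i _ => ?_
          split_ifs <;> simp
        rw [e, e, h1, h2]; ring
      zero_mem' := by
        intro a b _ w
        simp
      smul_mem' := by
        intro c y hy a b hab w
        have h1 := hy a b hab w
        have e : ∀ (p q : X), (∑ i, if w i = p then (c • y) (update w i q) else 0)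
            = c * (∑ i, if w i = p then y (update w i q) else 0) := by
          intro p q
          rw [Finset.mul_sum]
          refine Finset.sum_congr rfl fun i _ => ?_
          split_ifs <;> simp
        rw [e, e, h1]; ring }
  set Pr := Submodule.span C {y : (P → X) → C | ∃ L, IsPair L (univ : Finset P) ∧ y = pr B L}
    with hPr
  have hle : Pr ≤ Inv := by
    rw [hPr, Submodule.span_le]
    rintro _ ⟨L, hL, rfl⟩
    exact pr_K B L _ hL
  have hxI : x ∈ Inv := hK
  let φ : Inv →ₗ[C] Module.Dual C Pr :=
    { toFun := fun y =>
        { toFun := fun z => ∑ w, y.1 w * z.1 w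
          map_add' := by
            intro z z'
            rw [← Finset.sum_add_distrib]
            refine Finset.sum_congr rfl fun w _ => ?_
            simp [mul_add]
          map_smul' := by
            intro c z
            simp only [Submodule.coe_smul, Pi.smul_apply, smul_eq_mul, RingHom.id_apply,
              Finset.mul_sum]
            refine Finset.sum_congr rfl fun w _ => ?_
            ring }
      map_add' := by
        intro y y'
        ext z
        simp only [LinearMap.coe_mk, AddHom.coe_mk, LinearMap.add_apply]
        rw [← Finset.sum_add_distrib]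
        refine Finset.sum_congr rfl fun w _ => ?_
        simp [add_mul]
      map_smul' := by
        intro c y
        ext z
        simp only [LinearMap.coe_mk, AddHom.coe_mk, LinearMap.smul_apply, Submodule.coe_smul,
          Pi.smul_apply, smul_eq_mul, RingHom.id_apply, Finset.mul_sum]
        refine Finset.sum_congr rfl fun w _ => ?_
        ring }
  have hφ : Function.Injective φ := by
    rw [← LinearMap.ker_eq_bot, LinearMap.ker_eq_bot']
    intro y hy
    apply Subtype.ext
    refine fft_orth B _ univ rfl y.1 (fun w w' h => by
      rw [show w = w' from funext fun i => h i (Finset.mem_univ _)]) y.2 ?_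
    intro L hL
    have := congrArg (fun f => f ⟨pr B L, Submodule.subset_span ⟨L, hL, rfl⟩⟩) hy
    simpa [φ] using this
  have hfin : Module.finrank C Inv ≤ Module.finrank C Pr := by
    have h1 := LinearMap.finrank_le_finrank_of_injective hφ
    rwa [Subspace.dual_finrank_eq] at h1
  have heq := Submodule.eq_of_le_of_finrank_le hle hfin
  rw [heq]
  exact hxI

end Words

end Pool.Agent.H25.TN
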