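import Mathlib
import Pool.Agent.H25.TN.Words

/-!
The Lie algebra attached to a semisimple monodromy group containing one neat element: it is a
product of symplectic and general linear Lie algebras, in coordinates.
-/

namespace Pool.Agent.H25.TN

open Finset Function Matrix

set_option linter.unusedSectionVars false

section Act

variable {X C : Type*} [Fintype X] [DecidableEq X] [Field C] {P : Type*} [Fintype P]
  [DecidableEq P]

/-- Action of a matrix on tensors, given by their coordinates. -/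
noncomputable def act (g : Matrix X X C) (t : (P → X) → C) (w : P → X) : C :=
  ∑ w' : P → X, (∏ i, g (w i) (w' i)) * t w'

/-- Derivation attached to a matrix on tensors. -/
noncomputable def der (M : Matrix X X C) (t : (P → X) → C) (w : P → X) : C :=
  ∑ i, ∑ c, M (w i) c * t (update w i c)

theorem prod_update_left (g : Matrix X X C) (w w' : P → X) (i : P) (c : X) :
    ∏ j, g (update w i c j) (w' j) = g c (w' i) * ∏ j ∈ univ.erase i, g (w j) (w' j) := by
  rw [← Finset.mul_prod_erase univ _ (Finset.mem_univ i), update_self]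
  congr 1
  refine Finset.prod_congr rfl fun j hj => ?_
  rw [update_of_ne (Finset.ne_of_mem_erase hj)]

theorem prod_update_right (g : Matrix X X C) (w w' : P → X) (i : P) (c : X) :
    ∏ j, g (w j) (update w' i c j) = g (w i) c * ∏ j ∈ univ.erase i, g (w j) (w' j) := by
  rw [← Finset.mul_prod_erase univ _ (Finset.mem_univ i), update_self]
  congr 1
  refine Finset.prod_congr rfl fun j hj => ?_
  rw [update_of_ne (Finset.ne_of_mem_erase hj)]

theorem der_act {g N N' : Matrix X X C} (h : g * N = N' * g) (t : (P → X) → C) :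
    der N' (act g t) = act g (der N t) := by
  funext w
  simp only [der, act]
  have L : ∀ i : P, ∑ c, N' (w i) c * ∑ w' : P → X, (∏ j, g (update w i c j) (w' j)) * t w'
      = ∑ w' : P → X, (N' * g) (w i) (w' i) * (∏ j ∈ univ.erase i, g (w j) (w' j)) * t w' := by
    intro i
    simp only [Finset.mul_sum]
    rw [Finset.sum_comm]
    refine Finset.sum_congr rfl fun w' _ => ?_
    rw [Matrix.mul_apply, Finset.sum_mul, Finset.sum_mul]
    refine Finset.sum_congr rfl fun c _ => ?_
    rw [prod_update_left]; ring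
  have R : ∀ i : P, ∑ w' : P → X, ∑ c, (∏ j, g (w j) (w' j)) * (N (w' i) c * t (update w' i c))
      = ∑ w' : P → X, (g * N) (w i) (w' i) * (∏ j ∈ univ.erase i, g (w j) (w' j)) * t w' := by
    intro i
    let e : ((P → X) × X) ≃ ((P → X) × X) :=
      { toFun := fun p => (update p.1 i p.2, p.1 i)
        invFun := fun p => (update p.1 i p.2, p.1 i)
        left_inv := by rintro ⟨w, a⟩; simp
        right_inv := by rintro ⟨w, a⟩; simp }
    rw [← Fintype.sum_prod_type' (f := fun (w' : P → X) (c : X) =>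
      (∏ j, g (w j) (w' j)) * (N (w' i) c * t (update w' i c)))]
    have h1 := Equiv.sum_comp e (fun p : (P → X) × X =>
      (∏ j, g (w j) (update p.1 i p.2 j)) * (N p.2 (p.1 i) * t p.1))
    have h2 : ∀ p : (P → X) × X, (∏ j, g (w j) (update (e p).1 i (e p).2 j)) *
        (N (e p).2 ((e p).1 i) * t (e p).1)
        = (∏ j, g (w j) (p.1 j)) * (N (p.1 i) p.2 * t (update p.1 i p.2)) := by
      rintro ⟨w', c⟩
      simp [e]
    rw [Finset.sum_congr rfl (fun p _ => h2 p)] at h1
    rw [h1, Fintype.sum_prod_type]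
    refine Finset.sum_congr rfl fun w' _ => ?_
    rw [Matrix.mul_apply, Finset.sum_mul, Finset.sum_mul]
    refine Finset.sum_congr rfl fun c _ => ?_
    simp only []
    rw [prod_update_right]; ring
  rw [Finset.sum_congr rfl (fun i _ => L i)]
  have R2 : ∑ w' : P → X, (∏ i, g (w i) (w' i)) * ∑ i, ∑ c, N (w' i) c * t (update w' i c)
      = ∑ i, ∑ w' : P → X, ∑ c, (∏ j, g (w j) (w' j)) * (N (w' i) c * t (update w' i c)) := by
    simp only [Finset.mul_sum]
    rw [Finset.sum_comm]
  rw [R2, Finset.sum_congr rfl (fun i _ => R i), h]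

theorem der_der (M N : Matrix X X C) (t : (P → X) → C) (w : P → X) :
    der M (der N t) w = der (M * N) t w + ∑ i, ∑ j ∈ univ.erase i, ∑ c, ∑ d,
      M (w i) c * N (w j) d * t (update (update w i c) j d) := by
  simp only [der]
  rw [← Finset.sum_add_distrib]
  refine Finset.sum_congr rfl fun i _ => ?_
  have h1 : ∀ c, M (w i) c * ∑ j, ∑ d, N (update w i c j) d * t (update (update w i c) j d)
      = M (w i) c * (∑ d, N c d * t (update w i d))
        + ∑ j ∈ univ.erase i, ∑ d, M (w i) c * N (w j) d * t (update (update w i c) j d) := by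
    intro c
    rw [← Finset.add_sum_erase univ _ (Finset.mem_univ i), update_self, mul_add]
    congr 1
    · simp only [update_idem]
    · rw [Finset.mul_sum]
      refine Finset.sum_congr rfl fun j hj => ?_
      rw [Finset.mul_sum, update_of_ne (Finset.ne_of_mem_erase hj)]
      refine Finset.sum_congr rfl fun d _ => ?_
      ring
  rw [Finset.sum_congr rfl (fun c _ => h1 c), Finset.sum_add_distrib]
  congr 1
  · simp only [Finset.mul_sum]
    rw [Finset.sum_comm]
    refine Finset.sum_congr rfl fun d _ => ?_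
    rw [Matrix.mul_apply, Finset.sum_mul]
    refine Finset.sum_congr rfl fun c _ => ?_
    ring
  · rw [Finset.sum_comm]

theorem der_add (M N : Matrix X X C) (t : (P → X) → C) : der (M + N) t = der M t + der N t := by
  funext w
  simp only [der, Pi.add_apply, Matrix.add_apply, add_mul, Finset.sum_add_distrib]

theorem der_smul (c : C) (M : Matrix X X C) (t : (P → X) → C) : der (c • M) t = c • der M t := by
  funext w
  simp only [der, Pi.smul_apply, Matrix.smul_apply, smul_eq_mul, Finset.mul_sum, mul_assoc]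

theorem der_smul' (c : C) (M : Matrix X X C) (t : (P → X) → C) : der M (c • t) = c • der M t := by
  funext w
  simp only [der, Pi.smul_apply, smul_eq_mul, Finset.mul_sum]
  refine Finset.sum_congr rfl fun i _ => Finset.sum_congr rfl fun c _ => ?_
  ring

theorem der_zero (M : Matrix X X C) : der M (0 : (P → X) → C) = 0 := by
  funext w
  simp [der]

theorem act_zero (M : Matrix X X C) : act M (0 : (P → X) → C) = 0 := by
  funext w
  simp [act]

theorem der_bracket {M N : Matrix X X C} {t : (P → X) → C} (hM : der M t = 0)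
    (hN : der N t = 0) : der (M * N - N * M) t = 0 := by
  have e : M * N - N * M = M * N + (-1 : C) • (N * M) := by simp [sub_eq_add_neg]
  rw [e, der_add, der_smul]
  funext w
  have h1 := der_der M N t w
  have h2 := der_der N M t w
  rw [hN, der_zero] at h1
  rw [hM, der_zero] at h2
  have h3 : ∑ i, ∑ j ∈ univ.erase i, ∑ c, ∑ d,
      M (w i) c * N (w j) d * t (update (update w i c) j d)
      = ∑ i, ∑ j ∈ univ.erase i, ∑ c, ∑ d,
      N (w i) c * M (w j) d * t (update (update w i c) j d) := by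
    have f1 : ∀ F : P → P → C, ∑ i, ∑ j ∈ univ.erase i, F i j
        = ∑ i, ∑ j, if i = j then 0 else F i j := by
      intro F
      refine Finset.sum_congr rfl fun i _ => ?_
      rw [← Finset.add_sum_erase univ (fun j => if i = j then 0 else F i j) (Finset.mem_univ i)]
      rw [if_pos rfl, zero_add]
      refine Finset.sum_congr rfl fun j hj => ?_
      rw [if_neg (Finset.ne_of_mem_erase hj).symm]
    rw [f1, f1, Finset.sum_comm]
    refine Finset.sum_congr rfl fun j _ => Finset.sum_congr rfl fun i _ => ?_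
    by_cases hij : i = j
    · rw [if_pos hij, if_pos hij.symm]
    · rw [if_neg hij, if_neg (Ne.symm hij), Finset.sum_comm]
      refine Finset.sum_congr rfl fun d _ => Finset.sum_congr rfl fun c _ => ?_
      rw [upc hij c d w]; ring
  simp only [Pi.add_apply, Pi.smul_apply, smul_eq_mul, Pi.zero_apply] at h1 h2 ⊢
  linear_combination h2 - h1 - h3

end Act

/-- Projection onto the level sets of eigenvalues preserves stable subspaces. -/
theorem proj_mem {C E : Type*} [Field C] [AddCommGroup E] [Module C E] (L : E →ₗ[C] E)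
    (U : Submodule C E) (hU : ∀ v ∈ U, L v ∈ U) {ι : Type*} [Fintype ι] (v : ι → E) (c : ι → C)
    (hv : ∀ i, L (v i) = c i • v i) (hs : ∑ i, v i ∈ U) (c0 : C) [DecidableEq C] :
    (∑ i, if c i = c0 then v i else 0) ∈ U := by
  have key : ∀ T : Finset C, c0 ∉ T →
      ∑ i, (∏ s ∈ T, (c i - s) / (c0 - s)) • v i ∈ U := by
    intro T
    induction T using Finset.induction_on with
    | empty => intro _; simpa using hs
    | insert s T hsT ih =>
      intro hc
      rw [Finset.mem_insert, not_or] at hc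
      have h1 := ih hc.2
      have h2 := U.smul_mem ((c0 - s)⁻¹) (U.sub_mem (hU _ h1) (U.smul_mem s h1))
      convert h2 using 1
      rw [map_sum, Finset.smul_sum, ← Finset.sum_sub_distrib, Finset.smul_sum]
      refine Finset.sum_congr rfl fun i _ => ?_
      rw [map_smul, hv, Finset.prod_insert hsT, smul_smul, smul_smul, ← sub_smul, smul_smul]
      congr 1
      field_simp
  have h := key ((univ.image c).erase c0) (by simp)
  convert h using 1
  refine Finset.sum_congr rfl fun i _ => ?_
  split_ifs with hi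
  · rw [Finset.prod_eq_one, one_smul]
    intro s hs
    rw [hi]
    have : c0 - s ≠ 0 := fun h => (Finset.mem_erase.1 hs).1 (sub_eq_zero.1 h).symm
    exact div_self this
  · rw [Finset.prod_eq_zero (i := c i), zero_smul]
    · exact Finset.mem_erase.2 ⟨hi, Finset.mem_image_of_mem _ (Finset.mem_univ _)⟩
    · rw [sub_self, zero_div]

/-- The matrix of the symplectic form. -/
def jmat {X C : Type*} [DecidableEq X] [Field C] (bar : X → X) (eps : X → C) : Matrix X X C :=
  Matrix.of fun a b => if b = bar a then eps a else 0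

/-- A semisimple group of symplectic similitudes containing a neat diagonal element with
distinct eigenvalues. -/
structure Mono (Γ X C : Type*) [Group Γ] [Fintype X] [DecidableEq X] [Field C] where
  bar : X → X
  bar_bar : ∀ a, bar (bar a) = a
  eps : X → C
  eps_sq : ∀ a, eps a * eps a = 1
  eps_bar : ∀ a, eps (bar a) = - eps a
  ρ : Γ →* Matrix X X C
  χ : Γ → C
  χ_ne : ∀ γ, χ γ ≠ 0
  sim : ∀ γ, ρ γ * jmat bar eps * (ρ γ)ᵀ = χ γ • jmat bar eps
  F : Γ
  ev : X → C
  ev_inj : Function.Injective ev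
  hF : ρ F = Matrix.diagonal ev
  Q : C
  Q_ne : Q ≠ 0
  ev_bar : ∀ a, ev a * ev (bar a) = Q
  neat : ∀ (k : ℕ) (w : Fin k → X), (∏ i, ev (w i)) ^ 2 = Q ^ k →
    ∀ a, (∑ i, if w i = a then 1 else 0) = (∑ i, if w i = bar a then 1 else 0 : ℕ)
  ss : ∀ U : Submodule C (X → C), (∀ γ, ∀ v ∈ U, ρ γ *ᵥ v ∈ U) →
    ∃ W : Submodule C (X → C), (∀ γ, ∀ v ∈ W, ρ γ *ᵥ v ∈ W) ∧ IsCompl U W

namespace Mono

variable {Γ X C : Type*} [Group Γ] [Fintype X] [DecidableEq X] [Field C] [CharZero C]
  (m : Mono Γ X C)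

/-- The matrix of the form. -/
abbrev J : Matrix X X C := jmat m.bar m.eps

/-- Tate tensors: scaled by the group, with balanced support. -/
def Tate (k : ℕ) (t : (Fin k → X) → C) : Prop :=
  (∀ γ, ∃ c : C, c ≠ 0 ∧ act (m.ρ γ) t = c • t) ∧
    ∀ w, t w ≠ 0 → (∏ i, m.ev (w i)) ^ 2 = m.Q ^ k

/-- The Lie algebra of skew matrices killing all Tate tensors and preserving all stable
subspaces. -/
def g : Submodule C (Matrix X X C) where
  carrier := {M | M * m.J + m.J * Mᵀ = 0 ∧ (∀ k t, m.Tate k t → der M t = 0) ∧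
    ∀ U : Submodule C (X → C), (∀ γ, ∀ v ∈ U, m.ρ γ *ᵥ v ∈ U) → ∀ v ∈ U, M *ᵥ v ∈ U}
  add_mem' := by
    rintro M N ⟨h1, h2, h3⟩ ⟨k1, k2, k3⟩
    refine ⟨?_, ?_, ?_⟩
    · rw [Matrix.transpose_add, add_mul, mul_add]
      have : M * m.J + N * m.J + (m.J * Mᵀ + m.J * Nᵀ)
          = (M * m.J + m.J * Mᵀ) + (N * m.J + m.J * Nᵀ) := by abel
      rw [this, h1, k1, add_zero]
    · intro k t ht
      rw [der_add, h2 k t ht, k2 k t ht, add_zero]
    · intro U hU v hv
      rw [Matrix.add_mulVec]
      exact U.add_mem (h3 U hU v hv) (k3 U hU v hv)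
  zero_mem' := by
    refine ⟨by simp, ?_, ?_⟩
    · intro k t _
      funext w
      simp [der]
    · intro U _ v _
      simp
  smul_mem' := by
    rintro c M ⟨h1, h2, h3⟩
    refine ⟨?_, ?_, ?_⟩
    · rw [Matrix.transpose_smul, smul_mul_assoc, mul_smul_comm, ← smul_add, h1, smul_zero]
    · intro k t ht
      rw [der_smul, h2 k t ht, smul_zero]
    · intro U hU v hv
      rw [Matrix.smul_mulVec]
      exact U.smul_mem c (h3 U hU v hv)

theorem mem_g {M : Matrix X X C} : M ∈ m.g ↔ M * m.J + m.J * Mᵀ = 0 ∧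
    (∀ k t, m.Tate k t → der M t = 0) ∧
    ∀ U : Submodule C (X → C), (∀ γ, ∀ v ∈ U, m.ρ γ *ᵥ v ∈ U) → ∀ v ∈ U, M *ᵥ v ∈ U := Iff.rfl

theorem rinv (γ : Γ) : m.ρ γ * m.ρ γ⁻¹ = 1 := by rw [← map_mul, mul_inv_cancel, map_one]

theorem rinv' (γ : Γ) : m.ρ γ⁻¹ * m.ρ γ = 1 := by rw [← map_mul, inv_mul_cancel, map_one]

theorem conj_mem {M : Matrix X X C} (hM : M ∈ m.g) (γ : Γ) :
    m.ρ γ * M * m.ρ γ⁻¹ ∈ m.g := by
  obtain ⟨h1, h2, h3⟩ := hM
  refine ⟨?_, ?_, ?_⟩
  · set R := m.ρ γ with hR
    set R' := m.ρ γ⁻¹ with hR'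
    have hs : R * m.J * Rᵀ = m.χ γ • m.J := m.sim γ
    have e1 : R' * m.J = (m.χ γ)⁻¹ • (m.J * Rᵀ) := by
      have : R' * (R * m.J * Rᵀ) = m.J * Rᵀ := by
        rw [Matrix.mul_assoc, ← Matrix.mul_assoc, rinv', Matrix.one_mul]
      rw [← this, hs, mul_smul_comm, smul_smul, inv_mul_cancel₀ (m.χ_ne γ), one_smul]
    have e2 : m.J * R'ᵀ = (m.χ γ)⁻¹ • (R * m.J) := by
      have hT : Rᵀ * R'ᵀ = 1 := by rw [← Matrix.transpose_mul, rinv', Matrix.transpose_one]
      have : (R * m.J * Rᵀ) * R'ᵀ = R * m.J := by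
        rw [Matrix.mul_assoc, hT, Matrix.mul_one]
      rw [← this, hs, smul_mul_assoc, smul_smul, inv_mul_cancel₀ (m.χ_ne γ), one_smul]
    have e3 : (R * M * R')ᵀ = R'ᵀ * (Mᵀ * Rᵀ) := by
      rw [Matrix.transpose_mul, Matrix.transpose_mul]
    rw [e3, ← Matrix.mul_assoc m.J, e2, Matrix.mul_assoc (R * M), e1, mul_smul_comm,
      smul_mul_assoc, ← smul_add]
    have : R * M * (m.J * Rᵀ) + R * m.J * (Mᵀ * Rᵀ) = R * (M * m.J + m.J * Mᵀ) * Rᵀ := by
      rw [Matrix.mul_add, Matrix.add_mul]
      simp only [Matrix.mul_assoc]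
    rw [this, h1]
    simp
  · intro k t ht
    obtain ⟨c, hc, hct⟩ := ht.1 γ
    have h4 := der_act (N := M) (N' := m.ρ γ * M * m.ρ γ⁻¹) (g := m.ρ γ)
      (by rw [Matrix.mul_assoc, rinv', Matrix.mul_one]) t
    rw [h2 k t ht, act_zero, hct, der_smul'] at h4
    exact (smul_eq_zero.1 h4).resolve_left hc
  · intro U hU v hv
    rw [← Matrix.mulVec_mulVec, ← Matrix.mulVec_mulVec]
    exact hU γ _ (h3 U hU _ (hU γ⁻¹ v hv))

theorem bracket_mem {M N : Matrix X X C} (hM : M ∈ m.g) (hN : N ∈ m.g) :
    M * N - N * M ∈ m.g := by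
  obtain ⟨h1, h2, h3⟩ := hM
  obtain ⟨k1, k2, k3⟩ := hN
  refine ⟨?_, ?_, ?_⟩
  · have e1 : M * m.J = - (m.J * Mᵀ) := eq_neg_of_add_eq_zero_left h1
    have e2 : N * m.J = - (m.J * Nᵀ) := eq_neg_of_add_eq_zero_left k1
    rw [Matrix.transpose_sub, Matrix.transpose_mul, Matrix.transpose_mul, Matrix.sub_mul,
      Matrix.mul_sub, Matrix.mul_assoc M N, e2, Matrix.mul_neg, ← Matrix.mul_assoc M, e1,
      Matrix.mul_assoc N M, e1, Matrix.mul_neg, ← Matrix.mul_assoc N, e2, Matrix.neg_mul,
      Matrix.neg_mul, neg_neg, neg_neg]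
    simp only [Matrix.mul_assoc]
    abel
  · intro k t ht
    exact der_bracket (h2 k t ht) (k2 k t ht)
  · intro U hU v hv
    rw [Matrix.sub_mulVec, ← Matrix.mulVec_mulVec, ← Matrix.mulVec_mulVec]
    exact U.sub_mem (h3 U hU _ (k3 U hU v hv)) (k3 U hU _ (h3 U hU v hv))

/-- Skewness in coordinates. -/
theorem skew_iff (M : Matrix X X C) : M * m.J + m.J * Mᵀ = 0 ↔
    ∀ x y, M x y = - (m.eps x * m.eps y) * M (m.bar y) (m.bar x) := by
  have h1 : ∀ x z, (M * m.J) x z = - (m.eps z * M x (m.bar z)) := by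
    intro x z
    rw [Matrix.mul_apply, Finset.sum_eq_single (m.bar z)]
    · simp [jmat, m.bar_bar, m.eps_bar, mul_comm]
    · intro b _ hb
      have : z ≠ m.bar b := fun h => hb (by rw [h, m.bar_bar])
      simp [jmat, this]
    · simp
  have h2 : ∀ x z, (m.J * Mᵀ) x z = m.eps x * M z (m.bar x) := by
    intro x z
    rw [Matrix.mul_apply, Finset.sum_eq_single (m.bar x)]
    · simp [jmat]
    · intro b _ hb
      simp [jmat, hb]
    · simp
  constructor
  · intro h x y
    have h3 := congrFun (congrFun h x) (m.bar y)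
    rw [Matrix.add_apply, h1, h2, Matrix.zero_apply, m.bar_bar, m.eps_bar] at h3
    linear_combination m.eps y * h3 - M x y * m.eps_sq y
  · intro h
    ext x z
    rw [Matrix.add_apply, h1, h2, Matrix.zero_apply, h x (m.bar z), m.bar_bar, m.eps_bar]
    linear_combination (-1 : C) * m.eps x * M z (m.bar x) * m.eps_sq z

/-- Root vectors. -/
def root (a b : X) : Matrix X X C :=
  Matrix.of fun p q => (if p = a ∧ q = b then 1 else 0)
    - m.eps a * m.eps b * (if p = m.bar b ∧ q = m.bar a then 1 else 0)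

theorem root_apply (a b p q : X) : m.root a b p q = (if p = a ∧ q = b then 1 else 0)
    - m.eps a * m.eps b * (if p = m.bar b ∧ q = m.bar a then 1 else 0) := rfl

theorem bar_eq {a b : X} : m.bar a = b ↔ a = m.bar b :=
  ⟨fun h => by rw [← h, m.bar_bar], fun h => by rw [h, m.bar_bar]⟩

theorem bar_ne (a : X) : m.bar a ≠ a := by
  intro h
  have h1 := m.eps_bar a
  have h2 := m.eps_sq a
  rw [h] at h1
  have h3 : m.eps a = 0 := by
    have : (2 : C) * m.eps a = 0 := by linear_combination h1
    simpa using this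
  rw [h3] at h2
  simp at h2

theorem root_skew (a b : X) : m.root a b * m.J + m.J * (m.root a b)ᵀ = 0 := by
  rw [skew_iff]
  intro x y
  rw [root_apply, root_apply]
  have c1 : (m.bar y = a ∧ m.bar x = b) ↔ (x = m.bar b ∧ y = m.bar a) := by
    rw [m.bar_eq, m.bar_eq]; tauto
  have c2 : (m.bar y = m.bar b ∧ m.bar x = m.bar a) ↔ (x = a ∧ y = b) := by
    rw [m.bar_eq, m.bar_eq, m.bar_bar, m.bar_bar]; tauto
  simp only [c1, c2]
  by_cases h1 : x = a ∧ y = b
  · obtain ⟨rfl, rfl⟩ := h1
    by_cases h2 : x = m.bar y ∧ y = m.bar x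
    · rw [if_pos h2, if_pos ⟨rfl, rfl⟩]
      linear_combination (-1 : C) * m.eps_sq x * (m.eps y * m.eps y) - m.eps_sq y
    · rw [if_neg h2, if_pos ⟨rfl, rfl⟩]
      linear_combination (-1 : C) * m.eps_sq x * (m.eps y * m.eps y) - m.eps_sq y
  · by_cases h2 : x = m.bar b ∧ y = m.bar a
    · rw [if_neg h1, if_pos h2, h2.1, h2.2, m.eps_bar, m.eps_bar]
      ring
    · rw [if_neg h1, if_neg h2]; ring

theorem root_mulVec (a b : X) (v : X → C) (p : X) : (m.root a b *ᵥ v) p
    = (if p = a then v b else 0) - m.eps a * m.eps b * (if p = m.bar b then v (m.bar a) else 0) := by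
  simp only [Matrix.mulVec, dotProduct, root_apply, sub_mul, Finset.sum_sub_distrib]
  congr 1
  · rw [Finset.sum_eq_single b]
    · by_cases h : p = a <;> simp [h]
    · intro q _ hq; simp [hq]
    · simp
  · rw [Finset.sum_eq_single (m.bar a)]
    · by_cases h : p = m.bar b <;> simp [h]
    · intro q _ hq; simp [hq]
    · simp

theorem der_root {P : Type*} [Fintype P] [DecidableEq P] (a b : X) (t : (P → X) → C) (w : P → X) :
    der (m.root a b) t w = (∑ i, if w i = a then t (update w i b) else 0)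
      - m.eps a * m.eps b * ∑ i, if w i = m.bar b then t (update w i (m.bar a)) else 0 := by
  simp only [der, root_apply]
  rw [Finset.mul_sum, ← Finset.sum_sub_distrib]
  refine Finset.sum_congr rfl fun i _ => ?_
  simp only [sub_mul, Finset.sum_sub_distrib]
  congr 1
  · rw [Finset.sum_eq_single b]
    · by_cases h : w i = a <;> simp [h]
    · intro q _ hq; simp [hq]
    · simp
  · rw [Finset.sum_eq_single (m.bar a)]
    · by_cases h : w i = m.bar b <;> simp [h]
    · intro q _ hq; simp [hq]
    · simp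

/-- Every stable subspace contains the coordinate vectors of its elements. -/
theorem single_mem_of_F (U : Submodule C (X → C)) (hU : ∀ v ∈ U, m.ρ m.F *ᵥ v ∈ U)
    {v : X → C} (hv : v ∈ U) (a : X) : Pi.single a (v a) ∈ U := by
  classical
  have h := proj_mem (Matrix.mulVecLin (m.ρ m.F)) U hU (fun b => Pi.single b (v b)) m.ev
    (by
      intro b
      rw [Matrix.mulVecLin_apply, m.hF, Matrix.mulVec_single]
      ext c
      by_cases h : c = b
      · subst h; simp [mul_comm]
      · simp [h])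
    (by rw [Finset.univ_sum_single]; exact hv) (m.ev a)
  rw [Finset.sum_eq_single a] at h
  · simpa using h
  · intro b _ hb
    rw [if_neg]
    exact fun h => hb (m.ev_inj h)
  · simp

theorem torus_mem (a : X) : m.root a a ∈ m.g := by
  refine ⟨m.root_skew a a, ?_, ?_⟩
  · intro k t ht
    funext w
    rw [der_root, m.eps_sq, one_mul, Pi.zero_apply]
    have e : ∀ b, (∑ i, if w i = b then t (update w i b) else 0)
        = ((∑ i, if w i = b then 1 else 0 : ℕ) : C) * t w := by
      intro b
      rw [Nat.cast_sum, Finset.sum_mul]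
      refine Finset.sum_congr rfl fun i _ => ?_
      split_ifs with h
      · rw [← h, update_eq_self]; simp
      · simp
    rw [e, e]
    by_cases ht0 : t w = 0
    · rw [ht0]; ring
    · rw [m.neat k w (ht.2 w ht0) a]; ring
  · intro U hU v hv
    have h1 := m.single_mem_of_F U (hU m.F) hv a
    have h2 := m.single_mem_of_F U (hU m.F) hv (m.bar a)
    have h3 := U.sub_mem h1 h2
    convert h3 using 1
    funext p
    rw [root_mulVec, m.eps_sq, Pi.sub_apply, Pi.single_apply, Pi.single_apply, one_mul]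

theorem ev_ne (a : X) : m.ev a ≠ 0 := by
  intro h
  have := m.ev_bar a
  rw [h, zero_mul] at this
  exact m.Q_ne this.symm

theorem ratio {x y a b : X} (hab : a ≠ b) (h : m.ev x / m.ev y = m.ev a / m.ev b) :
    (x = a ∧ y = b) ∨ (x = m.bar b ∧ y = m.bar a) := by
  have hx := m.ev_ne x
  have hy := m.ev_ne y
  have ha := m.ev_ne a
  have hb := m.ev_ne b
  have h0 : m.ev x * m.ev b = m.ev a * m.ev y := by
    field_simp at h; linear_combination h
  have hxy : x ≠ y := by
    rintro rfl
    apply hab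
    apply m.ev_inj
    rw [div_self hx, eq_div_iff hb] at h
    rw [← h, one_mul]
  have h1 : (∏ i, m.ev ((![x, b, m.bar a, m.bar y] : Fin 4 → X) i)) ^ 2 = m.Q ^ 4 := by
    rw [Fin.prod_univ_four]
    have e1 := m.ev_bar a
    have e2 := m.ev_bar y
    have : m.ev x * m.ev b * m.ev (m.bar a) * m.ev (m.bar y) = m.Q ^ 2 := by
      rw [h0, sq]
      nth_rewrite 1 [← e1]
      rw [← e2]; ring
    simp only [Matrix.cons_val_zero, Matrix.cons_val_one, Matrix.cons_val]
    rw [this]; ring
  have h2 : ∀ c : X, (if x = c then 1 else 0) + (if b = c then 1 else 0)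
      + (if m.bar a = c then 1 else 0) + (if m.bar y = c then 1 else 0)
      = (if x = m.bar c then 1 else 0) + (if b = m.bar c then 1 else 0)
      + (if m.bar a = m.bar c then 1 else 0) + (if m.bar y = m.bar c then 1 else 0 : ℕ) := by
    intro c
    have := m.neat 4 _ h1 c
    rw [Fin.sum_univ_four, Fin.sum_univ_four] at this
    exact this
  have binj : ∀ {y z : X}, m.bar y = m.bar z → y = z := by
    intro y z h
    rw [← m.bar_bar y, h, m.bar_bar]
  have h3 := h2 x
  rw [if_pos rfl, if_neg (m.bar_ne x).symm] at h3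
  by_cases c1 : x = a
  · left
    refine ⟨c1, ?_⟩
    subst c1
    by_contra c2
    have h4 := h2 b
    rw [if_pos rfl, if_neg hab, if_neg (m.bar_ne b).symm, if_neg (fun h => hab (binj h)),
      if_neg (fun h => c2 (binj h))] at h4
    by_cases c3 : x = m.bar b
    · rw [if_pos (m.bar_eq.2 c3), if_pos c3] at h4
      omega
    · rw [if_neg (fun h => c3 (m.bar_eq.1 h)), if_neg c3] at h4
      omega
  · by_cases c2 : x = m.bar b
    · right
      refine ⟨c2, ?_⟩
      by_contra c3
      have h4 := h2 (m.bar a)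
      rw [c2, if_neg (fun h => hab (binj h).symm), if_pos rfl, m.bar_bar, if_neg hab.symm,
        if_neg (m.bar_ne a), if_neg (fun h => c3 (m.bar_eq.1 h))] at h4
      by_cases c4 : b = m.bar a
      · rw [if_pos c4, if_pos (m.bar_eq.2 c4)] at h4
        omega
      · rw [if_neg c4, if_neg (fun h => c4 (m.bar_eq.1 h))] at h4
        omega
    · exfalso
      rw [if_neg (show ¬ b = m.bar x from fun h => c2 (m.bar_eq.1 h.symm)),
        if_neg (show ¬ m.bar a = m.bar x from fun h => c1 (binj h).symm),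
        if_neg (show ¬ m.bar y = m.bar x from fun h => hxy (binj h).symm)] at h3
      omega

theorem rFinv : m.ρ m.F⁻¹ = Matrix.diagonal (fun a => (m.ev a)⁻¹) := by
  have h := m.rinv m.F
  rw [m.hF] at h
  ext p q
  have h1 := congrFun (congrFun h p) q
  rw [Matrix.diagonal_mul] at h1
  by_cases hpq : p = q
  · subst hpq
    rw [Matrix.one_apply_eq] at h1
    rw [Matrix.diagonal_apply_eq]
    exact eq_inv_of_mul_eq_one_right h1
  · rw [Matrix.one_apply_ne hpq] at h1
    rw [Matrix.diagonal_apply_ne _ hpq]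
    exact (mul_eq_zero.1 h1).resolve_left (m.ev_ne p)

theorem root_extract {M : Matrix X X C} (hM : M ∈ m.g) {a b : X} (hab : a ≠ b)
    (h : M a b ≠ 0) : m.root a b ∈ m.g := by
  classical
  let L : Matrix X X C →ₗ[C] Matrix X X C :=
    { toFun := fun N => m.ρ m.F * N * m.ρ m.F⁻¹
      map_add' := by intro N N'; rw [Matrix.mul_add, Matrix.add_mul]
      map_smul' := by intro c N; simp }
  have hL : ∀ N p q, L N p q = m.ev p / m.ev q * N p q := by
    intro N p q
    change (m.ρ m.F * N * m.ρ m.F⁻¹) p q = _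
    rw [rFinv, m.hF, Matrix.mul_diagonal, Matrix.diagonal_mul]
    ring
  have h1 := proj_mem L m.g (fun N hN => m.conj_mem hN m.F)
    (fun p : X × X => Matrix.single p.1 p.2 (M p.1 p.2)) (fun p => m.ev p.1 / m.ev p.2)
    (by
      rintro ⟨c, d⟩
      ext p q
      rw [hL, Matrix.smul_apply, smul_eq_mul]
      by_cases hpq : c = p ∧ d = q
      · obtain ⟨rfl, rfl⟩ := hpq; rfl
      · rw [Matrix.single_apply_of_ne _ _ _ _ _ hpq, mul_zero, mul_zero])
    (by
      rw [Fintype.sum_prod_type]
      have e := (Matrix.matrix_eq_sum_single M).symm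
      change (∑ x, ∑ y, Matrix.single x y (M x y)) ∈ m.g
      rw [e]
      exact hM) (m.ev a / m.ev b)
  set N0 := ∑ p : X × X, (if m.ev p.1 / m.ev p.2 = m.ev a / m.ev b then
    Matrix.single p.1 p.2 (M p.1 p.2) else 0) with hN0
  have h2 : ∀ x y, N0 x y = if m.ev x / m.ev y = m.ev a / m.ev b then M x y else 0 := by
    intro x y
    rw [hN0, Matrix.sum_apply, Finset.sum_eq_single (x, y)]
    · simp only []
      split_ifs
      · rw [Matrix.single_apply_same]
      · rfl
    · rintro ⟨c, d⟩ _ hcd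
      simp only []
      split_ifs
      · rw [Matrix.single_apply_of_ne]
        rintro ⟨rfl, rfl⟩
        exact hcd rfl
      · rfl
    · simp
  have hsk := (m.skew_iff M).1 hM.1
  have hr1 : m.ev (m.bar b) / m.ev (m.bar a) = m.ev a / m.ev b := by
    rw [div_eq_div_iff (m.ev_ne _) (m.ev_ne _)]
    rw [mul_comm, m.ev_bar, m.ev_bar]
  have key : ∃ κ : C, κ ≠ 0 ∧ N0 = κ • m.root a b := by
    by_cases hb : b = m.bar a
    · refine ⟨M a b / 2, div_ne_zero h two_ne_zero, ?_⟩
      ext x y
      rw [h2, Matrix.smul_apply, root_apply, smul_eq_mul]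
      have hba : m.bar b = a := by rw [hb, m.bar_bar]
      have e : (if x = m.bar b ∧ y = m.bar a then (1 : C) else 0) = if x = a ∧ y = b then 1 else 0 := by
        rw [hba, ← hb]
      rw [e]
      by_cases hxy : x = a ∧ y = b
      · rw [if_pos hxy, hxy.1, hxy.2, if_pos rfl, hb, m.eps_bar]
        linear_combination (-1 : C) / 2 * M a (m.bar a) * m.eps_sq a
      · rw [if_neg hxy, if_neg]
        · ring
        · intro hr
          rcases m.ratio hab hr with h' | h'
          · exact hxy h'
          · rw [hba, ← hb] at h'; exact hxy h'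
    · refine ⟨M a b, h, ?_⟩
      ext x y
      rw [h2, Matrix.smul_apply, root_apply, smul_eq_mul]
      by_cases hxy : x = a ∧ y = b
      · have : ¬ (x = m.bar b ∧ y = m.bar a) := by
          rintro ⟨_, h'⟩
          exact hb (by rw [← h', hxy.2])
        rw [if_pos hxy, hxy.1, hxy.2, if_pos rfl]
        rw [hxy.1, hxy.2] at this
        rw [if_neg this]; ring
      · by_cases hxy' : x = m.bar b ∧ y = m.bar a
        · rw [if_neg hxy, if_pos hxy', hxy'.1, hxy'.2, if_pos hr1, hsk (m.bar b) (m.bar a),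
            m.bar_bar, m.bar_bar, m.eps_bar, m.eps_bar]
          ring
        · rw [if_neg hxy, if_neg hxy', if_neg]
          · ring
          · intro hr
            rcases m.ratio hab hr with h' | h'
            · exact hxy h'
            · exact hxy' h'
  obtain ⟨κ, hκ, hN⟩ := key
  have h3 := m.g.smul_mem κ⁻¹ h1
  rw [hN, smul_smul, inv_mul_cancel₀ hκ, one_smul] at h3
  exact h3

/-- The block relation. -/
def R (a b : X) : Prop := m.root a b ∈ m.g

theorem R_refl (a : X) : m.R a a := m.torus_mem a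

theorem R_of_entry {M : Matrix X X C} (hM : M ∈ m.g) {a b : X} (h : M a b ≠ 0) : m.R a b := by
  by_cases hab : a = b
  · subst hab; exact m.R_refl a
  · exact m.root_extract hM hab h

theorem R_bar {a b : X} (h : m.R a b) : m.R (m.bar b) (m.bar a) := by
  have h1 := m.g.smul_mem (- (m.eps a * m.eps b)) h
  have h2 : (- (m.eps a * m.eps b)) • m.root a b = m.root (m.bar b) (m.bar a) := by
    ext p q
    rw [Matrix.smul_apply, root_apply, root_apply, smul_eq_mul, m.bar_bar, m.bar_bar, m.eps_bar,
      m.eps_bar]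
    by_cases c1 : p = a ∧ q = b <;> by_cases c2 : p = m.bar b ∧ q = m.bar a
    · rw [if_pos c1, if_pos c2]
      linear_combination m.eps_sq a * (m.eps b * m.eps b) + m.eps_sq b
    · rw [if_pos c1, if_neg c2]; ring
    · rw [if_neg c1, if_pos c2]
      linear_combination m.eps_sq a * (m.eps b * m.eps b) + m.eps_sq b
    · rw [if_neg c1, if_neg c2]; ring
  rw [h2] at h1
  exact h1

theorem R_trans {a b c : X} (h1 : m.R a b) (h2 : m.R b c) : m.R a c := by
  by_cases hab : a = b
  · subst hab; exact h2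
  by_cases hbc : b = c
  · subst hbc; exact h1
  by_cases hac : a = c
  · subst hac; exact m.R_refl a
  refine m.R_of_entry (m.bracket_mem h1 h2) ?_
  have e1 : (m.root a b * m.root b c) a c = (if a = m.bar b then 2 else 1)
      * (if b = m.bar c then 2 else 1) := by
    rw [Matrix.mul_apply, Finset.sum_eq_single b]
    · rw [root_apply, root_apply]
      congr 1
      · by_cases h : a = m.bar b
        · rw [if_pos ⟨rfl, rfl⟩, if_pos ⟨h, (m.bar_eq.2 h).symm⟩, if_pos h, h, m.eps_bar]
          linear_combination m.eps_sq b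
        · rw [if_pos ⟨rfl, rfl⟩, if_neg (fun h' => h h'.1), if_neg h]; ring
      · by_cases h : b = m.bar c
        · rw [if_pos ⟨rfl, rfl⟩, if_pos ⟨h, (m.bar_eq.2 h).symm⟩, if_pos h, h, m.eps_bar]
          linear_combination m.eps_sq c
        · rw [if_pos ⟨rfl, rfl⟩, if_neg (fun h' => h h'.1), if_neg h]; ring
    · intro d _ hd
      have : m.root a b a d = 0 := by
        rw [root_apply, if_neg (fun h => hd h.2), if_neg]
        · ring
        · rintro ⟨h, h'⟩
          exact hd (h'.trans (m.bar_eq.2 h))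
      rw [this, zero_mul]
    · simp
  have e2 : (m.root b c * m.root a b) a c = - (if a = m.bar c then 1 else 0) := by
    rw [Matrix.mul_apply, Finset.sum_eq_single (m.bar b)]
    · rw [root_apply, root_apply]
      by_cases h : a = m.bar c
      · rw [if_neg (fun h' => hab h'.1), if_pos ⟨h, rfl⟩, if_neg (fun h' => hbc h'.2.symm),
          if_pos ⟨rfl, (m.bar_eq.2 h).symm⟩, if_pos h, h, m.eps_bar]
        linear_combination (-1 : C) * m.eps_sq b * (m.eps c * m.eps c) - m.eps_sq c
      · rw [if_neg (fun h' => hab h'.1), if_neg (fun h' => h h'.1), if_neg h]; ring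
    · intro d _ hd
      have : m.root b c a d = 0 := by
        rw [root_apply, if_neg (fun h => hab h.1), if_neg (fun h => hd h.2)]
        ring
      rw [this, zero_mul]
    · simp
  rw [Matrix.sub_apply, e1, e2]
  split_ifs <;> norm_num

/-- Subspaces stable under the Lie algebra. -/
def GS (U : Submodule C (X → C)) : Prop := ∀ M ∈ m.g, ∀ v ∈ U, M *ᵥ v ∈ U

theorem gs_single {U : Submodule C (X → C)} (hU : m.GS U) {v : X → C} (hv : v ∈ U) (a : X) :
    Pi.single a (v a) ∈ U := by
  have h1 := hU _ (m.torus_mem a) v hv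
  have h2 := hU _ (m.torus_mem a) _ h1
  have h3 := U.smul_mem (1 / 2 : C) (U.add_mem h1 h2)
  convert h3 using 1
  funext p
  rw [Pi.smul_apply, Pi.add_apply, root_mulVec, root_mulVec, root_mulVec, root_mulVec,
    m.eps_sq, Pi.single_apply, smul_eq_mul]
  have hb := m.bar_ne a
  by_cases h : p = a
  · subst h
    simp only [if_true, if_neg hb.symm]
    ring
  · by_cases h' : p = m.bar a
    · subst h'
      simp only [if_true, if_neg hb]
      ring
    · simp only [if_neg h, if_neg h']
      ring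

theorem gs_e {U : Submodule C (X → C)} (hU : m.GS U) {v : X → C} (hv : v ∈ U) {a : X}
    (ha : v a ≠ 0) : (Pi.single a 1 : X → C) ∈ U := by
  have h := U.smul_mem (v a)⁻¹ (m.gs_single hU hv a)
  convert h using 1
  rw [← Pi.single_smul, smul_eq_mul, inv_mul_cancel₀ ha]

theorem gs_step {U : Submodule C (X → C)} (hU : m.GS U) {a b : X}
    (hb : (Pi.single b 1 : X → C) ∈ U) (h : m.R a b) : (Pi.single a 1 : X → C) ∈ U := by
  have h1 := hU _ h _ hb
  refine m.gs_e hU h1 (a := a) ?_
  rw [root_mulVec, if_pos rfl, Pi.single_eq_same]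
  by_cases h2 : a = m.bar b
  · rw [if_pos h2, h2, m.bar_bar, Pi.single_eq_same, m.eps_bar]
    have := m.eps_sq b
    intro h3
    have : (2 : C) = 0 := by linear_combination h3 - this
    exact two_ne_zero this
  · rw [if_neg h2]; simp

/-- The submodule generated by a coordinate vector. -/
def Ub (b : X) : Submodule C (X → C) where
  carrier := {v | ∀ a, v a ≠ 0 → m.R a b}
  add_mem' := by
    intro v w hv hw a ha
    by_cases h : v a = 0
    · apply hw a
      intro h'
      exact ha (by rw [Pi.add_apply, h, h', add_zero])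
    · exact hv a h
  zero_mem' := by intro a ha; exact absurd rfl ha
  smul_mem' := by
    intro c v hv a ha
    apply hv a
    intro h
    exact ha (by rw [Pi.smul_apply, h, smul_zero])

theorem mem_Ub {b : X} {v : X → C} : v ∈ m.Ub b ↔ ∀ a, v a ≠ 0 → m.R a b := Iff.rfl

theorem Ub_gs (b : X) : m.GS (m.Ub b) := by
  intro M hM v hv a ha
  obtain ⟨c, -, hc⟩ : ∃ c ∈ univ, M a c * v c ≠ 0 := Finset.exists_ne_zero_of_sum_ne_zero ha
  exact m.R_trans (m.R_of_entry hM (left_ne_zero_of_mul hc)) (hv c (right_ne_zero_of_mul hc))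

theorem e_mem_Ub {a b : X} : (Pi.single a 1 : X → C) ∈ m.Ub b ↔ m.R a b := by
  constructor
  · intro h
    exact h a (by rw [Pi.single_eq_same]; exact one_ne_zero)
  · intro h c hc
    by_cases hca : c = a
    · rw [hca]; exact h
    · rw [Pi.single_eq_of_ne hca] at hc
      exact absurd rfl hc

theorem Ub_le {U : Submodule C (X → C)} (hU : m.GS U) {b : X}
    (hb : (Pi.single b 1 : X → C) ∈ U) : m.Ub b ≤ U := by
  intro v hv
  have : v = ∑ a, v a • (Pi.single a 1 : X → C) := by
    funext p
    simp [Finset.sum_apply, Pi.single_apply]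
  rw [this]
  refine U.sum_mem fun a _ => ?_
  by_cases h : v a = 0
  · rw [h, zero_smul]; exact U.zero_mem
  · exact U.smul_mem _ (m.gs_step hU hb (hv a h))

/-- Translate of a subspace by a group element. -/
def tr (γ : Γ) (U : Submodule C (X → C)) : Submodule C (X → C) :=
  U.map (Matrix.mulVecLin (m.ρ γ))

theorem mem_tr {γ : Γ} {U : Submodule C (X → C)} {v : X → C} :
    v ∈ m.tr γ U ↔ m.ρ γ⁻¹ *ᵥ v ∈ U := by
  constructor
  · rintro ⟨u, hu, rfl⟩
    rw [Matrix.mulVecLin_apply, Matrix.mulVec_mulVec, rinv', Matrix.one_mulVec]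
    exact hu
  · intro h
    refine ⟨_, h, ?_⟩
    rw [Matrix.mulVecLin_apply, Matrix.mulVec_mulVec, rinv, Matrix.one_mulVec]

theorem tr_gs {U : Submodule C (X → C)} (hU : m.GS U) (γ : Γ) : m.GS (m.tr γ U) := by
  intro M hM v hv
  rw [mem_tr] at hv ⊢
  have h1 := m.conj_mem hM γ⁻¹
  rw [inv_inv] at h1
  have h2 := hU _ h1 _ hv
  rw [Matrix.mulVec_mulVec, Matrix.mul_assoc, rinv, Matrix.mul_one, ← Matrix.mulVec_mulVec] at h2
  exact h2

theorem tr_mul (γ δ : Γ) (U : Submodule C (X → C)) : m.tr (γ * δ) U = m.tr γ (m.tr δ U) := by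
  ext v
  rw [mem_tr, mem_tr, mem_tr, Matrix.mulVec_mulVec, ← map_mul, _root_.mul_inv_rev]

theorem tr_one (U : Submodule C (X → C)) : m.tr 1 U = U := by
  ext v
  rw [mem_tr, inv_one, map_one, Matrix.one_mulVec]

theorem tr_mono (γ : Γ) {U U' : Submodule C (X → C)} (h : U ≤ U') : m.tr γ U ≤ m.tr γ U' :=
  Submodule.map_mono h

/-- Minimal indices: those generating simple submodules. -/
def Mn (b : X) : Prop := ∀ a, m.R a b → m.R b a

theorem exists_min (b : X) : ∃ a, m.R a b ∧ m.Mn a := by
  classical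
  let c : X → ℕ := fun a => (univ.filter fun d => m.R d a).card
  obtain ⟨a, ha, hmin⟩ := Finset.exists_min_image (univ.filter fun a => m.R a b) c
    ⟨b, by simp [m.R_refl]⟩
  rw [Finset.mem_filter] at ha
  refine ⟨a, ha.2, ?_⟩
  intro d hd
  have h1 := hmin d (by simp [m.R_trans hd ha.2])
  have h2 : (univ.filter fun e => m.R e d) ⊆ (univ.filter fun e => m.R e a) := by
    intro e he
    rw [Finset.mem_filter] at he ⊢
    exact ⟨he.1, m.R_trans he.2 hd⟩
  have h3 := Finset.eq_of_subset_of_card_le h2 h1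
  have h4 : a ∈ (univ.filter fun e => m.R e a) := by simp [m.R_refl]
  rw [← h3, Finset.mem_filter] at h4
  exact h4.2

/-- Translates of the simple submodule of a minimal index are simple. -/
theorem tr_min {b : X} (hb : m.Mn b) (γ : Γ) {c : X}
    (hc : (Pi.single c 1 : X → C) ∈ m.tr γ (m.Ub b)) : m.Mn c ∧ m.tr γ (m.Ub b) = m.Ub c := by
  have hY := m.tr_gs (m.Ub_gs b) γ
  have key : ∀ d, (Pi.single d 1 : X → C) ∈ m.tr γ (m.Ub b) → m.tr γ (m.Ub b) ≤ m.Ub d := by
    intro d hd
    have h1 : m.Ub d ≤ m.tr γ (m.Ub b) := m.Ub_le hY hd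
    have h2 : m.tr γ⁻¹ (m.Ub d) ≤ m.Ub b := by
      have := m.tr_mono γ⁻¹ h1
      rwa [← tr_mul, inv_mul_cancel, tr_one] at this
    have hZ := m.tr_gs (m.Ub_gs d) γ⁻¹
    have hne : ∃ v ∈ m.tr γ⁻¹ (m.Ub d), v ≠ 0 := by
      refine ⟨m.ρ γ⁻¹ *ᵥ (Pi.single d 1 : X → C), ?_, ?_⟩
      · rw [mem_tr, inv_inv, Matrix.mulVec_mulVec, rinv, Matrix.one_mulVec, e_mem_Ub]
        exact m.R_refl d
      · intro h
        have h' := congrArg (fun v => m.ρ γ *ᵥ v) h
        simp only [Matrix.mulVec_mulVec, rinv, Matrix.one_mulVec, Matrix.mulVec_zero] at h'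
        have := congrFun h' d
        rw [Pi.single_eq_same, Pi.zero_apply] at this
        exact one_ne_zero this
    obtain ⟨v, hv, hv0⟩ := hne
    obtain ⟨a, ha⟩ : ∃ a, v a ≠ 0 := by
      by_contra h
      push Not at h
      exact hv0 (funext h)
    have ea := m.gs_e hZ hv ha
    have hab : m.R a b := m.e_mem_Ub.1 (h2 ea)
    have eb := m.gs_step hZ ea (hb a hab)
    have h3 := m.Ub_le hZ eb
    have h4 := m.tr_mono γ h3
    rwa [← tr_mul, mul_inv_cancel, tr_one] at h4
  refine ⟨?_, le_antisymm (key c hc) (m.Ub_le hY hc)⟩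
  intro d hd
  have hdY := m.gs_step hY hc hd
  exact m.e_mem_Ub.1 (key d hdY hc)

theorem all_min (b : X) : m.Mn b := by
  let Soc : Submodule C (X → C) :=
    { carrier := {v | ∀ a, v a ≠ 0 → m.Mn a}
      add_mem' := by
        intro v w hv hw a ha
        by_cases h : v a = 0
        · apply hw a
          intro h'
          exact ha (by rw [Pi.add_apply, h, h', add_zero])
        · exact hv a h
      zero_mem' := by intro a ha; exact absurd rfl ha
      smul_mem' := by
        intro c v hv a ha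
        apply hv a
        intro h
        exact ha (by rw [Pi.smul_apply, h, smul_zero]) }
  have hS : ∀ γ, ∀ v ∈ Soc, m.ρ γ *ᵥ v ∈ Soc := by
    intro γ v hv
    have : v = ∑ a, v a • (Pi.single a 1 : X → C) := by
      funext p
      simp [Finset.sum_apply, Pi.single_apply]
    rw [this, Matrix.mulVec_sum]
    refine Soc.sum_mem fun a _ => ?_
    rw [Matrix.mulVec_smul]
    by_cases h : v a = 0
    · rw [h, zero_smul]; exact Soc.zero_mem
    · refine Soc.smul_mem _ ?_
      intro c hc
      have ha : m.Mn a := hv a h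
      have h1 : m.ρ γ *ᵥ (Pi.single a 1 : X → C) ∈ m.tr γ (m.Ub a) := by
        rw [mem_tr, Matrix.mulVec_mulVec, rinv', Matrix.one_mulVec, e_mem_Ub]
        exact m.R_refl a
      exact (m.tr_min ha γ (m.gs_e (m.tr_gs (m.Ub_gs a) γ) h1 hc)).1
  obtain ⟨W, hW, hc⟩ := m.ss Soc hS
  have hWg : m.GS W := fun M hM v hv => hM.2.2 W hW v hv
  have hW0 : W = ⊥ := by
    rw [Submodule.eq_bot_iff]
    intro v hv
    funext a
    by_contra ha
    have h1 := m.gs_e hWg hv ha
    obtain ⟨d, hd, hmd⟩ := m.exists_min a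
    have h2 := m.gs_step hWg h1 hd
    have h3 : (Pi.single d 1 : X → C) ∈ Soc := by
      intro c hc
      by_cases hcd : c = d
      · rw [hcd]; exact hmd
      · rw [Pi.single_eq_of_ne hcd] at hc
        exact absurd rfl hc
    have h4 : (Pi.single d 1 : X → C) ∈ (⊥ : Submodule C (X → C)) := by
      rw [← hc.inf_eq_bot]; exact ⟨h3, h2⟩
    have h5 := congrFun ((Submodule.mem_bot C).1 h4) d
    rw [Pi.single_eq_same, Pi.zero_apply] at h5
    exact one_ne_zero h5
  have h := hc.sup_eq_top
  rw [hW0, sup_bot_eq] at h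
  have h1 : (Pi.single b 1 : X → C) ∈ Soc := by rw [h]; exact Submodule.mem_top
  exact h1 b (by rw [Pi.single_eq_same]; exact one_ne_zero)

/-- The block structure. -/
def blk : Blk X C where
  bar := m.bar
  bar_bar := m.bar_bar
  eps := m.eps
  eps_sq := m.eps_sq
  eps_bar := m.eps_bar
  r := m.R
  refl := m.R_refl
  symm := fun _ _ h => m.all_min _ _ h
  trans := fun _ _ _ h1 h2 => m.R_trans h1 h2
  r_bar := fun _ _ h => m.all_min _ _ (m.R_bar h)

/-- The finite index subgroup preserving all blocks. -/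
def sub : Subgroup Γ where
  carrier := {γ | ∀ b, m.tr γ (m.Ub b) = m.Ub b}
  mul_mem' := by
    intro γ δ h1 h2 b
    rw [tr_mul, h2, h1]
  one_mem' := fun b => m.tr_one _
  inv_mem' := by
    intro γ h b
    have := congrArg (m.tr γ⁻¹) (h b)
    rw [← tr_mul, inv_mul_cancel, tr_one] at this
    exact this.symm

theorem mem_sub {γ : Γ} : γ ∈ m.sub ↔ ∀ b, m.tr γ (m.Ub b) = m.Ub b := Iff.rfl

theorem F_mem_sub : m.F ∈ m.sub := by
  rw [mem_sub]
  intro b
  ext v
  rw [mem_tr, mem_Ub, mem_Ub]
  have h1 : ∀ a, v a = m.ev a * (m.ρ m.F⁻¹ *ᵥ v) a := by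
    intro a
    have h : m.ρ m.F *ᵥ (m.ρ m.F⁻¹ *ᵥ v) = v := by
      rw [Matrix.mulVec_mulVec, rinv, Matrix.one_mulVec]
    have h2 := congrFun h a
    rw [m.hF, Matrix.mulVec_diagonal] at h2
    exact h2.symm
  have hev : ∀ a, m.ev a ≠ 0 := by
    intro a h
    have := m.ev_bar a
    rw [h, zero_mul] at this
    exact m.Q_ne this.symm
  constructor
  · intro h a ha
    apply h a
    intro h0
    apply ha
    rw [h1 a, h0, mul_zero]
  · intro h a ha
    apply h a
    rw [h1 a]
    exact mul_ne_zero (hev a) ha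

theorem sub_finiteIndex : m.sub.FiniteIndex := by
  classical
  have : Finite (Γ ⧸ m.sub) := by
    let φ : Γ → (X → Set X) := fun γ b => {c | (Pi.single c 1 : X → C) ∈ m.tr γ (m.Ub b)}
    have hφ : ∀ γ δ, φ γ = φ δ → (QuotientGroup.mk γ : Γ ⧸ m.sub) = QuotientGroup.mk δ := by
      intro γ δ h
      rw [QuotientGroup.eq]
      intro b
      rw [tr_mul]
      have hgd : m.tr γ (m.Ub b) = m.tr δ (m.Ub b) := by
        have h1 := congrFun h b
        have hne : ∃ c, (Pi.single c 1 : X → C) ∈ m.tr γ (m.Ub b) := by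
          have h2 : m.ρ γ *ᵥ (Pi.single b 1 : X → C) ∈ m.tr γ (m.Ub b) := by
            rw [mem_tr, Matrix.mulVec_mulVec, rinv', Matrix.one_mulVec, e_mem_Ub]
            exact m.R_refl b
          have h3 : m.ρ γ *ᵥ (Pi.single b 1 : X → C) ≠ 0 := by
            intro h
            have h' := congrArg (fun v => m.ρ γ⁻¹ *ᵥ v) h
            simp only [Matrix.mulVec_mulVec, rinv', Matrix.one_mulVec, Matrix.mulVec_zero] at h'
            have := congrFun h' b
            rw [Pi.single_eq_same, Pi.zero_apply] at this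
            exact one_ne_zero this
          obtain ⟨a, ha⟩ : ∃ a, (m.ρ γ *ᵥ (Pi.single b 1 : X → C)) a ≠ 0 := by
            by_contra h
            push Not at h
            exact h3 (funext h)
          exact ⟨a, m.gs_e (m.tr_gs (m.Ub_gs b) γ) h2 ha⟩
        obtain ⟨c, hc⟩ := hne
        have hc' : c ∈ φ δ b := by rw [← h1]; exact hc
        rw [(m.tr_min (m.all_min b) γ hc).2, (m.tr_min (m.all_min b) δ hc').2]
      rw [← hgd, ← tr_mul, inv_mul_cancel, tr_one]
    let ψ : Γ ⧸ m.sub → (X → Set X) := fun x => φ x.out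
    refine Finite.of_injective ψ ?_
    intro x y hxy
    have := hφ x.out y.out hxy
    rwa [QuotientGroup.out_eq', QuotientGroup.out_eq'] at this
  exact Subgroup.finiteIndex_of_finite_quotient

theorem sub_entry {γ : Γ} (hγ : γ ∈ m.sub) {a b : X} (h : m.ρ γ a b ≠ 0) : m.R a b := by
  have h1 : m.ρ γ *ᵥ (Pi.single b 1 : X → C) ∈ m.Ub b := by
    rw [← m.mem_sub.1 hγ b, mem_tr, Matrix.mulVec_mulVec, rinv', Matrix.one_mulVec, e_mem_Ub]
    exact m.R_refl b
  apply h1 a
  rw [Matrix.mulVec_single_one]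
  exact h

/-- Tate tensors are spanned by pairing tensors. -/
theorem tate_span {k : ℕ} {t : (Fin k → X) → C} (ht : m.Tate k t) :
    t ∈ Submodule.span C {y : (Fin k → X) → C | ∃ L, IsPair L (univ : Finset (Fin k)) ∧
      y = pr m.blk L} := by
  classical
  apply fft m.blk t
  intro a b hab w
  have h1 := hab.2.1 k t ht
  have h2 := congrFun h1 w
  rw [der_root, Pi.zero_apply] at h2
  exact sub_eq_zero.1 h2

end Mono

end Pool.Agent.H25.TN
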