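import Mathlib
import Pool.Agent.H25.TN.Lie

/-!
Exterior algebra elements as antisymmetric tensors in coordinates.
-/

namespace Pool.Agent.H25.TN

open Finset Function

set_option linter.unusedSectionVars false

section Ext

variable {C W Y : Type*} [Field C] [CharZero C] [AddCommGroup W] [Module C W] [Fintype Y]
  [DecidableEq Y] (co : Y → W →ₗ[C] C) (b : Y → W) (hb : ∀ v, ∑ y, co y v • b y = v)

/-- Coordinates of a pure tensor. -/
def mt (k : ℕ) : MultilinearMap C (fun _ : Fin k => W) ((Fin k → Y) → C) where
  toFun v w := ∏ i, co (w i) (v i)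
  map_update_add' := by
    intro _ v i x y
    funext w
    simp only [Pi.add_apply]
    rw [← Finset.mul_prod_erase univ _ (Finset.mem_univ i),
      ← Finset.mul_prod_erase univ (fun j => co (w j) (update v i x j)) (Finset.mem_univ i),
      ← Finset.mul_prod_erase univ (fun j => co (w j) (update v i y j)) (Finset.mem_univ i)]
    simp only [update_self, map_add, add_mul]
    congr 1
    all_goals
      congr 1
      refine Finset.prod_congr rfl fun j hj => ?_
      rw [update_of_ne (Finset.ne_of_mem_erase hj), update_of_ne (Finset.ne_of_mem_erase hj)]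
  map_update_smul' := by
    intro _ v i c x
    funext w
    simp only [Pi.smul_apply, smul_eq_mul]
    rw [← Finset.mul_prod_erase univ _ (Finset.mem_univ i),
      ← Finset.mul_prod_erase univ (fun j => co (w j) (update v i x j)) (Finset.mem_univ i)]
    simp only [update_self, map_smul, smul_eq_mul, mul_assoc]
    congr 2
    refine Finset.prod_congr rfl fun j hj => ?_
    rw [update_of_ne (Finset.ne_of_mem_erase hj), update_of_ne (Finset.ne_of_mem_erase hj)]

theorem mt_apply (k : ℕ) (v : Fin k → W) (w : Fin k → Y) : mt co k v w = ∏ i, co (w i) (v i) := rfl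

/-- Coordinates of an element of the exterior power. -/
noncomputable def toT (k : ℕ) : ⋀[C]^k W →ₗ[C] ((Fin k → Y) → C) :=
  exteriorPower.alternatingMapLinearEquiv (MultilinearMap.alternatization (mt co k))

theorem toT_ι (k : ℕ) (v : Fin k → W) : toT co k (exteriorPower.ιMulti C k v)
    = ∑ σ : Equiv.Perm (Fin k), Equiv.Perm.sign σ • mt co k (fun i => v (σ i)) := by
  rw [toT, exteriorPower.alternatingMapLinearEquiv_apply_ιMulti,
    MultilinearMap.alternatization_apply]
  rfl

/-- From coordinates to the exterior algebra. -/
noncomputable def ofT (k : ℕ) : ((Fin k → Y) → C) →ₗ[C] ExteriorAlgebra C W where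
  toFun t := ∑ w : Fin k → Y, t w • ExteriorAlgebra.ιMulti C k (fun i => b (w i))
  map_add' := by
    intro t t'
    simp only [Pi.add_apply, add_smul, Finset.sum_add_distrib]
  map_smul' := by
    intro c t
    simp only [Pi.smul_apply, smul_eq_mul, RingHom.id_apply, Finset.smul_sum, smul_smul]

include hb in
theorem ofT_mt (k : ℕ) (u : Fin k → W) : ofT b k (mt co k u) = ExteriorAlgebra.ιMulti C k u := by
  have h1 : u = fun i => ∑ y, co y (u i) • b y := by
    funext i; exact (hb (u i)).symm
  conv_rhs => rw [h1]
  have h2 := (ExteriorAlgebra.ιMulti C k (M := W)).toMultilinearMap.map_sum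
    (g := fun (i : Fin k) (y : Y) => co y (u i) • b y)
  change _ = (ExteriorAlgebra.ιMulti C k (M := W)).toMultilinearMap (fun i => ∑ y, co y (u i) • b y)
  rw [h2]
  change ∑ w : Fin k → Y, _ = _
  refine Finset.sum_congr rfl fun w _ => ?_
  rw [MultilinearMap.map_smul_univ]
  rfl

include hb in
theorem ofT_toT (k : ℕ) (x : ⋀[C]^k W) :
    ofT b k (toT co k x) = (k.factorial : C) • (x : ExteriorAlgebra C W) := by
  have : (ofT b k).comp (toT co k) = (k.factorial : C) • (Submodule.subtype _) := by
    apply exteriorPower.linearMap_ext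
    ext v
    simp only [LinearMap.compAlternatingMap_apply, LinearMap.comp_apply, LinearMap.smul_apply,
      Submodule.subtype_apply, exteriorPower.ιMulti_apply_coe]
    rw [toT_ι, map_sum]
    have : ∀ σ : Equiv.Perm (Fin k), ofT b k (Equiv.Perm.sign σ • mt co k (fun i => v (σ i)))
        = ExteriorAlgebra.ιMulti C k v := by
      intro σ
      rw [Units.smul_def, map_zsmul, ofT_mt co b hb]
      have h := (ExteriorAlgebra.ιMulti C k (M := W)).map_perm v σ
      have h' : ExteriorAlgebra.ιMulti C k (fun i => v (σ i))
          = Equiv.Perm.sign σ • ExteriorAlgebra.ιMulti C k v := h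
      rw [h', Units.smul_def, smul_smul, ← Units.val_mul, Int.units_mul_self, Units.val_one,
        one_smul]
    rw [Finset.sum_congr rfl (fun σ _ => this σ), Finset.sum_const, Finset.card_univ,
      Fintype.card_perm, Fintype.card_fin, ← Nat.cast_smul_eq_nsmul C]
  exact congrArg (fun f => f x) this

theorem coe_map (k : ℕ) (f : W →ₗ[C] W) (x : ⋀[C]^k W) :
    ((exteriorPower.map k f x : ⋀[C]^k W) : ExteriorAlgebra C W)
      = ExteriorAlgebra.map f (x : ExteriorAlgebra C W) := by
  have : (Submodule.subtype (⋀[C]^k W)).comp (exteriorPower.map k f)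
      = (ExteriorAlgebra.map f).toLinearMap.comp (Submodule.subtype (⋀[C]^k W)) := by
    apply exteriorPower.linearMap_ext
    ext v
    simp only [LinearMap.compAlternatingMap_apply, LinearMap.comp_apply, Submodule.subtype_apply,
      exteriorPower.map_apply_ιMulti, exteriorPower.ιMulti_apply_coe, AlgHom.toLinearMap_apply]
    rw [ExteriorAlgebra.map_apply_ιMulti]
  exact congrArg (fun f => f x) this

/-- Equivariance. -/
theorem toT_map (k : ℕ) (f : W →ₗ[C] W) (G : Matrix Y Y C)
    (hf : ∀ y v, co y (f v) = ∑ y', G y y' * co y' v) (x : ⋀[C]^k W) :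
    toT co k (exteriorPower.map k f x) = act G (toT co k x) := by
  let A : ((Fin k → Y) → C) →ₗ[C] ((Fin k → Y) → C) :=
    { toFun := act G
      map_add' := by
        intro t t'; funext w
        simp only [act, Pi.add_apply, mul_add, Finset.sum_add_distrib]
      map_smul' := by
        intro c t; funext w
        simp only [act, Pi.smul_apply, smul_eq_mul, RingHom.id_apply, Finset.mul_sum]
        refine Finset.sum_congr rfl fun w' _ => ?_
        ring }
  have hmt : ∀ u : Fin k → W, mt co k (fun i => f (u i)) = A (mt co k u) := by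
    intro u
    funext w
    change ∏ i, co (w i) (f (u i)) = ∑ w' : Fin k → Y, (∏ i, G (w i) (w' i)) *
      ∏ i, co (w' i) (u i)
    simp only [hf]
    rw [Finset.prod_univ_sum]
    rw [Fintype.piFinset_univ]
    refine Finset.sum_congr rfl fun w' _ => ?_
    rw [Finset.prod_mul_distrib]
  have : (toT co k).comp (exteriorPower.map k f) = A.comp (toT co k) := by
    apply exteriorPower.linearMap_ext
    ext1 v
    simp only [LinearMap.compAlternatingMap_apply, LinearMap.comp_apply,
      exteriorPower.map_apply_ιMulti]
    rw [toT_ι, toT_ι, map_sum]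
    refine Finset.sum_congr rfl fun σ _ => ?_
    rw [Units.smul_def, Units.smul_def, map_zsmul]
    congr 1
    exact hmt (fun i => v (σ i))
  exact congrArg (fun f => f x) this

end Ext

/-- Averaging over one letter, with values in a module. -/
theorem sum_update' {X P C M : Type*} [Fintype X] [DecidableEq X] [Fintype P] [DecidableEq P]
    [Field C] [AddCommGroup M] [Module C M] (i : P) (h : (P → X) → M) :
    ∑ w, ∑ a, h (update w i a) = (Fintype.card X : C) • ∑ w, h w := by
  classical
  let e : ((P → X) × X) ≃ ((P → X) × X) :=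
    { toFun := fun p => (update p.1 i p.2, p.1 i)
      invFun := fun p => (update p.1 i p.2, p.1 i)
      left_inv := by rintro ⟨w, a⟩; simp
      right_inv := by rintro ⟨w, a⟩; simp }
  rw [← Fintype.sum_prod_type', Finset.smul_sum]
  have h1 : ∑ p : (P → X) × X, h (update p.1 i p.2) = ∑ p : (P → X) × X, h p.1 :=
    Equiv.sum_comp e (fun p => h p.1)
  rw [h1, Fintype.sum_prod_type]
  refine Finset.sum_congr rfl fun w _ => ?_
  change ∑ _y : X, h w = _
  rw [Finset.sum_const, Finset.card_univ, ← Nat.cast_smul_eq_nsmul C]

/-- Permuting the factors of a product of degree one elements changes at most the sign. -/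
theorem perm_sign {C W P : Type*} [Field C] [AddCommGroup W] [Module C W] {l l' : List P}
    (h : l.Perm l') : ∃ s : C, ∀ g : P → W,
      (l.map (fun i => ExteriorAlgebra.ι C (g i))).prod
        = s • (l'.map (fun i => ExteriorAlgebra.ι C (g i))).prod := by
  induction h with
  | nil => exact ⟨1, fun g => by simp⟩
  | cons a _ ih =>
    obtain ⟨s, hs⟩ := ih
    refine ⟨s, fun g => ?_⟩
    rw [List.map_cons, List.prod_cons, hs g, List.map_cons, List.prod_cons, mul_smul_comm]
  | swap a b l =>
    refine ⟨-1, fun g => ?_⟩
    simp only [List.map_cons, List.prod_cons]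
    rw [← mul_assoc, ← mul_assoc, neg_one_smul, ← neg_mul]
    congr 1
    exact eq_neg_of_add_eq_zero_left (ExteriorAlgebra.ι_add_mul_swap _ _)
  | trans _ _ ih1 ih2 =>
    obtain ⟨s, hs⟩ := ih1
    obtain ⟨s', hs'⟩ := ih2
    exact ⟨s * s', fun g => by rw [hs g, hs' g, smul_smul]⟩

/-- Pairing tensors give products of the degree two elements attached to the blocks. -/
theorem pr_mem {X P C W : Type*} [Fintype X] [DecidableEq X] [Fintype P] [DecidableEq P]
    [Field C] [CharZero C] [AddCommGroup W] [Module C W] (B : Blk X C) (e : P → X → W)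
    (Om : Submodule C (ExteriorAlgebra C W)) (r : X → X → Prop) [DecidableRel r]
    (hr : ∀ a b, r a b ↔ B.r a b)
    (hOm : ∀ i j b, (∑ c, if r c b then B.eps c •
      (ExteriorAlgebra.ι C (e i c) * ExteriorAlgebra.ι C (e j (B.bar c))) else 0) ∈ Om) :
    ∀ (L : List (P × P × X)) (S : Finset P) (l : List P), IsPair L S → l.Nodup →
      l.toFinset = S →
      ∑ w : P → X, pr B L w • (l.map (fun i => ExteriorAlgebra.ι C (e i (w i)))).prod
        ∈ Om ^ L.length := by
  classical
  intro L
  induction L with
  | nil =>
    rintro S l rfl hnd hl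
    have : l = [] := List.toFinset_eq_empty_iff _ |>.1 hl
    subst this
    simp only [pr, List.map_nil, List.prod_nil, List.length_nil, pow_zero, one_smul]
    rw [Finset.sum_const, ← Nat.cast_smul_eq_nsmul C]
    exact Submodule.smul_mem _ _ (Submodule.one_le.1 le_rfl)
  | cons q L ih =>
    obtain ⟨i, j, b⟩ := q
    rintro S l ⟨hi, hj, hij, hL⟩ hnd hl
    have hil : i ∈ l := by rw [← List.mem_toFinset, hl]; exact hi
    have hjl : j ∈ l := by rw [← List.mem_toFinset, hl]; exact hj
    set l' := (l.erase i).erase j with hl'
    have hjl' : j ∈ l.erase i := (List.mem_erase_of_ne hij.symm).2 hjl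
    have hperm : l.Perm (i :: j :: l') :=
      (List.perm_cons_erase hil).trans ((List.perm_cons_erase hjl').cons i)
    have hnd' : l'.Nodup := (hnd.erase i).erase j
    have hlf : l'.toFinset = (S.erase i).erase j := by
      ext k
      rw [List.mem_toFinset, hl', (hnd.erase i).mem_erase_iff, hnd.mem_erase_iff,
        Finset.mem_erase, Finset.mem_erase, ← hl, List.mem_toFinset]
    obtain ⟨s, hs⟩ := perm_sign (C := C) (W := W) hperm
    have hih := ih _ l' hL hnd' hlf
    have hni : ∀ k ∈ l', k ≠ i ∧ k ≠ j := by
      intro k hk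
      rw [← List.mem_toFinset, hlf, Finset.mem_erase, Finset.mem_erase] at hk
      exact ⟨hk.2.1, hk.1⟩
    have hdep := pr_dep B L _ hL
    set h : (P → X) → ExteriorAlgebra C W := fun w => pr B ((i, j, b) :: L) w •
      (ExteriorAlgebra.ι C (e i (w i)) * (ExteriorAlgebra.ι C (e j (w j)) *
        (l'.map (fun k => ExteriorAlgebra.ι C (e k (w k)))).prod)) with hh
    have hsum : ∑ w : P → X, pr B ((i, j, b) :: L) w •
        (l.map (fun i => ExteriorAlgebra.ι C (e i (w i)))).prod = s • ∑ w, h w := by
      rw [Finset.smul_sum]
      refine Finset.sum_congr rfl fun w _ => ?_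
      rw [hs (fun k => e k (w k)), smul_comm]
      simp only [hh, List.map_cons, List.prod_cons]
    rw [hsum]
    apply Submodule.smul_mem
    rw [List.length_cons, pow_succ']
    by_cases hX : (Fintype.card X : C) = 0
    · have : IsEmpty X := by
        rw [Nat.cast_eq_zero] at hX
        exact Fintype.card_eq_zero_iff.1 hX
      have hE : IsEmpty (P → X) := ⟨fun w => isEmptyElim (w i)⟩
      rw [Finset.univ_eq_empty, Finset.sum_empty]
      exact Submodule.zero_mem _
    have key : (Fintype.card X : C) • (Fintype.card X : C) • ∑ w, h w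
        = (∑ c, if r c b then B.eps c •
          (ExteriorAlgebra.ι C (e i c) * ExteriorAlgebra.ι C (e j (B.bar c))) else 0)
          * ∑ w : P → X, pr B L w • (l'.map (fun k => ExteriorAlgebra.ι C (e k (w k)))).prod := by
      rw [← sum_update' (C := C) j h, ← sum_update' (C := C) i (fun w => ∑ a, h (update w j a)),
        Finset.mul_sum]
      refine Finset.sum_congr rfl fun w _ => ?_
      rw [Finset.sum_mul]
      refine Finset.sum_congr rfl fun c _ => ?_
      rw [Finset.sum_eq_single (B.bar c)]
      · simp only [hh, pr]
        have e1 : pr B L (update (update w i c) j (B.bar c)) = pr B L w := by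
          apply hdep
          intro k hk
          rw [Finset.mem_erase, Finset.mem_erase] at hk
          rw [update_of_ne hk.1, update_of_ne hk.2.1]
        have e2 : (l'.map (fun k => ExteriorAlgebra.ι C (e k (update (update w i c) j (B.bar c) k))))
            = l'.map (fun k => ExteriorAlgebra.ι C (e k (w k))) := by
          apply List.map_congr_left
          intro k hk
          rw [update_of_ne (hni k hk).2, update_of_ne (hni k hk).1]
        rw [e1, e2, update_self, update_of_ne hij, update_self]
        by_cases h' : B.r c b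
        · rw [if_pos ⟨h', rfl⟩, if_pos ((hr c b).2 h')]
          rw [smul_mul_smul_comm, ← mul_assoc]
        · rw [if_neg (fun h'' => h' h''.1), if_neg (fun h'' => h' ((hr c b).1 h''))]
          rw [zero_mul, zero_smul, zero_mul]
      · intro a' _ ha'
        simp only [hh, pr]
        rw [update_self, update_of_ne hij, update_self, if_neg (fun h => ha' h.2), zero_mul,
          zero_smul]
      · simp
    have h2 := Submodule.mul_mem_mul (hOm i j b) hih
    rw [← key] at h2
    have h3 := Submodule.smul_mem _ ((Fintype.card X : C)⁻¹)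
      (Submodule.smul_mem _ ((Fintype.card X : C)⁻¹) h2)
    rw [smul_comm ((Fintype.card X : C)⁻¹) (Fintype.card X : C), smul_smul (Fintype.card X : C),
      mul_inv_cancel₀ hX, one_smul, smul_smul, inv_mul_cancel₀ hX, one_smul] at h3
    exact h3

theorem isPair_card {X P : Type*} [DecidableEq P] : ∀ (L : List (P × P × X)) (S : Finset P),
    IsPair L S → S.card = 2 * L.length := by
  intro L
  induction L with
  | nil => rintro S rfl; rfl
  | cons q L ih =>
    obtain ⟨i, j, b⟩ := q
    rintro S ⟨hi, hj, hij, hL⟩
    have h1 := ih _ hL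
    have hj' : j ∈ S.erase i := Finset.mem_erase.2 ⟨hij.symm, hj⟩
    rw [Finset.card_erase_of_mem hj', Finset.card_erase_of_mem hi] at h1
    have h2 : 2 ≤ S.card := by
      have : ({i, j} : Finset P) ⊆ S := by
        intro k hk
        rw [Finset.mem_insert, Finset.mem_singleton] at hk
        rcases hk with rfl | rfl <;> assumption
      have h3 := Finset.card_le_card this
      rwa [Finset.card_pair hij] at h3
    rw [List.length_cons]
    omega

end Pool.Agent.H25.TN
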