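import Mathlib
import Pool.Agent.H25.TN.Ext

/-!
Assembly: Tate classes for a group with a neat element are generated in degree two.
-/

namespace Pool.Agent.H25.TN

open Finset Function

set_option linter.unusedSectionVars false

section

variable {Γ : Type*} [Group Γ] {C V : Type*} [Field C] [CharZero C] [AddCommGroup V] [Module C V]

/-- The elements `x` of `⋀^(2j) (V^n)` with `γ x = χ(γ)^j x` for all `γ` in the subgroup `H`. -/
def tate (ρ : Γ →* (V →ₗ[C] V)) (χ : Γ → C) (H : Subgroup Γ) (n j : ℕ) :
    Submodule C (ExteriorAlgebra C (Fin n → V)) where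
  carrier := {x | x ∈ ⋀[C]^(2 * j) (Fin n → V) ∧
    ∀ γ ∈ H, ExteriorAlgebra.map ((ρ γ).compLeft (Fin n)) x = χ γ ^ j • x}
  add_mem' := by
    rintro x y ⟨hx, hx'⟩ ⟨hy, hy'⟩
    exact ⟨Submodule.add_mem _ hx hy, fun γ hγ => by rw [map_add, hx' γ hγ, hy' γ hγ, smul_add]⟩
  zero_mem' := ⟨Submodule.zero_mem _, fun γ _ => by rw [map_zero, smul_zero]⟩
  smul_mem' := by
    rintro r x ⟨hx, hx'⟩
    exact ⟨Submodule.smul_mem _ _ hx, fun γ hγ => by rw [map_smul, hx' γ hγ, smul_comm]⟩

theorem mem_tate (ρ : Γ →* (V →ₗ[C] V)) (χ : Γ → C) (H : Subgroup Γ) (n j : ℕ)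
    (x : ExteriorAlgebra C (Fin n → V)) : x ∈ tate ρ χ H n j ↔
    x ∈ ⋀[C]^(2 * j) (Fin n → V) ∧
    ∀ γ ∈ H, ExteriorAlgebra.map ((ρ γ).compLeft (Fin n)) x = χ γ ^ j • x := Iff.rfl

variable {X : Type*} [Fintype X] [DecidableEq X] (e : Module.Basis X C V)

/-- Coordinates on `V^n`. -/
noncomputable def co (n : ℕ) (y : X × Fin n) : (Fin n → V) →ₗ[C] C :=
  (e.coord y.1).comp (LinearMap.proj y.2)

/-- Coordinate vectors of `V^n`. -/
noncomputable def bs (n : ℕ) (y : X × Fin n) : Fin n → V := Pi.single y.2 (e y.1)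

theorem co_apply (n : ℕ) (y : X × Fin n) (v : Fin n → V) : co e n y v = e.repr (v y.2) y.1 := rfl

theorem co_bs (n : ℕ) (v : Fin n → V) : ∑ y, co e n y v • bs e n y = v := by
  rw [Fintype.sum_prod_type_right]
  funext r
  rw [Finset.sum_apply, Finset.sum_eq_single r]
  · simp only [co_apply, bs, Finset.sum_apply, Pi.smul_apply, Pi.single_eq_same]
    exact e.sum_repr (v r)
  · intro s _ hs
    rw [Finset.sum_apply]
    apply Finset.sum_eq_zero
    intro a _
    simp [bs, Pi.single_eq_of_ne hs.symm]
  · simp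

variable (m : Mono Γ X C) (ρ : Γ →* (V →ₗ[C] V)) (hρ : ∀ γ, LinearMap.toMatrix e e (ρ γ) = m.ρ γ)

/-- The matrix of the action on `V^n`. -/
def Gm (n : ℕ) (M : Matrix X X C) : Matrix (X × Fin n) (X × Fin n) C :=
  Matrix.of fun y y' => if y.2 = y'.2 then M y.1 y'.1 else 0

include hρ in
theorem co_map (n : ℕ) (γ : Γ) (y : X × Fin n) (v : Fin n → V) :
    co e n y ((ρ γ).compLeft (Fin n) v) = ∑ y', Gm n (m.ρ γ) y y' * co e n y' v := by
  rw [Fintype.sum_prod_type_right, Finset.sum_eq_single y.2]
  · rw [co_apply, LinearMap.compLeft_apply, comp_apply]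
    have h := LinearMap.toMatrix_mulVec_repr e e (ρ γ) (v y.2)
    rw [hρ] at h
    rw [← h]
    rw [Matrix.mulVec, dotProduct]
    refine Finset.sum_congr rfl fun a _ => ?_
    simp [Gm, co_apply]
  · intro s _ hs
    apply Finset.sum_eq_zero
    intro a _
    simp [Gm, hs.symm]
  · simp

/-- Component of a tensor on `V^n`. -/
def comp' {n k : ℕ} (t : (Fin k → X × Fin n) → C) (f : Fin k → Fin n) (w : Fin k → X) : C :=
  t (fun i => (w i, f i))

theorem act_comp {n k : ℕ} (M : Matrix X X C) (t : (Fin k → X × Fin n) → C) (f : Fin k → Fin n) :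
    act M (comp' t f) = comp' (act (Gm n M) t) f := by
  classical
  funext w
  simp only [act, comp']
  have e1 := Equiv.sum_comp (Equiv.arrowProdEquivProdArrow (Fin k) (fun _ => X) (fun _ => Fin n)).symm
    (fun w' : Fin k → X × Fin n => (∏ i, Gm n M (w i, f i) (w' i)) * t w')
  rw [← e1, Fintype.sum_prod_type]
  refine Finset.sum_congr rfl fun w' _ => ?_
  rw [Finset.sum_eq_single f]
  · congr 1
    refine Finset.prod_congr rfl fun i _ => ?_
    simp [Gm, Equiv.arrowProdEquivProdArrow]
  · intro f' _ hf'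
    obtain ⟨i, hi⟩ : ∃ i, f' i ≠ f i := by
      by_contra h
      push Not at h
      exact hf' (funext h)
    rw [Finset.prod_eq_zero (Finset.mem_univ i), zero_mul]
    simp [Gm, Equiv.arrowProdEquivProdArrow, hi.symm]
  · simp

theorem ofT_comp {n k : ℕ} (t : (Fin k → X × Fin n) → C) :
    ofT (bs e n) k t = ∑ f : Fin k → Fin n, ∑ w : Fin k → X, comp' t f w •
      ExteriorAlgebra.ιMulti C k (fun i => bs e n (w i, f i)) := by
  classical
  have e1 := Equiv.sum_comp (Equiv.arrowProdEquivProdArrow (Fin k) (fun _ => X) (fun _ => Fin n)).symm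
    (fun w' : Fin k → X × Fin n => t w' • ExteriorAlgebra.ιMulti C k (fun i => bs e n (w' i)))
  change ∑ w' : Fin k → X × Fin n, _ = _
  rw [← e1, Fintype.sum_prod_type_right]
  rfl

include hρ in
/-- The degree two classes attached to blocks are Tate classes for the finite index subgroup. -/
theorem om_mem (n : ℕ) (r r' : Fin n) (b : X) [DecidableRel m.R] :
    (∑ c, if m.R c b then m.eps c • (ExteriorAlgebra.ι C (bs e n (c, r)) *
      ExteriorAlgebra.ι C (bs e n (m.bar c, r'))) else 0) ∈ tate ρ m.χ m.sub n 1 := by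
  classical
  refine ⟨?_, ?_⟩
  · refine Submodule.sum_mem _ fun c _ => ?_
    split_ifs
    · apply Submodule.smul_mem
      have h2 : (⋀[C]^(2 * 1) (Fin n → V) : Submodule C (ExteriorAlgebra C (Fin n → V)))
          = LinearMap.range (ExteriorAlgebra.ι C) * LinearMap.range (ExteriorAlgebra.ι C) := by
        change (LinearMap.range (ExteriorAlgebra.ι C : (Fin n → V) →ₗ[C] _)) ^ 2 = _
        rw [sq]
      rw [h2]
      exact Submodule.mul_mem_mul ⟨_, rfl⟩ ⟨_, rfl⟩
    · exact Submodule.zero_mem _
  · intro γ hγ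
    rw [pow_one, map_sum]
    have hcol : ∀ (c : X) (s : Fin n), (ρ γ).compLeft (Fin n) (bs e n (c, s))
        = ∑ d, m.ρ γ d c • bs e n (d, s) := by
      intro c s
      funext s'
      rw [LinearMap.compLeft_apply, comp_apply, Finset.sum_apply]
      simp only [bs, Pi.smul_apply]
      by_cases hs : s' = s
      · subst hs
        simp only [Pi.single_eq_same]
        have h := LinearMap.toMatrix_mulVec_repr e e (ρ γ) (e c)
        have h1 : ρ γ (e c) = ∑ d, (e.repr (ρ γ (e c))) d • e d := (e.sum_repr _).symm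
        rw [h1]
        refine Finset.sum_congr rfl fun d _ => ?_
        rw [← hρ γ, LinearMap.toMatrix_apply]
      · simp only [Pi.single_eq_of_ne hs, map_zero, smul_zero, Finset.sum_const_zero]
    have hJ : ∀ d d', ∑ c, m.eps c * m.ρ γ d c * m.ρ γ d' (m.bar c)
        = m.χ γ * (if d' = m.bar d then m.eps d else 0) := by
      intro d d'
      have h := congrFun (congrFun (m.sim γ) d) d'
      rw [Matrix.smul_apply, smul_eq_mul] at h
      rw [show (if d' = m.bar d then m.eps d else 0) = jmat m.bar m.eps d d' from rfl, ← h]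
      rw [Matrix.mul_apply]
      have h1 : ∀ c', (m.ρ γ * jmat m.bar m.eps) d c' * (m.ρ γ).transpose c' d'
          = ∑ c, m.ρ γ d c * (if c' = m.bar c then m.eps c else 0) * m.ρ γ d' c' := by
        intro c'
        rw [Matrix.mul_apply, Finset.sum_mul]
        rfl
      rw [Finset.sum_congr rfl (fun c' _ => h1 c'), Finset.sum_comm]
      refine Finset.sum_congr rfl fun c _ => ?_
      rw [Finset.sum_eq_single (m.bar c)]
      · rw [if_pos rfl]; ring
      · intro c' _ hc'; rw [if_neg hc']; ring
      · simp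
    have hterm : ∀ c, ExteriorAlgebra.map ((ρ γ).compLeft (Fin n))
        (if m.R c b then m.eps c • (ExteriorAlgebra.ι C (bs e n (c, r)) *
          ExteriorAlgebra.ι C (bs e n (m.bar c, r'))) else 0)
        = ∑ d, ∑ d', (if m.R d b then m.eps c * m.ρ γ d c * m.ρ γ d' (m.bar c) else 0) •
          (ExteriorAlgebra.ι C (bs e n (d, r)) * ExteriorAlgebra.ι C (bs e n (d', r'))) := by
      intro c
      have hz : ∀ d, ¬ (m.R d b ↔ m.R c b) → m.ρ γ d c = 0 := by
        intro d hd
        by_contra h
        apply hd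
        have h1 := m.sub_entry hγ h
        exact ⟨fun h2 => m.R_trans (m.all_min _ _ h1) h2, fun h2 => m.R_trans h1 h2⟩
      by_cases hc : m.R c b
      · rw [if_pos hc, map_smul, map_mul, ExteriorAlgebra.map_apply_ι,
          ExteriorAlgebra.map_apply_ι, hcol, hcol, map_sum, map_sum, Finset.sum_mul,
          Finset.smul_sum]
        refine Finset.sum_congr rfl fun d _ => ?_
        rw [Finset.mul_sum, Finset.smul_sum]
        refine Finset.sum_congr rfl fun d' _ => ?_
        rw [map_smul, map_smul, smul_mul_smul_comm, smul_smul]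
        by_cases hd : m.R d b
        · rw [if_pos hd]; congr 1; ring
        · rw [if_neg hd, hz d (by tauto)]; simp
      · rw [if_neg hc, map_zero]
        symm
        apply Finset.sum_eq_zero
        intro d _
        apply Finset.sum_eq_zero
        intro d' _
        by_cases hd : m.R d b
        · rw [if_pos hd, hz d (by tauto)]; simp
        · rw [if_neg hd, zero_smul]
    rw [Finset.sum_congr rfl (fun c _ => hterm c), Finset.sum_comm, Finset.smul_sum]
    refine Finset.sum_congr rfl fun d _ => ?_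
    rw [Finset.sum_comm]
    have h3 : ∀ d', ∑ c, (if m.R d b then m.eps c * m.ρ γ d c * m.ρ γ d' (m.bar c) else 0) •
          (ExteriorAlgebra.ι C (bs e n (d, r)) * ExteriorAlgebra.ι C (bs e n (d', r')))
        = (if m.R d b then m.χ γ * (if d' = m.bar d then m.eps d else 0) else 0) •
          (ExteriorAlgebra.ι C (bs e n (d, r)) * ExteriorAlgebra.ι C (bs e n (d', r'))) := by
      intro d'
      rw [← Finset.sum_smul]
      by_cases hd : m.R d b
      · simp only [if_pos hd]; rw [hJ]
      · simp only [if_neg hd]; rw [Finset.sum_const_zero]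
    rw [Finset.sum_congr rfl (fun d' _ => h3 d'), Finset.sum_eq_single (m.bar d)]
    · by_cases hd : m.R d b
      · rw [if_pos hd, if_pos hd, if_pos rfl, smul_smul]
      · rw [if_neg hd, if_neg hd, zero_smul, smul_zero]
    · intro d' _ hd'
      rw [if_neg hd', mul_zero, ite_self, zero_smul]
    · simp

include hρ in
/-- **Main theorem, coordinate form.** -/
theorem mono_main (hQ : m.χ m.F = m.Q) (n j : ℕ) :
    tate ρ m.χ ⊤ n j ≤ (tate ρ m.χ m.sub n 1) ^ j := by
  classical
  rintro x ⟨hx, hx'⟩
  set x' : ⋀[C]^(2 * j) (Fin n → V) := ⟨x, hx⟩ with hx'def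
  set t := toT (co e n) (2 * j) x' with ht
  have hact : ∀ γ, act (Gm n (m.ρ γ)) t = m.χ γ ^ j • t := by
    intro γ
    rw [ht, ← toT_map (co e n) (2 * j) _ _ (co_map e m ρ hρ n γ), ← map_smul]
    congr 1
    apply Subtype.ext
    rw [coe_map]
    exact hx' γ trivial
  have hT : ∀ f : Fin (2 * j) → Fin n, m.Tate (2 * j) (comp' t f) := by
    intro f
    refine ⟨fun γ => ⟨m.χ γ ^ j, pow_ne_zero _ (m.χ_ne γ), ?_⟩, ?_⟩
    · rw [act_comp, hact]
      rfl
    · intro w hw
      have h1 : act (m.ρ m.F) (comp' t f) = m.χ m.F ^ j • comp' t f := by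
        rw [act_comp, hact]; rfl
      have h2 := congrFun h1 w
      rw [m.hF] at h2
      simp only [act] at h2
      rw [Finset.sum_eq_single w] at h2
      · simp only [Matrix.diagonal_apply_eq, Pi.smul_apply, smul_eq_mul] at h2
        have h3 := mul_right_cancel₀ hw h2
        rw [h3, hQ, ← pow_mul, mul_comm]
      · intro w' _ hw'
        obtain ⟨i, hi⟩ : ∃ i, w i ≠ w' i := by
          by_contra h
          push Not at h
          exact hw' (funext fun i => (h i).symm)
        rw [Finset.prod_eq_zero (Finset.mem_univ i), zero_mul]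
        exact Matrix.diagonal_apply_ne _ hi
      · simp
  have hmem : ofT (bs e n) (2 * j) t ∈ (tate ρ m.χ m.sub n 1) ^ j := by
    rw [ofT_comp]
    refine Submodule.sum_mem _ fun f _ => ?_
    let Φ : ((Fin (2 * j) → X) → C) →ₗ[C] ExteriorAlgebra C (Fin n → V) :=
      { toFun := fun z => ∑ w : Fin (2 * j) → X, z w •
          ExteriorAlgebra.ιMulti C (2 * j) (fun i => bs e n (w i, f i))
        map_add' := by
          intro z z'
          simp only [Pi.add_apply, add_smul, Finset.sum_add_distrib]
        map_smul' := by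
          intro c z
          simp only [Pi.smul_apply, smul_eq_mul, RingHom.id_apply, Finset.smul_sum, smul_smul] }
    have hspan := m.tate_span (hT f)
    have hle : Submodule.span C {y : (Fin (2 * j) → X) → C | ∃ L, IsPair L (univ : Finset _) ∧
        y = pr m.blk L} ≤ ((tate ρ m.χ m.sub n 1) ^ j).comap Φ := by
      rw [Submodule.span_le]
      rintro _ ⟨L, hL, rfl⟩
      have h1 := pr_mem m.blk (fun i a => bs e n (a, f i)) (tate ρ m.χ m.sub n 1) m.R
        (fun a b => Iff.rfl) (fun i j b => om_mem e m ρ hρ n (f i) (f j) b) L univ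
        (List.finRange (2 * j)) hL (List.nodup_finRange _) (by ext; simp)
      have h2 := isPair_card L univ hL
      rw [Finset.card_univ, Fintype.card_fin] at h2
      have h3 : L.length = j := by omega
      rw [h3] at h1
      change ∑ w : Fin (2 * j) → X, pr m.blk L w •
          ExteriorAlgebra.ιMulti C (2 * j) (fun i => bs e n (w i, f i)) ∈
          (tate ρ m.χ m.sub n 1) ^ j
      convert h1 using 3
      rw [ExteriorAlgebra.ιMulti_apply, List.ofFn_eq_map]
    exact hle hspan
  rw [ht, ofT_toT (co e n) (bs e n) (co_bs e n)] at hmem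
  have h0 : ((2 * j).factorial : C) ≠ 0 := by
    exact_mod_cast (Nat.factorial_ne_zero _)
  have := Submodule.smul_mem ((tate ρ m.χ m.sub n 1) ^ j) (((2 * j).factorial : C)⁻¹) hmem
  rwa [smul_smul, inv_mul_cancel₀ h0, one_smul] at this

end

end Pool.Agent.H25.TN
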