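import Mathlib
import Pool.Agent.H25.TN.Main

/-!
From a semisimple group of symplectic similitudes to the coordinate form.
-/

namespace Pool.Agent.H25.TN

open Finset Function Matrix

set_option linter.unusedSectionVars false

theorem count_map {X : Type*} [DecidableEq X] {k : ℕ} (w : Fin k → X) (a : X) :
    (∑ i, if w i = a then 1 else 0 : ℕ) = ((List.finRange k).map w).count a := by
  have h : ∀ l : List (Fin k), (l.map w).count a = (l.map (fun i => if w i = a then 1 else 0)).sum := by
    intro l
    induction l with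
    | nil => rfl
    | cons b l ih =>
      rw [List.map_cons, List.count_cons, ih, List.map_cons, List.sum_cons, add_comm]
      congr 1
      by_cases hb : w b = a <;> simp [hb]
  rw [h, Fin.sum_univ_def]

/-- If every relation contains a conjugate pair, relations are balanced. -/
theorem balanced {X C : Type*} [DecidableEq X] [Field C] (ev : X → C) (Q : C) (hQ : Q ≠ 0)
    (bar : X → X) (hbar : ∀ a b, ev a * ev b = Q → b = bar a) (hbb : ∀ a, bar (bar a) = a)
    (hp : ∀ l : List X, l ≠ [] → ((l.map ev).prod) ^ 2 = Q ^ l.length →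
      ∃ a b, a ≠ b ∧ a ∈ l ∧ b ∈ l ∧ ev a * ev b = Q) :
    ∀ (n : ℕ) (l : List X), l.length = n → ((l.map ev).prod) ^ 2 = Q ^ l.length →
      ∀ c, l.count c = l.count (bar c) := by
  intro n
  induction n using Nat.strong_induction_on with
  | _ n ih =>
  intro l hl hrel c
  by_cases hne : l = []
  · subst hne; rfl
  obtain ⟨a, b, hab, ha, hb, hQab⟩ := hp l hne hrel
  have hb' : b ∈ l.erase a := (List.mem_erase_of_ne hab.symm).2 hb
  set l' := (l.erase a).erase b with hl'
  have hperm : l.Perm (a :: b :: l') :=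
    (List.perm_cons_erase ha).trans ((List.perm_cons_erase hb').cons a)
  have hlen : l.length = l'.length + 2 := by rw [hperm.length_eq]; rfl
  have hprod : (l.map ev).prod = Q * (l'.map ev).prod := by
    rw [(hperm.map ev).prod_eq, List.map_cons, List.map_cons, List.prod_cons, List.prod_cons,
      ← mul_assoc, hQab]
  have hrel' : ((l'.map ev).prod) ^ 2 = Q ^ l'.length := by
    rw [hprod, hlen, mul_pow, pow_add, mul_comm] at hrel
    exact mul_right_cancel₀ (pow_ne_zero 2 hQ) hrel
  have h1 := ih l'.length (by omega) l' rfl hrel' c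
  have hba := hbar a b hQab
  rw [hperm.count_eq, hperm.count_eq, List.count_cons, List.count_cons, List.count_cons,
    List.count_cons, h1, hba]
  have e1 : (a = bar c) ↔ (bar a = c) := ⟨fun h => by rw [h, hbb], fun h => by rw [← h, hbb]⟩
  have e2 : (bar a = bar c) ↔ (a = c) := ⟨fun h => by rw [← hbb a, h, hbb], fun h => by rw [h]⟩
  have i1 : (if (a == c) = true then 1 else 0 : ℕ) = if (bar a == bar c) = true then 1 else 0 := by
    simp only [beq_iff_eq]
    exact if_congr e2.symm rfl rfl
  have i2 : (if (bar a == c) = true then 1 else 0 : ℕ) = if (a == bar c) = true then 1 else 0 := by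
    simp only [beq_iff_eq]
    exact if_congr e1.symm rfl rfl
  rw [i1, i2]
  ring

section Build

variable {Γ : Type*} [Group Γ] {C V : Type*} [Field C] [CharZero C] [AddCommGroup V] [Module C V]
  {X : Type*} [Fintype X] [DecidableEq X]

/-- Existence of a basis of eigenvectors adapted to the form. -/
theorem exists_basis [Nonempty X] (F : V →ₗ[C] V) (ψ : V →ₗ[C] V →ₗ[C] C) (halt : ∀ x, ψ x x = 0)
    (hnd : ∀ x, (∀ y, ψ x y = 0) → x = 0) (Q : C) (hψ : ∀ x y, ψ (F x) (F y) = Q * ψ x y)
    (ev : X → C) (hinj : Injective ev) (hev : ∀ a, ∃ x : V, x ≠ 0 ∧ F x = ev a • x)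
    (hdim : Module.finrank C V = Fintype.card X) (bar : X → X)
    (hbar : ∀ a b, ev a * ev b = Q → b = bar a) (hbb : ∀ a, bar (bar a) = a) :
    ∃ (e : Module.Basis X C V) (eps : X → C), (∀ a, F (e a) = ev a • e a) ∧
      (∀ a, eps a * eps a = 1) ∧ (∀ a, eps (bar a) = - eps a) ∧
      ∀ a b, ψ (e a) (e b) = if b = bar a then eps a else 0 := by
  classical
  choose e0 he0 hFe0 using hev
  -- a basis of scaled eigenvectors
  have hbas : ∀ s : X → C, (∀ a, s a ≠ 0) → ∃ e : Module.Basis X C V, ∀ a, e a = s a • e0 a := by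
    intro s hs
    have hli : LinearIndependent C (fun a => s a • e0 a) := by
      apply Module.End.eigenvectors_linearIndependent' F ev hinj
      intro a
      rw [Module.End.hasEigenvector_iff, Module.End.mem_eigenspace_iff]
      refine ⟨?_, smul_ne_zero (hs a) (he0 a)⟩
      rw [map_smul, hFe0, smul_comm]
    refine ⟨basisOfLinearIndependentOfCardEqFinrank hli hdim.symm, fun a => ?_⟩
    rw [coe_basisOfLinearIndependentOfCardEqFinrank]
  have hanti : ∀ x y, ψ x y = - ψ y x := by
    intro x y
    have h := halt (x + y)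
    simp only [map_add, LinearMap.add_apply, halt, zero_add, add_zero] at h
    linear_combination h
  have hsm : ∀ (c : C) (x : V) (d : C) (y : V), ψ (c • x) (d • y) = c * d * ψ x y := by
    intro c x d y
    simp only [map_smul, LinearMap.smul_apply, smul_eq_mul]
    ring
  have horth : ∀ a b, b ≠ bar a → ψ (e0 a) (e0 b) = 0 := by
    intro a b hb
    have h := hψ (e0 a) (e0 b)
    rw [hFe0, hFe0, hsm] at h
    by_contra hne
    exact hb (hbar a b (mul_right_cancel₀ hne h))
  obtain ⟨e1, he1⟩ := hbas (fun _ => 1) (fun _ => one_ne_zero)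
  have hnz : ∀ a, ψ (e0 a) (e0 (bar a)) ≠ 0 := by
    intro a h
    apply he0 a
    apply hnd
    intro y
    rw [← e1.sum_repr y, map_sum]
    apply Finset.sum_eq_zero
    intro b _
    rw [map_smul, he1, one_smul]
    by_cases hb : b = bar a
    · rw [hb, h, smul_zero]
    · rw [horth a b hb, smul_zero]
  have hbne : ∀ a, bar a ≠ a := by
    intro a h
    have := hnz a
    rw [h] at this
    exact this (halt _)
  let φ := Fintype.equivFin X
  let eps : X → C := fun a => if φ a < φ (bar a) then 1 else -1
  have hlt : ∀ a, φ (bar a) < φ a ↔ ¬ φ a < φ (bar a) := by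
    intro a
    have : φ a ≠ φ (bar a) := fun h => hbne a (φ.injective h).symm
    rw [not_lt]
    exact ⟨le_of_lt, fun h => lt_of_le_of_ne h this.symm⟩
  let s : X → C := fun a => if φ a < φ (bar a) then 1 else (ψ (e0 (bar a)) (e0 a))⁻¹
  have hnz' : ∀ a, ψ (e0 (bar a)) (e0 a) ≠ 0 := by
    intro a
    have := hnz (bar a)
    rwa [hbb] at this
  have hs : ∀ a, s a ≠ 0 := by
    intro a
    simp only [s]
    split_ifs
    · exact one_ne_zero
    · exact inv_ne_zero (hnz' a)
  obtain ⟨e, he⟩ := hbas s hs
  refine ⟨e, eps, ?_, ?_, ?_, ?_⟩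
  · intro a
    rw [he, map_smul, hFe0, smul_comm]
  · intro a
    simp only [eps]
    split_ifs <;> ring
  · intro a
    simp only [eps, hbb]
    by_cases h : φ a < φ (bar a)
    · rw [if_pos h, if_neg (not_lt.2 h.le)]
    · rw [if_neg h, if_pos ((hlt a).2 h)]; ring
  · intro a b
    rw [he, he, hsm]
    by_cases hb : b = bar a
    · subst hb
      rw [if_pos rfl]
      simp only [s, eps, hbb]
      by_cases h : φ a < φ (bar a)
      · rw [if_pos h, if_neg (not_lt.2 h.le), if_pos h, one_mul]
        exact inv_mul_cancel₀ (hnz a)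
      · rw [if_neg h, if_pos ((hlt a).2 h), if_neg h, mul_one, hanti (e0 a), mul_neg,
          inv_mul_cancel₀ (hnz' a)]
    · rw [if_neg hb, horth a b hb, mul_zero]

/-- **Main theorem**, for a group with a neat element with distinct eigenvalues. -/
theorem neat_main [Nonempty X] (ρ : Γ →* (V →ₗ[C] V))
    (hss : ∀ U : Submodule C V, (∀ γ, ∀ v ∈ U, ρ γ v ∈ U) →
      ∃ W : Submodule C V, (∀ γ, ∀ v ∈ W, ρ γ v ∈ W) ∧ IsCompl U W)
    (χ : Γ →* Cˣ) (ψ : V →ₗ[C] V →ₗ[C] C) (halt : ∀ x, ψ x x = 0)
    (hnd : ∀ x, (∀ y, ψ x y = 0) → x = 0) (hψ : ∀ γ x y, ψ (ρ γ x) (ρ γ y) = χ γ * ψ x y)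
    (F : Γ) (ev : X → C) (hev : ∀ a, ∃ x : V, x ≠ 0 ∧ ρ F x = ev a • x)
    (hdim : Module.finrank C V = Fintype.card X) (hinj : Injective ev) (bar : X → X)
    (hbar : ∀ a, ev a * ev (bar a) = χ F)
    (hp : ∀ l : List X, l ≠ [] → ((l.map ev).prod) ^ 2 = (χ F : C) ^ l.length →
      ∃ a b, a ≠ b ∧ a ∈ l ∧ b ∈ l ∧ ev a * ev b = χ F) :
    ∃ Γ' : Subgroup Γ, F ∈ Γ' ∧ Γ'.FiniteIndex ∧ ∀ n j : ℕ,
      tate ρ (fun γ => (χ γ : C)) ⊤ n j ≤ (tate ρ (fun γ => (χ γ : C)) Γ' n 1) ^ j := by
  classical
  have hQ : (χ F : C) ≠ 0 := Units.ne_zero _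
  have hev0 : ∀ a, ev a ≠ 0 := by
    intro a h
    have := hbar a
    rw [h, zero_mul] at this
    exact hQ this.symm
  have hbar' : ∀ a b, ev a * ev b = χ F → b = bar a := by
    intro a b h
    apply hinj
    apply mul_left_cancel₀ (hev0 a)
    rw [h, hbar]
  have hbb : ∀ a, bar (bar a) = a := by
    intro a
    symm
    apply hbar'
    rw [mul_comm]; exact hbar a
  obtain ⟨e, eps, he, h2, h3, h4⟩ := exists_basis (ρ F) ψ halt hnd (χ F) (hψ F) ev hinj hev hdim bar
    hbar' hbb
  let R : Γ →* Matrix X X C := (LinearMap.toMatrixAlgEquiv e : (V →ₗ[C] V) →* Matrix X X C).comp ρ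
  have hR : ∀ γ, LinearMap.toMatrix e e (ρ γ) = R γ := fun γ => rfl
  have hrepr : ∀ γ (v : V), R γ *ᵥ (e.equivFun v) = e.equivFun (ρ γ v) := by
    intro γ v
    rw [← hR]
    exact LinearMap.toMatrix_mulVec_repr e e (ρ γ) v
  have hcol : ∀ γ a, ρ γ (e a) = ∑ c, R γ c a • e c := by
    intro γ a
    rw [← e.sum_repr (ρ γ (e a))]
    refine Finset.sum_congr rfl fun c _ => ?_
    rw [← hR, LinearMap.toMatrix_apply]
  have hRF : R F = Matrix.diagonal ev := by
    ext a b
    rw [← hR, LinearMap.toMatrix_apply, he, map_smul, Finsupp.smul_apply, e.repr_self,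
      smul_eq_mul]
    by_cases hab : a = b
    · subst hab; rw [Matrix.diagonal_apply_eq, Finsupp.single_eq_same, mul_one]
    · rw [Matrix.diagonal_apply_ne _ hab, Finsupp.single_eq_of_ne (by tauto), mul_zero]
  -- similitude
  have hsim1 : ∀ γ, (R γ).transpose * jmat bar eps * R γ = (χ γ : C) • jmat bar eps := by
    intro γ
    ext a b
    rw [Matrix.smul_apply, smul_eq_mul]
    have h := hψ γ (e a) (e b)
    rw [hcol, hcol, h4] at h
    have hexp : ψ (∑ c, R γ c a • e c) (∑ d, R γ d b • e d) =
        ∑ c, ∑ d, R γ c a * (R γ d b * (if d = bar c then eps c else 0)) := by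
      simp only [map_sum, LinearMap.sum_apply, map_smul, LinearMap.smul_apply, smul_eq_mul, h4]
      rw [Finset.sum_comm]
      simp only [Finset.mul_sum]
      refine Finset.sum_congr rfl fun c _ => Finset.sum_congr rfl fun d _ => ?_
      ring
    rw [hexp] at h
    rw [Matrix.mul_apply]
    have hJ : jmat bar eps a b = if b = bar a then eps a else 0 := rfl
    rw [hJ, ← h]
    simp only [Matrix.mul_apply, Matrix.transpose_apply, Finset.sum_mul]
    rw [Finset.sum_comm]
    refine Finset.sum_congr rfl fun c _ => Finset.sum_congr rfl fun d _ => ?_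
    have hJ2 : jmat bar eps c d = if d = bar c then eps c else 0 := rfl
    rw [hJ2]
    ring
  have hJJ : jmat bar eps * jmat bar eps = (-1 : C) • (1 : Matrix X X C) := by
    ext a b
    rw [Matrix.mul_apply, Finset.sum_eq_single (bar a)]
    · simp only [jmat, Matrix.of_apply, if_true, hbb, h3, Matrix.smul_apply, smul_eq_mul]
      by_cases hab : a = b
      · subst hab
        rw [if_pos rfl, Matrix.one_apply_eq]
        linear_combination (-1 : C) * h2 a
      · rw [if_neg (fun h => hab h.symm), Matrix.one_apply_ne hab]; ring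
    · intro c _ hc
      simp [jmat, hc]
    · simp
  have hsim : ∀ γ, R γ * jmat bar eps * (R γ).transpose = (χ γ : C) • jmat bar eps := by
    intro γ
    set J := jmat bar eps with hJ
    set M := R γ with hM
    have hχ : (χ γ : C) ≠ 0 := Units.ne_zero _
    have h5 : ((-(χ γ : C)⁻¹) • (J * M.transpose * J)) * M = 1 := by
      rw [smul_mul_assoc, Matrix.mul_assoc (J * M.transpose), Matrix.mul_assoc J,
        ← Matrix.mul_assoc M.transpose, hsim1, mul_smul_comm, hJJ, smul_smul, smul_smul]
      rw [show -(χ γ : C)⁻¹ * (χ γ : C) * -1 = 1 by field_simp, one_smul]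
    have h6 : M * ((-(χ γ : C)⁻¹) • (J * M.transpose * J)) = 1 := mul_eq_one_comm.1 h5
    have h7 := congrArg (fun A => A * J) h6
    simp only [Matrix.one_mul] at h7
    rw [mul_smul_comm, smul_mul_assoc, Matrix.mul_assoc M, Matrix.mul_assoc (J * M.transpose),
      hJJ, mul_smul_comm, Matrix.mul_one, mul_smul_comm, smul_smul, ← Matrix.mul_assoc] at h7
    have h8 := congrArg (fun A => (χ γ : C) • A) h7
    simp only [smul_smul] at h8
    rw [show (χ γ : C) * (-(χ γ : C)⁻¹ * -1) = 1 by field_simp, one_smul] at h8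
    exact h8
  have hbal := balanced ev (χ F : C) hQ bar hbar' hbb hp
  let m : Mono Γ X C :=
    { bar := bar
      bar_bar := hbb
      eps := eps
      eps_sq := h2
      eps_bar := h3
      ρ := R
      χ := fun γ => (χ γ : C)
      χ_ne := fun γ => Units.ne_zero _
      sim := hsim
      F := F
      ev := ev
      ev_inj := hinj
      hF := hRF
      Q := χ F
      Q_ne := hQ
      ev_bar := hbar
      neat := by
        intro k w hw a
        rw [count_map, count_map]
        refine hbal _ _ rfl ?_ a
        rw [List.map_map, List.length_map, List.length_finRange, ← hw, Fin.prod_univ_def]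
        rfl
      ss := by
        intro U hU
        obtain ⟨W, hW, hc⟩ := hss (U.comap (e.equivFun : V →ₗ[C] (X → C))) (by
          intro γ v hv
          change e.equivFun (ρ γ v) ∈ U
          rw [← hrepr]
          exact hU γ _ hv)
        refine ⟨W.map (e.equivFun : V →ₗ[C] (X → C)), ?_, ?_⟩
        · rintro γ _ ⟨v, hv, rfl⟩
          exact ⟨ρ γ v, hW γ v hv, (hrepr γ v).symm⟩
        · have h := (Submodule.orderIsoMapComap e.equivFun).isCompl hc
          have hU2 : (Submodule.orderIsoMapComap e.equivFun)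
              (U.comap (e.equivFun : V →ₗ[C] (X → C))) = U := by
            ext v
            constructor
            · rintro ⟨u, hu, rfl⟩
              exact hu
            · intro hv
              exact ⟨e.equivFun.symm v, by
                change e.equivFun (e.equivFun.symm v) ∈ U
                rw [LinearEquiv.apply_symm_apply]; exact hv, by
                change e.equivFun (e.equivFun.symm v) = v
                rw [LinearEquiv.apply_symm_apply]⟩
          rw [hU2] at h
          exact h }
  exact ⟨m.sub, m.F_mem_sub, m.sub_finiteIndex, fun n j => mono_main e m ρ hR rfl n j⟩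

end Build

end Pool.Agent.H25.TN
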