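import Mathlib
import Pool.Agent.H78.TateBase
import Pool.Agent.H25.TN.Build

set_option autoImplicit false

/-!
Neat Weil numbers, and the main theorem in terms of them.
-/

namespace Pool.Agent.H25.TN

open Polynomial IntermediateField Pool.Agent.H78.TB

/-- The Weil number `π` is *neat*: each multiplicative relation
`(∏ φᵢ(π)) ^ (2N) = q ^ (N k)`, `φ₁, …, φ_k` complex embeddings (repetitions allowed, `k, N ≥ 1`), involves
a pair of embeddings `φ ≠ ψ` with `φ(π) ψ(π) = q`. -/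
def Neat (q : ℕ) {E : Type*} [Field E] (π : E) : Prop :=
  ∀ (l : List (E →+* ℂ)) (N : ℕ), l ≠ [] → 1 ≤ N →
    ((l.map (fun φ => φ π)).prod) ^ (2 * N) = (q : ℂ) ^ (N * l.length) →
    ∃ φ ∈ l, ∃ ψ ∈ l, φ ≠ ψ ∧ φ π * ψ π = (q : ℂ)

section

variable {E : Type*} [Field E] [NumberField E] {q : ℕ} {π : E}

/-- The Galois closure of `E` in `ℂ`. -/
noncomputable abbrev Cl (E : Type*) [Field E] [NumberField E] := IntermediateField.normalClosure ℚ E ℂ

theorem normal_cl : Normal ℚ (Cl E) :=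
  (Algebra.IsAlgebraic.isNormalClosure_normalClosure (F := ℚ) (K := E) (L := ℂ)
    (fun _ => IsAlgClosed.splits _)).normal

theorem numberField_cl : NumberField (Cl E) :=
  { to_charZero := inferInstance, to_finiteDimensional := inferInstance }

theorem galois_cl : IsGalois ℚ (Cl E) :=
  { to_isSeparable := by
      have := numberField_cl (E := E)
      infer_instance
    to_normal := normal_cl }

/-- The embedding of `E`. -/
noncomputable def i0 : E →ₐ[ℚ] Cl E :=
  (normalClosure.algHomEquiv ℚ E ℂ).symm (IsAlgClosed.lift (R := ℚ))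

theorem algebraic_cl : Algebra.IsAlgebraic ℚ (Cl E) := by
  have := numberField_cl (E := E)
  infer_instance

/-- Some embedding of the Galois closure in an algebraically closed field. -/
theorem exists_emb (K : Type*) [Field K] [CharZero K] [IsAlgClosed K] : Nonempty (Cl E →+* K) := by
  have := algebraic_cl (E := E)
  exact ⟨(IsAlgClosed.lift (R := ℚ) (M := K) (S := Cl E)).toRingHom⟩

theorem hom_ext_gen' {R : Type*} [Field R] [CharZero R] (hgen : ℚ⟮π⟯ = ⊤) {φ ψ : E →+* R}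
    (h : φ π = ψ π) : φ = ψ := by
  have : φ.toRatAlgHom = ψ.toRatAlgHom := hom_ext_gen hgen h
  ext z
  exact congrArg (fun f : E →ₐ[ℚ] R => f z) this

/-- Neatness may be tested with embeddings in any algebraically closed field of characteristic zero. -/
theorem neat_transport (hgen : ℚ⟮π⟯ = ⊤) {K K' : Type*} [Field K] [CharZero K] [IsAlgClosed K]
    [Field K'] [CharZero K'] [IsAlgClosed K']
    (h : ∀ (l : List (E →+* K)) (N : ℕ), l ≠ [] → 1 ≤ N →
      ((l.map (fun φ => φ π)).prod) ^ (2 * N) = (q : K) ^ (N * l.length) →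
      ∃ φ ∈ l, ∃ ψ ∈ l, φ ≠ ψ ∧ φ π * ψ π = (q : K)) :
    ∀ (l : List (E →+* K')) (N : ℕ), l ≠ [] → 1 ≤ N →
      ((l.map (fun φ => φ π)).prod) ^ (2 * N) = (q : K') ^ (N * l.length) →
      ∃ φ ∈ l, ∃ ψ ∈ l, φ ≠ ψ ∧ φ π * ψ π = (q : K') := by
  intro l N hl hN hrel
  have := galois_cl (E := E)
  have := numberField_cl (E := E)
  obtain ⟨j⟩ := exists_emb (E := E) K
  obtain ⟨j'⟩ := exists_emb (E := E) K'
  have hlift : ∀ φ : E →+* K', ∃ ψ : E →ₐ[ℚ] Cl E, ∀ z, φ z = j' (ψ z) := fun φ =>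
    exists_lift i0 hgen j' φ
  choose lf hlf using hlift
  let g : (E →+* K') → (E →+* K) := fun φ => j.comp (lf φ : E →ₐ[ℚ] Cl E).toRingHom
  have hg : ∀ φ, g φ π = j (lf φ π) := fun φ => rfl
  have hp' : (l.map (fun φ => φ π)).prod = j' ((l.map (fun φ => lf φ π)).prod) := by
    rw [map_list_prod, List.map_map]
    congr 1
    apply List.map_congr_left
    intro φ _
    exact hlf φ π
  have hp : ((l.map g).map (fun φ => φ π)).prod = j ((l.map (fun φ => lf φ π)).prod) := by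
    rw [map_list_prod, List.map_map, List.map_map]
    rfl
  have hL : ((l.map (fun φ => lf φ π)).prod) ^ (2 * N) = (q : Cl E) ^ (N * l.length) := by
    apply j'.injective
    rw [map_pow, ← hp', hrel, map_pow, map_natCast]
  obtain ⟨φ, hφ, ψ, hψ, hne, hprod⟩ := h (l.map g) N (by simpa using hl) hN (by
    rw [hp, ← map_pow, hL, List.length_map, map_pow, map_natCast])
  obtain ⟨φ', hφ', rfl⟩ := List.mem_map.1 hφ
  obtain ⟨ψ', hψ', rfl⟩ := List.mem_map.1 hψ
  refine ⟨φ', hφ', ψ', hψ', fun e => hne (by rw [e]), ?_⟩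
  rw [hg, hg, ← map_mul] at hprod
  have h2 : lf φ' π * lf ψ' π = (q : Cl E) := by
    apply j.injective
    rw [hprod, map_natCast]
  rw [hlf, hlf, ← map_mul, h2, map_natCast]

/-- Complex conjugation. -/
theorem exists_conj' (hgen : ℚ⟮π⟯ = ⊤) (hq : q ≠ 0) (habs : ∀ φ : E →+* ℂ, ‖φ π‖ ^ 2 = (q : ℝ))
    {K : Type*} [Field K] [CharZero K] [IsAlgClosed K] (φ : E →+* K) :
    ∃ ψ : E →+* K, φ π * ψ π = (q : K) := by
  have := galois_cl (E := E)
  have := numberField_cl (E := E)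
  obtain ⟨j⟩ := exists_emb (E := E) K
  obtain ⟨φ', hφ'⟩ := exists_lift i0 hgen j φ
  obtain ⟨ψ', hψ'⟩ := exists_bar (L := Cl E) hq habs φ'
  refine ⟨j.comp (ψ' : E →ₐ[ℚ] Cl E).toRingHom, ?_⟩
  rw [hφ']
  change j (φ' π) * j (ψ' π) = _
  rw [← map_mul, mul_comm, hψ', map_natCast]

/-- **Main theorem** in terms of a neat Weil number. -/
theorem weil_main (hgen : ℚ⟮π⟯ = ⊤) (habs : ∀ φ : E →+* ℂ, ‖φ π‖ ^ 2 = (q : ℝ)) (hneat : Neat q π)
    {Γ : Type*} [Group Γ] {C V : Type*} [Field C] [CharZero C] [IsAlgClosed C] [AddCommGroup V]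
    [Module C V] (ρ : Γ →* (V →ₗ[C] V))
    (hss : ∀ U : Submodule C V, (∀ γ, ∀ v ∈ U, ρ γ v ∈ U) →
      ∃ W : Submodule C V, (∀ γ, ∀ v ∈ W, ρ γ v ∈ W) ∧ IsCompl U W)
    (χ : Γ →* Cˣ) (ψ : V →ₗ[C] V →ₗ[C] C) (halt : ∀ x, ψ x x = 0)
    (hnd : ∀ x, (∀ y, ψ x y = 0) → x = 0) (hψ : ∀ γ x y, ψ (ρ γ x) (ρ γ y) = χ γ * ψ x y)
    (F : Γ) (N : ℕ) (hN : 1 ≤ N) (hχ : (χ F : C) = (q : C) ^ N)
    (hF : ∀ φ : E →+* C, ∃ x : V, x ≠ 0 ∧ ρ F x = (φ π) ^ N • x)
    (hdim : Module.finrank C V = Module.finrank ℚ E) :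
    ∃ Γ' : Subgroup Γ, F ∈ Γ' ∧ Γ'.FiniteIndex ∧ ∀ n j : ℕ,
      tate ρ (fun γ => (χ γ : C)) ⊤ n j ≤ (tate ρ (fun γ => (χ γ : C)) Γ' n 1) ^ j := by
  classical
  have hq : q ≠ 0 := by
    rintro rfl
    have h0 : (χ F : C) = 0 := by rw [hχ, Nat.cast_zero, zero_pow (by omega)]
    exact Units.ne_zero _ h0
  have hqC : (q : C) ≠ 0 := by exact_mod_cast hq
  have hneat' := neat_transport (q := q) (K' := C) hgen hneat
  obtain ⟨j⟩ := exists_emb (E := E) C
  have : Nonempty (E →+* C) := ⟨j.comp (i0 : E →ₐ[ℚ] Cl E).toRingHom⟩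
  choose bar hbar using exists_conj' (q := q) hgen hq habs (K := C)
  have h0 : ∀ φ : E →+* C, φ π ≠ 0 := by
    intro φ h
    have := hbar φ
    rw [h, zero_mul] at this
    exact hqC this.symm
  have hinj : Function.Injective (fun φ : E →+* C => (φ π) ^ N) := by
    intro φ φ' h
    have h : (φ π) ^ N = (φ' π) ^ N := h
    obtain ⟨a, ha, b, hb, hne, hab⟩ := hneat' [φ, bar φ'] N (by simp) hN (by
      have h1 : (([φ, bar φ']).map (fun φ : E →+* C => φ π)).prod = φ π * (bar φ') π := by simp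
      have h2 : (φ π * (bar φ') π) ^ N = (q : C) ^ N := by
        rw [mul_pow, h, ← mul_pow, hbar]
      rw [h1, mul_comm 2 N, pow_mul, h2, ← pow_mul]
      rfl)
    have key : φ π * (bar φ') π = (q : C) := by
      simp only [List.mem_cons, List.not_mem_nil, or_false] at ha hb
      rcases ha with rfl | rfl <;> rcases hb with rfl | rfl
      · exact absurd rfl hne
      · exact hab
      · rw [mul_comm]; exact hab
      · exact absurd rfl hne
    apply hom_ext_gen' hgen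
    have h3 : (bar φ') π ≠ 0 := h0 _
    apply mul_right_cancel₀ h3
    rw [key, hbar]
  apply neat_main (X := E →+* C) ρ hss χ ψ halt hnd hψ F (fun φ => (φ π) ^ N) hF
    (by rw [hdim, NumberField.Embeddings.card]) hinj bar
  · intro φ
    rw [← mul_pow, hbar, hχ]
  · intro l hl hrel
    have hprod : (l.map (fun φ : E →+* C => (φ π) ^ N)).prod = ((l.map (fun φ => φ π)).prod) ^ N := by
      clear hrel hl
      induction l with
      | nil => simp
      | cons a l ih => rw [List.map_cons, List.prod_cons, ih, List.map_cons, List.prod_cons, mul_pow]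
    rw [hprod, hχ, ← pow_mul, ← pow_mul, mul_comm N 2] at hrel
    obtain ⟨a, ha, b, hb, hne, hab⟩ := hneat' l N hl hN hrel
    refine ⟨a, b, hne, ha, hb, ?_⟩
    rw [← mul_pow, hab, hχ]

end

end Pool.Agent.H25.TN
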