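import Mathlib
import Pool.Agent.H25.TN.Neat
import Pool.Agent.H78.TateNeat
import Pool.Agent.H91.TateDominant
import Pool.Agent.H83.TateGal

set_option autoImplicit false

/-!
Slope criteria for neatness.
-/

namespace Pool.Agent.H25.TN

open Polynomial IntermediateField Pool.Agent.H78.TB

section

variable {E : Type*} [Field E] [NumberField E] {q : ℕ} {π : E}
  {K : Type*} [Field K] [CharZero K] [IsAlgClosed K]

omit [CharZero K] [IsAlgClosed K] in
theorem q_ne (v : AddValuation K (WithTop ℚ)) (hv : v (q : K) = 1) : q ≠ 0 := by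
  rintro rfl
  rw [Nat.cast_zero, AddValuation.map_zero] at hv
  exact absurd hv (by simp)

/-- Reduction of neatness to embeddings in the Galois closure. -/
theorem neat_of_cl (hgen : ℚ⟮π⟯ = ⊤)
    (h : ∀ l : List (E →ₐ[ℚ] Cl E), l ≠ [] → ∀ M : ℕ, 1 ≤ M →
      (l.map (fun φ => φ π)).prod^(2*M) = (q : Cl E)^(M * l.length) →
      ∃ φ ψ : E →ₐ[ℚ] Cl E, φ ≠ ψ ∧ φ ∈ l ∧ ψ ∈ l ∧ φ π * ψ π = (q : Cl E)) : Neat q π := by
  intro l N hl hN hrel
  have := galois_cl (E := E)
  have := numberField_cl (E := E)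
  obtain ⟨j⟩ := exists_emb (E := E) ℂ
  have hlift : ∀ φ : E →+* ℂ, ∃ ψ : E →ₐ[ℚ] Cl E, ∀ z, φ z = j (ψ z) := fun φ =>
    exists_lift i0 hgen j φ
  choose lf hlf using hlift
  have hp' : (l.map (fun φ => φ π)).prod = j (((l.map lf).map (fun φ => φ π)).prod) := by
    rw [map_list_prod, List.map_map, List.map_map]
    congr 1
    apply List.map_congr_left
    intro φ _
    exact hlf φ π
  have hL : (((l.map lf).map (fun φ => φ π)).prod) ^ (2 * N) = (q : Cl E) ^ (N * (l.map lf).length) := by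
    apply j.injective
    rw [map_pow, ← hp', hrel, map_pow, map_natCast, List.length_map]
  obtain ⟨φ, ψ, hne, hφ, hψ, hprod⟩ := h (l.map lf) (by simpa using hl) N hN hL
  obtain ⟨φ', hφ', rfl⟩ := List.mem_map.1 hφ
  obtain ⟨ψ', hψ', rfl⟩ := List.mem_map.1 hψ
  refine ⟨φ', hφ', ψ', hψ', fun e => hne (by rw [e]), ?_⟩
  rw [hlf, hlf, ← map_mul, hprod, map_natCast]

/-- One isolated slope. -/
theorem neat_isolated (hgen : ℚ⟮π⟯ = ⊤) (habs : ∀ φ : E →+* ℂ, ‖φ π‖ ^ 2 = (q : ℝ))
    (v : AddValuation K (WithTop ℚ)) (hv : v (q : K) = 1)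
    (sl : (E →+* K) → ℚ) (hsl : ∀ φ, v (φ π) = ((sl φ : ℚ) : WithTop ℚ))
    (r : ℕ) (hr : r.Prime) (φ0 : E →+* K) (hφ0 : sl φ0 ≠ 1 / 2)
    (hiso : ∀ φ : E →+* K, φ ≠ φ0 → φ π * φ0 π ≠ (q : K) →
      padicNorm r (1 / 2 - sl φ) < padicNorm r (1 / 2 - sl φ0)) : Neat q π := by
  have : Fact r.Prime := ⟨hr⟩
  have := galois_cl (E := E)
  have := numberField_cl (E := E)
  obtain ⟨j⟩ := exists_emb (E := E) K
  have hq := q_ne v hv
  obtain ⟨φ0', hφ0'⟩ := exists_lift i0 hgen j φ0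
  have hφ0'' : φ0 = j.comp (φ0' : E →ₐ[ℚ] Cl E).toRingHom := RingHom.ext hφ0'
  apply neat_of_cl hgen
  intro l hl M hM hrel
  have := Pool.Agent.H78.TateNeat.extract (w := 1) hgen hq v j hv (by intro φ; rw [habs, pow_one])
    (fun φ => sl (j.comp (φ : E →ₐ[ℚ] Cl E).toRingHom))
    (fun φ => hsl (j.comp (φ : E →ₐ[ℚ] Cl E).toRingHom)) r φ0' (by
      rw [← hφ0'', Nat.cast_one]; exact hφ0) (by
      intro φ h1 h2
      rw [← hφ0'', Nat.cast_one]
      apply hiso
      · intro h3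
        apply h1
        apply AlgHom.ext
        intro z
        apply j.injective
        have := congrArg (fun f : E →+* K => f z) h3
        simp only [hφ0''] at this
        exact this
      · intro h3
        apply h2
        apply j.injective
        rw [map_mul, map_pow, map_natCast, pow_one, ← h3, hφ0'']
        rfl) l hl M hM (by rw [hrel, one_mul, mul_comm])
  rwa [pow_one] at this

/-- One dominant slope. -/
theorem neat_dominant (hgen : ℚ⟮π⟯ = ⊤) (habs : ∀ φ : E →+* ℂ, ‖φ π‖ ^ 2 = (q : ℝ))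
    (p a : ℕ) (hp : p.Prime) (hqp : q = p ^ a) (hint : IsIntegral ℤ π)
    (v : AddValuation K (WithTop ℚ)) (hv : v (q : K) = 1)
    (sl : (E →+* K) → ℚ) (hsl : ∀ φ, v (φ π) = ((sl φ : ℚ) : WithTop ℚ)) (φ0 : E →+* K)
    (hdom : ∑ φ, |sl φ - 1 / 2| < 4 * |sl φ0 - 1 / 2|) : Neat q π := by
  subst hqp
  classical
  have := galois_cl (E := E)
  have := numberField_cl (E := E)
  obtain ⟨j⟩ := exists_emb (E := E) K
  let toK : (E →ₐ[ℚ] Cl E) → (E →+* K) := fun ψ => j.comp (ψ : E →ₐ[ℚ] Cl E).toRingHom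
  have htoK : Function.Bijective toK := by
    constructor
    · intro ψ ψ' h
      ext1 z
      have := congrArg (fun f : E →+* K => f z) h
      exact j.injective this
    · intro φ
      obtain ⟨ψ, hψ⟩ := exists_lift i0 hgen j φ
      exact ⟨ψ, by ext1 z; exact (hψ z).symm⟩
  obtain ⟨ψ0, hψ0⟩ := htoK.2 φ0
  have hsum : ∑ ψ, |sl (toK ψ) - ((1 : ℕ) : ℚ) / 2| = ∑ φ, |sl φ - 1 / 2| := by
    rw [Nat.cast_one]
    exact Fintype.sum_bijective toK htoK _ _ (fun ψ => rfl)
  have h0 : sl φ0 ≠ 1 / 2 := by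
    intro h
    rw [h, sub_self, abs_zero, mul_zero] at hdom
    exact absurd hdom (not_lt.2 (Finset.sum_nonneg fun φ _ => abs_nonneg _))
  apply neat_of_cl hgen
  intro l hl M hM hrel
  rcases Pool.Agent.H91.TD.extractL (w := 1) hgen hint hp v j hv (by intro φ; rw [habs, pow_one])
    (fun ψ => sl (toK ψ)) (fun ψ => hsl (toK ψ)) ψ0 (by rw [hψ0, Nat.cast_one]; exact h0) (by
      rw [hsum, hψ0, Nat.cast_one]; exact hdom.le) l hl M hM (by rw [hrel, one_mul, mul_comm]) with
    h | ⟨h, -⟩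
  · rwa [pow_one] at h
  · rw [hsum, hψ0, Nat.cast_one] at h
    exact absurd h hdom.ne

theorem exists_root_hom (_ : ℚ⟮π⟯ = ⊤) (a : K) (ha : aeval a (minpoly ℚ π) = 0) :
    ∃ φ : E →+* K, φ π = a := by
  have : ∃ φ : E →ₐ[ℚ] K, φ π = a := by
    apply exists_algHom_of_splits_of_aeval
    · intro s
      exact ⟨Algebra.IsIntegral.isIntegral s, IsAlgClosed.splits _⟩
    · exact ha
  obtain ⟨φ, hφ⟩ := this
  exact ⟨φ.toRingHom, hφ⟩

/-- Prime power degree. -/
theorem neat_primePower (hgen : ℚ⟮π⟯ = ⊤) (habs : ∀ φ : E →+* ℂ, ‖φ π‖ ^ 2 = (q : ℝ))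
    (v : AddValuation K (WithTop ℚ)) (hv : v (q : K) = 1)
    (sl : (E →+* K) → ℚ) (hsl : ∀ φ, v (φ π) = ((sl φ : ℚ) : WithTop ℚ))
    (l k : ℕ) (hl : l.Prime) (hdeg : Module.finrank ℚ E = 2 * l ^ k) (hne : π ^ 2 ≠ (q : E))
    (c : ℚ) (u : (E →+* K) → ℤ) (hu : ∀ φ, (u φ : ℚ) = c * (1 - 2 * sl φ))
    (hhalf : ∀ H : Finset (E →+* K), (∀ φ ψ : E →+* K, φ π * ψ π = (q : K) → (φ ∈ H ↔ ψ ∉ H)) →
      ¬ (l : ℤ) ∣ ∑ φ ∈ H, u φ) : Neat q π := by
  classical
  have : Fact l.Prime := ⟨hl⟩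
  have hq := q_ne v hv
  have hqK : (q : K) ≠ 0 := by exact_mod_cast hq
  have hirr : Irreducible (minpoly ℚ π) := minpoly.irreducible (Algebra.IsIntegral.isIntegral π)
  let v' : K → ℚ := fun x => (v x).untopD 0
  have hv' : ∀ x : K, x ≠ 0 → v x = ((v' x : ℚ) : WithTop ℚ) := by
    intro x hx
    have h : v x ≠ ⊤ := fun h => hx ((AddValuation.top_iff v).1 h)
    obtain ⟨r, hr⟩ := WithTop.ne_top_iff_exists.1 h
    change v x = (((v x).untopD 0 : ℚ) : WithTop ℚ)
    rw [← hr]; rfl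
  have hmul : ∀ x y : K, x ≠ 0 → y ≠ 0 → v' (x * y) = v' x + v' y := by
    intro x y hx hy
    have h := v.map_mul x y
    rw [hv' _ (mul_ne_zero hx hy), hv' x hx, hv' y hy] at h
    exact_mod_cast h
  have hvq : v' (q : K) = 1 := by
    have h := hv' (q : K) hqK
    rw [hv] at h
    exact_mod_cast h.symm
  have hvs : ∀ φ : E →+* K, v' (φ π) = sl φ := by
    intro φ
    change (v (φ π)).untopD 0 = sl φ
    rw [hsl φ]; rfl
  let u' : K → ℤ := fun a => if h : ∃ φ : E →+* K, φ π = a then u h.choose else 0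
  have hu' : ∀ φ : E →+* K, u' (φ π) = u φ := by
    intro φ
    have h : ∃ ψ : E →+* K, ψ π = φ π := ⟨φ, rfl⟩
    have e : u' (φ π) = u h.choose := dif_pos h
    rw [e, hom_ext_gen' hgen h.choose_spec]
  have hrt : ∀ φ : E →+* K, aeval (φ π) (minpoly ℚ π) = 0 := by
    intro φ
    have := aeval_algHom_apply φ.toRatAlgHom π (minpoly ℚ π)
    rw [minpoly.aeval, map_zero] at this
    exact this
  have hrtC : ∀ φ : E →+* ℂ, aeval (φ π) (minpoly ℚ π) = 0 := by
    intro φ
    have := aeval_algHom_apply φ.toRatAlgHom π (minpoly ℚ π)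
    rw [minpoly.aeval, map_zero] at this
    exact this
  intro lst N hlst hN hrel
  obtain ⟨Pred, hP1, hP2⟩ := Pool.Agent.H83.TateGal.pairing (minpoly ℚ π) hirr (n := k) (p := l)
    (by rw [← hdeg]; exact (Field.primitive_element_iff_minpoly_natDegree_eq ℚ π).1 hgen) (q : ℚ)
    (by
      intro z hz
      obtain ⟨φ, rfl⟩ := exists_root_hom hgen z hz
      rw [habs φ]; simp)
    (L := K) (IsAlgClosed.splits _) v' hmul c u'
    (by
      intro a ha
      obtain ⟨φ, rfl⟩ := exists_root_hom hgen a ha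
      rw [hu', hu, Rat.cast_natCast, hvq, hvs])
    (by
      intro a ha h
      obtain ⟨φ, rfl⟩ := exists_root_hom hgen a ha
      apply hne
      apply φ.injective
      rw [map_pow, map_natCast, h, Rat.cast_natCast])
    (by
      intro Φ hΦ1 hΦ2 hdvd
      refine hhalf (Finset.univ.filter (fun φ : E →+* K => φ π ∈ Φ)) ?_ ?_
      · intro φ ψ h
        have h1 := hΦ2 (φ π) (hrt φ)
        have h0 : φ π ≠ 0 := by
          intro h0
          rw [h0, zero_mul] at h
          exact hqK h.symm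
        have h2 : ((q : ℚ) : K) / φ π = ψ π := by
          rw [Rat.cast_natCast, div_eq_iff h0, mul_comm]; exact h.symm
        rw [h2] at h1
        simpa using h1
      · have : ∑ φ ∈ Finset.univ.filter (fun φ : E →+* K => φ π ∈ Φ), u φ = ∑ a ∈ Φ, u' a := by
          apply Finset.sum_bij (fun φ _ => φ π)
          · intro φ hφ
            exact (Finset.mem_filter.1 hφ).2
          · intro φ _ ψ _ h
            exact hom_ext_gen' hgen h
          · intro a ha
            obtain ⟨φ, rfl⟩ := exists_root_hom hgen a (hΦ1 a ha)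
            exact ⟨φ, by simpa using ha, rfl⟩
          · intro φ _
            exact (hu' φ).symm
        rw [this]
        exact hdvd)
    ℂ (N := N) (by omega)
  have h1 : Pred (lst.map (fun φ => φ π)) := by
    apply hP1
    · intro a ha
      obtain ⟨φ, -, rfl⟩ := List.mem_map.1 ha
      exact hrtC φ
    · have : ((lst.map (fun φ => φ π)).map (fun a => a ^ N)).prod
          = ((lst.map (fun φ => φ π)).prod) ^ N := by
        clear hrel hlst
        induction lst with
        | nil => simp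
        | cons a l ih =>
          rw [List.map_cons, List.map_cons, List.prod_cons, ih, List.prod_cons, mul_pow]
      rw [this, ← pow_mul, mul_comm N 2, hrel, List.length_map, Rat.cast_natCast]
  match lst, hlst, h1 with
  | φ :: t, _, h1 =>
    obtain ⟨b, l1, l2, e1, e2, -⟩ := hP2 (φ π) (t.map (fun φ => φ π)) (by
      intro a ha
      rcases List.mem_cons.1 ha with rfl | ha
      · exact hrtC φ
      · obtain ⟨φ, -, rfl⟩ := List.mem_map.1 ha
        exact hrtC φ) (by simpa using h1)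
    have hb : b ∈ t.map (fun φ => φ π) := by rw [e1]; simp
    obtain ⟨ψ, hψ, rfl⟩ := List.mem_map.1 hb
    rw [Rat.cast_natCast] at e2
    refine ⟨φ, by simp, ψ, by simp [hψ], ?_, e2⟩
    rintro rfl
    apply hne
    apply φ.injective
    rw [map_pow, map_natCast, sq, e2]

end

end Pool.Agent.H25.TN
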