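import Mathlib
import Pool.Agent.H83.TateGal
import Pool.Agent.H83.TateLin

namespace Pool.Agent.Results.MP_0fca13_ag.PrimePowerNeat

open Polynomial

/-- The elements of `⋀^n V` on which the algebra endomorphism of `⋀ V` induced by `F` acts as
multiplication by `c`. -/
def classes {Ω V : Type*} [Field Ω] [AddCommGroup V] [Module Ω V] (F : V →ₗ[Ω] V) (n : ℕ) (c : Ω) :
    Submodule Ω (ExteriorAlgebra Ω V) where
  carrier := {x | x ∈ ⋀[Ω]^n V ∧ ExteriorAlgebra.map F x = c • x}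
  add_mem' := by
    rintro x y ⟨hx, hx'⟩ ⟨hy, hy'⟩
    exact ⟨Submodule.add_mem _ hx hy, by rw [map_add, hx', hy', smul_add]⟩
  zero_mem' := ⟨Submodule.zero_mem _, by rw [map_zero, smul_zero]⟩
  smul_mem' := by
    rintro r x ⟨hx, hx'⟩
    exact ⟨Submodule.smul_mem _ _ hx, by rw [map_smul, hx', smul_comm]⟩

theorem mem_classes {Ω V : Type*} [Field Ω] [AddCommGroup V] [Module Ω V] (F : V →ₗ[Ω] V) (n : ℕ)
    (c : Ω) (x : ExteriorAlgebra Ω V) :
    x ∈ classes F n c ↔ x ∈ ⋀[Ω]^n V ∧ ExteriorAlgebra.map F x = c • x := Iff.rfl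

theorem map_pow_eq {Ω V : Type*} [Field Ω] [AddCommGroup V] [Module Ω V] (F : V →ₗ[Ω] V) (N : ℕ)
    (x : ExteriorAlgebra Ω V) (c : Ω) (hx : ExteriorAlgebra.map F x = c • x) :
    ExteriorAlgebra.map (F ^ N) x = c ^ N • x := by
  induction N with
  | zero =>
    rw [pow_zero, pow_zero, one_smul]
    have : ExteriorAlgebra.map (1 : V →ₗ[Ω] V) = AlgHom.id Ω (ExteriorAlgebra Ω V) :=
      ExteriorAlgebra.map_id
    rw [this]; rfl
  | succ N ih =>
    have : ExteriorAlgebra.map (F ^ (N + 1)) = (ExteriorAlgebra.map (F ^ N)).comp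
        (ExteriorAlgebra.map F) := by
      rw [ExteriorAlgebra.map_comp_map, pow_succ]; rfl
    rw [this, AlgHom.comp_apply, hx, map_smul, ih, smul_smul, pow_succ']

theorem result {l : ℕ} (hl : l.Prime) (k : ℕ) (q : ℕ) (h : ℚ[X]) (hirr : Irreducible h)
    (hdeg : h.natDegree = 2 * l ^ k) (hweil : ∀ z : ℂ, aeval z h = 0 → ‖z‖ ^ 2 = (q : ℝ))
    {L : Type*} [Field L] [CharZero L] (hsplit : (h.map (algebraMap ℚ L)).Splits)
    (v : L → ℚ) (hv : ∀ x y, x ≠ 0 → y ≠ 0 → v (x * y) = v x + v y) (hvq : v (q : L) = 1)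
    (c : ℚ) (u : L → ℤ) (hu : ∀ a : L, aeval a h = 0 → (u a : ℚ) = c * (1 - 2 * v a))
    (hne : ∀ a : L, aeval a h = 0 → a ^ 2 ≠ (q : L))
    (hhalf : ∀ H : Finset L, (∀ a ∈ H, aeval a h = 0) →
      (∀ a : L, aeval a h = 0 → (a ∈ H ↔ (q : L) / a ∉ H)) → ¬ (l : ℤ) ∣ ∑ a ∈ H, u a)
    {Ω V : Type*} [Field Ω] [CharZero Ω] [AddCommGroup V] [Module Ω V] (F : V →ₗ[Ω] V)
    (hF : Submodule.span Ω {x : V | ∃ a : Ω, aeval a h = 0 ∧ F x = a • x} = ⊤)
    (N : ℕ) (hN : 0 < N) (j : ℕ) :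
    classes (F ^ N) (2 * j) ((q : Ω) ^ (N * j)) = (classes F 2 (q : Ω)) ^ j := by
  have : Fact l.Prime := ⟨hl⟩
  apply le_antisymm
  · obtain ⟨Pred, hP1, hP2⟩ := H83.TateGal.pairing h hirr hdeg (q : ℚ)
      (by intro z hz; rw [hweil z hz]; simp) hsplit v hv c u
      (by intro a ha; rw [hu a ha]; rw [Rat.cast_natCast, hvq])
      (by intro a ha; rw [Rat.cast_natCast]; exact hne a ha)
      (by intro H hH1 hH2; apply hhalf H hH1; intro a ha
          have := hH2 a ha
          rwa [Rat.cast_natCast] at this) Ω hN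
    intro x hx
    rw [mem_classes] at hx
    have hmem := H83.TateLin.eig_mem_span (ExteriorAlgebra.ι Ω) F {a : Ω | aeval a h = 0}
      hF N (ExteriorAlgebra.map (F ^ N)) (fun x => ExteriorAlgebra.map_apply_ι _ _) (2 * j)
      ((q : Ω) ^ (N * j)) hx.1 hx.2
    refine Submodule.span_le.2 ?_ hmem
    rintro _ ⟨m, hm, hlen, hev, rfl⟩
    refine H83.TateLin.pr_mem_pow (ExteriorAlgebra.ι Ω) (-1 : Ω) ?_ F {a : Ω | aeval a h = 0}
      (fun a b => a * b = (q : Ω)) (classes F 2 (q : Ω)) ?_ Pred ?_ j m hm ?_ hlen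
    · intro x y
      have := ExteriorAlgebra.ι_add_mul_swap (R := Ω) x y
      rw [neg_one_smul]
      exact eq_neg_of_add_eq_zero_left this
    · intro x y a b hx hy _ _ hab
      refine ⟨?_, ?_⟩
      · have h2 : (⋀[Ω]^2 V : Submodule Ω (ExteriorAlgebra Ω V))
            = LinearMap.range (ExteriorAlgebra.ι Ω) * LinearMap.range (ExteriorAlgebra.ι Ω) := by
          change (LinearMap.range (ExteriorAlgebra.ι Ω : V →ₗ[Ω] _)) ^ 2 = _
          rw [sq]
        rw [h2]
        exact Submodule.mul_mem_mul ⟨x, rfl⟩ ⟨y, rfl⟩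
      · rw [map_mul, ExteriorAlgebra.map_apply_ι, ExteriorAlgebra.map_apply_ι, hx, hy, map_smul,
          map_smul, smul_mul_smul_comm, hab]
    · intro a m' hmem' hpred
      obtain ⟨b, l1, l2, e1, e2, e3⟩ := hP2 a m' hmem' hpred
      exact ⟨b, l1, l2, e1, by rw [e2]; simp, e3⟩
    · apply hP1
      · intro a ha
        obtain ⟨p, hp, rfl⟩ := List.mem_map.1 ha
        exact (hm p hp).2
      · have e : (m.map Prod.snd).map (fun a => a ^ N) = m.map (fun p => p.2 ^ N) := by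
          rw [List.map_map]; rfl
        rw [e, List.length_map, hlen]
        have hev' : (m.map (fun p => p.2 ^ N)).prod = (q : Ω) ^ (N * j) := hev
        rw [hev', Rat.cast_natCast, ← pow_mul]
        congr 1; ring
  · have key : ∀ j, (classes F 2 (q : Ω)) ^ j ≤ classes (F ^ N) (2 * j) ((q : Ω) ^ (N * j)) := by
      intro j
      induction j with
      | zero =>
        rw [pow_zero, Submodule.one_le]
        refine ⟨?_, ?_⟩
        · change (1 : ExteriorAlgebra Ω V) ∈ (LinearMap.range (ExteriorAlgebra.ι Ω : V →ₗ[Ω] _)) ^ 0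
          rw [pow_zero]
          exact Submodule.one_le.1 le_rfl
        · rw [map_one]; simp
      | succ j ih =>
        rw [pow_succ, Submodule.mul_le]
        intro x hx y hy
        have hx' := ih hx
        refine ⟨?_, ?_⟩
        · have e : (⋀[Ω]^(2 * (j + 1)) V : Submodule Ω (ExteriorAlgebra Ω V))
              = (⋀[Ω]^(2 * j) V) * (⋀[Ω]^2 V) := by
            change (LinearMap.range (ExteriorAlgebra.ι Ω : V →ₗ[Ω] _)) ^ _
              = (LinearMap.range (ExteriorAlgebra.ι Ω : V →ₗ[Ω] _)) ^ _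
                * (LinearMap.range (ExteriorAlgebra.ι Ω : V →ₗ[Ω] _)) ^ _
            rw [← pow_add]; congr 1
          rw [e]
          exact Submodule.mul_mem_mul hx'.1 hy.1
        · rw [map_mul, hx'.2, map_pow_eq F N y _ hy.2, smul_mul_smul_comm, ← pow_add]
          congr 2
    exact key j

end Pool.Agent.Results.MP_0fca13_ag.PrimePowerNeat
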